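import Pool.Agent.Lib_helper88.HCR.D2.BlowUp

/-!
# Block RBU: rooted blow-up embedding

`Γ` is a finite rooted `r`-graph with root vertices `Fin a` and new vertices `Fin k`, each new vertex
lying in at most `D` edges; `G` misses at most `c n` vertices at each `(r-1)`-set, `D c ≤ 1/4`.  Then
for every placement `ρ` of the roots there are at least `α n^(k s)` injective placements
`F : Fin k → Fin s → V` of the `s`-blow-up of the new vertices with all lifted edges in `G`.
-/

set_option autoImplicit false

namespace Pool.Agent.Des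

open Finset

theorem rbu_seq {V : Type} [Fintype V] (m : ℝ) (hm : 0 ≤ m) (Q : (j : ℕ) → (Fin j → V) → Prop)
    (h0 : ∀ x : Fin 0 → V, Q 0 x) (k : ℕ)
    (hstep : ∀ j < k, ∀ x : Fin j → V, Q j x →
      m ≤ (Nat.card {v : V // Q (j + 1) (Fin.snoc (α := fun _ => V) x v)} : ℝ)) :
    m ^ k ≤ (Nat.card {x : Fin k → V // Q k x} : ℝ) := by
  classical
  induction k with
  | zero =>
    have h1 : 0 < Nat.card {x : Fin 0 → V // Q 0 x} := by
      rw [Nat.card_pos_iff]
      exact ⟨⟨⟨fun i => i.elim0, h0 _⟩⟩, inferInstance⟩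
    rw [pow_zero]
    exact_mod_cast h1
  | succ k ih =>
    have ih' := ih (fun j hj x hx => hstep j (by omega) x hx)
    have hle : Nat.card (Σ x : {x : Fin k → V // Q k x},
        {v : V // Q (k + 1) (Fin.snoc (α := fun _ => V) x.1 v)}) ≤
        Nat.card {x : Fin (k + 1) → V // Q (k + 1) x} := by
      refine Nat.card_le_card_of_injective
        (fun p => ⟨Fin.snoc (α := fun _ => V) p.1.1 p.2.1, p.2.2⟩) ?_
      rintro ⟨⟨x, hx⟩, ⟨v, hv⟩⟩ ⟨⟨x', hx'⟩, ⟨v', hv'⟩⟩ h
      simp only [Subtype.mk.injEq] at h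
      have h5 := Fin.snoc_injective2 (α := fun _ => V) h
      obtain ⟨rfl, rfl⟩ := h5
      rfl
    rw [Nat.card_sigma] at hle
    have h2 : ∑ x : {x : Fin k → V // Q k x}, m ≤
        ∑ x : {x : Fin k → V // Q k x},
          (Nat.card {v : V // Q (k + 1) (Fin.snoc (α := fun _ => V) x.1 v)} : ℝ) :=
      Finset.sum_le_sum fun x _ => hstep k (by omega) x.1 x.2
    have h3 : (∑ x : {x : Fin k → V // Q k x},
          (Nat.card {v : V // Q (k + 1) (Fin.snoc (α := fun _ => V) x.1 v)} : ℝ)) ≤
        (Nat.card {x : Fin (k + 1) → V // Q (k + 1) x} : ℝ) := by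
      exact_mod_cast hle
    rw [Finset.sum_const, Finset.card_univ, nsmul_eq_mul, ← Nat.card_eq_fintype_card] at h2
    calc m ^ (k + 1) = m ^ k * m := pow_succ m k
      _ ≤ (Nat.card {x : Fin k → V // Q k x} : ℝ) * m := by gcongr
      _ ≤ _ := h2.trans h3

theorem rbu_dg {V : Type} [Fintype V] [DecidableEq V] {r : ℕ} (hr : 1 ≤ r)
    (G : Finset (Finset V)) (hG : Unif r G) (S : Finset V) (hS : S.card = r - 1) :
    (Finset.univ.filter (fun v => insert v S ∉ G)).card + dg G S ≤ Fintype.card V := by
  have h1 : dg G S ≤ (Finset.univ.filter (fun v => insert v S ∈ G)).card := by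
    have hsub : G.filter (fun e => S ⊆ e) ⊆
        (Finset.univ.filter (fun v => insert v S ∈ G)).image (fun v => insert v S) := by
      intro e he
      rw [Finset.mem_filter] at he
      obtain ⟨heG, hSe⟩ := he
      have hc : (e \ S).card = 1 := by
        rw [Finset.card_sdiff_of_subset hSe, hG e heG, hS]
        omega
      obtain ⟨v, hv⟩ := Finset.card_eq_one.1 hc
      have he2 : insert v S = e := by
        rw [Finset.insert_eq, ← hv, Finset.sdiff_union_of_subset hSe]
      rw [Finset.mem_image]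
      exact ⟨v, by rw [Finset.mem_filter, he2]; exact ⟨Finset.mem_univ _, heG⟩, he2⟩
    exact (Finset.card_le_card hsub).trans Finset.card_image_le
  have h2 := Finset.card_filter_add_card_filter_not (s := (Finset.univ : Finset V))
    (fun v => insert v S ∈ G)
  rw [Finset.card_univ] at h2
  omega

/-- extension of a partial placement -/
def rext {V : Type} {j : ℕ} (k : ℕ) (v₀ : V) (x : Fin j → V) : Fin k → V :=
  fun i => if h : i.val < j then x ⟨i.val, h⟩ else v₀

theorem rext_snoc_lt {V : Type} {j : ℕ} (k : ℕ) (v₀ v : V) (x : Fin j → V) (i : Fin k)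
    (hi : i.val < j) :
    rext k v₀ (Fin.snoc (α := fun _ => V) x v) i = rext k v₀ x i := by
  have h1 : i.val < j + 1 := by omega
  simp [rext, Fin.snoc, hi, h1]

theorem rext_snoc_eq {V : Type} {j : ℕ} (k : ℕ) (v₀ v : V) (x : Fin j → V) (i : Fin k)
    (hi : i.val = j) :
    rext k v₀ (Fin.snoc (α := fun _ => V) x v) i = v := by
  simp [rext, Fin.snoc, hi]

/-- good partial placements -/
def RQ {V : Type} [DecidableEq V] {a k : ℕ} (Γ : Finset (Finset (Fin a ⊕ Fin k)))
    (G : Finset (Finset V)) (ρ : Fin a → V) (v₀ : V) (j : ℕ) (x : Fin j → V) : Prop :=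
  Function.Injective x ∧ (∀ i b, x i ≠ ρ b) ∧
    ∀ γ ∈ Γ, (∀ i : Fin k, Sum.inr i ∈ γ → i.val < j) →
      γ.image (Sum.elim ρ (rext k v₀ x)) ∈ G

theorem rbu_step {V : Type} [Fintype V] [DecidableEq V] {r a k D : ℕ} (hr : 1 ≤ r)
    (Γ : Finset (Finset (Fin a ⊕ Fin k))) (hΓ : ∀ γ ∈ Γ, γ.card = r ∧ ∃ j, Sum.inr j ∈ γ)
    (hD : ∀ j : Fin k, (Γ.filter (fun γ => Sum.inr j ∈ γ)).card ≤ D)
    (G : Finset (Finset V)) (c : ℝ) (hG : Unif r G)
    (hdeg : ∀ S : Finset V, S.card = r - 1 → (1 - c) * (Fintype.card V : ℝ) ≤ (dg G S : ℝ))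
    (hc : (D : ℝ) * c ≤ 1 / 4) (ρ : Fin a → V) (hρ : Function.Injective ρ) (v₀ : V)
    (hn : 4 * (a + k) ≤ Fintype.card V) (j : ℕ) (hj : j < k) (x : Fin j → V)
    (hx : RQ Γ G ρ v₀ j x) :
    (Fintype.card V : ℝ) / 2 ≤
      (Nat.card {v : V // RQ Γ G ρ v₀ (j + 1) (Fin.snoc (α := fun _ => V) x v)} : ℝ) := by
  classical
  set n : ℝ := (Fintype.card V : ℝ) with hndef
  obtain ⟨hxi, hxρ, hxG⟩ := hx
  set jj : Fin k := ⟨j, hj⟩ with hjj
  set Γ' := (Γ.filter (fun γ => Sum.inr jj ∈ γ)).filter
    (fun γ => ∀ i : Fin k, Sum.inr i ∈ γ → i.val < j + 1) with hΓ'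
  set S : Finset (Fin a ⊕ Fin k) → Finset V :=
    fun γ => (γ.erase (Sum.inr jj)).image (Sum.elim ρ (rext k v₀ x)) with hS
  -- size of `S γ`
  have hScard : ∀ γ ∈ Γ', (S γ).card = r - 1 := by
    intro γ hγ
    rw [hΓ', Finset.mem_filter, Finset.mem_filter] at hγ
    obtain ⟨⟨hγΓ, hjγ⟩, hlt⟩ := hγ
    rw [hS]
    rw [Finset.card_image_of_injOn, Finset.card_erase_of_mem hjγ, (hΓ γ hγΓ).1]
    have hltj : ∀ i : Fin k, Sum.inr i ∈ γ.erase (Sum.inr jj) → i.val < j := by
      intro i hi
      rw [Finset.mem_erase] at hi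
      have h1 := hlt i hi.2
      have h2 : i.val ≠ j := by
        intro h3
        apply hi.1
        congr 1
        exact Fin.ext h3
      omega
    intro p hp p' hp' hpp
    rcases p with b | i <;> rcases p' with b' | i'
    · simp only [Sum.elim_inl] at hpp
      rw [hρ hpp]
    · exfalso
      have h1 := hltj i' hp'
      simp only [Sum.elim_inl, Sum.elim_inr, rext, h1, dif_pos] at hpp
      exact hxρ _ _ hpp.symm
    · exfalso
      have h1 := hltj i hp
      simp only [Sum.elim_inl, Sum.elim_inr, rext, h1, dif_pos] at hpp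
      exact hxρ _ _ hpp
    · have h1 := hltj i hp
      have h1' := hltj i' hp'
      simp only [Sum.elim_inr, rext, h1, h1', dif_pos] at hpp
      have h2 := hxi hpp
      simp only [Fin.mk.injEq] at h2
      rw [Fin.ext h2]
  set B : Finset V := (Finset.univ.image x ∪ Finset.univ.image ρ) ∪
    Γ'.biUnion (fun γ => Finset.univ.filter (fun v => insert v (S γ) ∉ G)) with hB
  have hBcard : (B.card : ℝ) ≤ n / 2 := by
    have h1 : (B.card : ℝ) ≤ (j : ℝ) + a + ∑ γ ∈ Γ', (c * n) := by
      have h2 : B.card ≤ (j + a) +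
          ∑ γ ∈ Γ', (Finset.univ.filter (fun v => insert v (S γ) ∉ G)).card := by
        refine (Finset.card_union_le _ _).trans (add_le_add ?_ Finset.card_biUnion_le)
        refine (Finset.card_union_le _ _).trans (add_le_add ?_ ?_)
        · exact Finset.card_image_le.trans (by simp)
        · exact Finset.card_image_le.trans (by simp)
      have h3 : ∀ γ ∈ Γ',
          ((Finset.univ.filter (fun v => insert v (S γ) ∉ G)).card : ℝ) ≤ c * n := by
        intro γ hγ
        have h4 := rbu_dg hr G hG (S γ) (hScard γ hγ)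
        have h5 := hdeg (S γ) (hScard γ hγ)
        have h6 : ((Finset.univ.filter (fun v => insert v (S γ) ∉ G)).card : ℝ) +
            (dg G (S γ) : ℝ) ≤ n := by
          rw [hndef]
          exact_mod_cast h4
        have h7 : (1 - c) * n = n - c * n := by ring
        rw [h7] at h5
        linarith
      have h8 : (B.card : ℝ) ≤ ((j : ℝ) + a) +
          ∑ γ ∈ Γ', ((Finset.univ.filter (fun v => insert v (S γ) ∉ G)).card : ℝ) := by
        exact_mod_cast h2
      exact h8.trans (add_le_add le_rfl (Finset.sum_le_sum h3))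
    have hn' : 4 * ((a : ℝ) + k) ≤ n := by
      rw [hndef]
      exact_mod_cast hn
    have hn0 : 0 ≤ n := by
      rw [hndef]
      positivity
    have h9 : ∑ γ ∈ Γ', (c * n) ≤ n / 4 := by
      rw [Finset.sum_const, nsmul_eq_mul]
      have h10 : (Γ'.card : ℝ) ≤ D := by
        exact_mod_cast (Finset.card_filter_le _ _).trans (hD jj)
      by_cases hc0 : 0 ≤ c
      · have h11 : (Γ'.card : ℝ) * c ≤ 1 / 4 :=
          (mul_le_mul_of_nonneg_right h10 hc0).trans hc
        have h12 : (Γ'.card : ℝ) * (c * n) = ((Γ'.card : ℝ) * c) * n := by ring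
        rw [h12]
        have := mul_le_mul_of_nonneg_right h11 hn0
        linarith
      · push Not at hc0
        have h11 : (Γ'.card : ℝ) * (c * n) ≤ 0 := by
          apply mul_nonpos_of_nonneg_of_nonpos (by positivity)
          exact mul_nonpos_of_nonpos_of_nonneg hc0.le hn0
        linarith
    have h13 : (j : ℝ) ≤ k := by exact_mod_cast hj.le
    linarith
  -- every vertex outside `B` is admissible
  have hgood : ∀ v ∉ B, RQ Γ G ρ v₀ (j + 1) (Fin.snoc (α := fun _ => V) x v) := by
    intro v hv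
    rw [hB, Finset.mem_union, Finset.mem_union, not_or, not_or] at hv
    obtain ⟨⟨hv1, hv2⟩, hv3⟩ := hv
    have hv1' : ∀ i, x i ≠ v := fun i h => hv1 (Finset.mem_image.2 ⟨i, Finset.mem_univ _, h⟩)
    have hv2' : ∀ i, ρ i ≠ v := fun i h => hv2 (Finset.mem_image.2 ⟨i, Finset.mem_univ _, h⟩)
    refine ⟨?_, ?_, ?_⟩
    · intro p p' hpp
      induction p using Fin.lastCases with
      | last =>
        induction p' using Fin.lastCases with
        | last => rfl
        | cast p' =>
          rw [Fin.snoc_last, Fin.snoc_castSucc] at hpp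
          exact absurd hpp.symm (hv1' _)
      | cast p =>
        induction p' using Fin.lastCases with
        | last =>
          rw [Fin.snoc_last, Fin.snoc_castSucc] at hpp
          exact absurd hpp (hv1' _)
        | cast p' =>
          rw [Fin.snoc_castSucc, Fin.snoc_castSucc] at hpp
          rw [hxi hpp]
    · intro i b
      induction i using Fin.lastCases with
      | last =>
        rw [Fin.snoc_last]
        exact fun h => hv2' b h.symm
      | cast i =>
        rw [Fin.snoc_castSucc]
        exact hxρ i b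
    · intro γ hγ hlt
      by_cases hjγ : Sum.inr jj ∈ γ
      · have hγ' : γ ∈ Γ' := by
          rw [hΓ', Finset.mem_filter, Finset.mem_filter]
          exact ⟨⟨hγ, hjγ⟩, hlt⟩
        have h1 : insert v (S γ) ∈ G := by
          by_contra h2
          apply hv3
          rw [Finset.mem_biUnion]
          exact ⟨γ, hγ', Finset.mem_filter.2 ⟨Finset.mem_univ _, h2⟩⟩
        have h2 : γ.image (Sum.elim ρ (rext k v₀ (Fin.snoc (α := fun _ => V) x v))) =
            insert v (S γ) := by
          conv_lhs => rw [← Finset.insert_erase hjγ]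
          rw [Finset.image_insert, Sum.elim_inr, rext_snoc_eq k v₀ v x jj rfl, hS]
          congr 1
          refine Finset.image_congr ?_
          intro p hp
          rcases p with b | i
          · rfl
          · have hi : i.val < j := by
              have hp' := Finset.mem_erase.1 (Finset.mem_coe.1 hp)
              have h1 := hlt i hp'.2
              have h2 : i.val ≠ j := by
                intro h3
                apply hp'.1
                congr 1
                exact Fin.ext h3
              omega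
            simp only [Sum.elim_inr]
            exact rext_snoc_lt k v₀ v x i hi
        rw [h2]
        exact h1
      · have hlt' : ∀ i : Fin k, Sum.inr i ∈ γ → i.val < j := by
          intro i hi
          have h1 := hlt i hi
          have h2 : i.val ≠ j := by
            intro h3
            apply hjγ
            have : i = jj := Fin.ext h3
            rwa [← this]
          omega
        have h2 : γ.image (Sum.elim ρ (rext k v₀ (Fin.snoc (α := fun _ => V) x v))) =
            γ.image (Sum.elim ρ (rext k v₀ x)) := by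
          refine Finset.image_congr ?_
          intro p hp
          rcases p with b | i
          · rfl
          · simp only [Sum.elim_inr]
            exact rext_snoc_lt k v₀ v x i (hlt' i (Finset.mem_coe.1 hp))
        rw [h2]
        exact hxG γ hγ hlt'
  have hcount : (Finset.univ \ B).card ≤
      Nat.card {v : V // RQ Γ G ρ v₀ (j + 1) (Fin.snoc (α := fun _ => V) x v)} := by
    rw [Nat.card_eq_fintype_card, Fintype.card_subtype]
    refine Finset.card_le_card ?_
    intro v hv
    rw [Finset.mem_sdiff] at hv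
    exact Finset.mem_filter.2 ⟨Finset.mem_univ _, hgood v hv.2⟩
  have h14 : ((Finset.univ \ B).card : ℝ) = n - B.card := by
    rw [Finset.card_sdiff_of_subset (Finset.subset_univ _), Finset.card_univ,
      Nat.cast_sub (Finset.card_le_univ B)]
  have h15 : ((Finset.univ \ B).card : ℝ) ≤
      (Nat.card {v : V // RQ Γ G ρ v₀ (j + 1) (Fin.snoc (α := fun _ => V) x v)} : ℝ) := by
    exact_mod_cast hcount
  linarith

theorem rbu_card_le {α : Type*} [Finite α] (S : Finset α) (P : α → Prop) (h : ∀ x ∈ S, P x) :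
    S.card ≤ Nat.card {x // P x} := by
  have h1 := Nat.card_le_card_of_injective
    (fun x : S => (⟨x.1, h x.1 x.2⟩ : {x // P x})) (fun x y hxy => by
      simp only [Subtype.mk.injEq] at hxy
      exact Subtype.ext hxy)
  simpa using h1

theorem rbu_coinc {V : Type} [Fintype V] [DecidableEq V] (k s : ℕ) (i : Fin k) (j j' : Fin s)
    (h : j ≠ j') :
    (Finset.univ.filter (fun F : Fin k → Fin s → V => F i j = F i j')).card * Fintype.card V ≤
      Fintype.card V ^ (k * s) := by
  have h1 : Fintype.card (Fin k → Fin s → V) = Fintype.card V ^ (k * s) := by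
    rw [Fintype.card_fun, Fintype.card_fun, Fintype.card_fin, Fintype.card_fin, ← pow_mul,
      mul_comm s k]
  rw [← h1, ← Finset.card_univ (α := V), ← Finset.card_product, ← Finset.card_univ]
  refine Finset.card_le_card_of_injOn
    (fun p => Function.update p.1 i (Function.update (p.1 i) j p.2)) (fun _ _ => Finset.mem_univ _) ?_
  rintro ⟨F, v⟩ hF ⟨F', v'⟩ hF' hFF
  simp only [Finset.coe_product, Set.mem_prod, Finset.mem_coe, Finset.mem_filter,
    Finset.mem_univ, true_and, and_true] at hF hF'
  simp only at hFF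
  have h2 : ∀ i' j₂, Function.update F i (Function.update (F i) j v) i' j₂ =
      Function.update F' i (Function.update (F' i) j v') i' j₂ := fun i' j₂ => by rw [hFF]
  have hv : v = v' := by
    have := h2 i j
    simpa using this
  have h3 : ∀ i' j₂, (i' ≠ i ∨ j₂ ≠ j) → F i' j₂ = F' i' j₂ := by
    intro i' j₂ hor
    have h4 := h2 i' j₂
    by_cases hi : i' = i
    · subst hi
      have hj : j₂ ≠ j := by
        rcases hor with hor | hor
        · exact absurd rfl hor
        · exact hor
      simpa [hj] using h4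
    · simpa [hi] using h4
  have h5 : F = F' := by
    funext i' j₂
    by_cases hi : i' = i
    · by_cases hj : j₂ = j
      · subst hi
        subst hj
        rw [hF, hF']
        exact h3 _ _ (Or.inr h.symm)
      · exact h3 _ _ (Or.inr hj)
    · exact h3 _ _ (Or.inl hi)
  rw [h5, hv]

theorem rbu (r a k D s : ℕ) (hr : 1 ≤ r) (hs : 1 ≤ s) : ∃ (α : ℝ) (n₀ : ℕ), 0 < α ∧
    ∀ Γ : Finset (Finset (Fin a ⊕ Fin k)), (∀ γ ∈ Γ, γ.card = r ∧ ∃ j, Sum.inr j ∈ γ) →
    (∀ j : Fin k, (Γ.filter (fun γ => Sum.inr j ∈ γ)).card ≤ D) →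
    ∀ (V : Type) [Fintype V] [DecidableEq V], n₀ ≤ Fintype.card V →
    ∀ (G : Finset (Finset V)) (c : ℝ), Unif r G →
    (∀ S : Finset V, S.card = r - 1 → (1 - c) * (Fintype.card V : ℝ) ≤ (dg G S : ℝ)) →
    (D : ℝ) * c ≤ 1 / 4 → ∀ ρ : Fin a → V, Function.Injective ρ →
    α * (Fintype.card V : ℝ) ^ (k * s) ≤
      (Nat.card {F : Fin k → Fin s → V //
        (∀ i j i' j', F i j = F i' j' → i = i' ∧ j = j') ∧ (∀ i j x, F i j ≠ ρ x) ∧
        ∀ γ ∈ Γ, ∀ y : Fin k → Fin s,
          γ.image (Sum.elim ρ (fun i => F i (y i))) ∈ G} : ℝ) := by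
  classical
  set β : ℝ := ((1 / 2 : ℝ) ^ k) ^ (s ^ k) with hβ
  have hβ0 : 0 < β := by positivity
  refine ⟨β / 2, max (4 * (a + k)) (max ⌈2 * ((k : ℝ) * s * s) / β⌉₊ 1), by positivity, ?_⟩
  intro Γ hΓ hD V _ _ hn₀ G c hG hdeg hc ρ hρ
  set n : ℝ := (Fintype.card V : ℝ) with hn
  have hn1 : 4 * (a + k) ≤ Fintype.card V := (le_max_left _ _).trans hn₀
  have hn2 : 2 * ((k : ℝ) * s * s) / β ≤ n :=
    (Nat.le_ceil _).trans (by
      rw [hn]
      exact_mod_cast ((le_max_left _ _).trans (le_max_right _ _)).trans hn₀)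
  have hn3 : 1 ≤ Fintype.card V := ((le_max_right _ _).trans (le_max_right _ _)).trans hn₀
  have hn0 : 0 < n := by
    rw [hn]
    exact_mod_cast hn3
  have : Nonempty V := Fintype.card_pos_iff.1 hn3
  obtain ⟨v₀⟩ := (inferInstance : Nonempty V)
  set A : Finset (Fin k → V) := Finset.univ.filter (RQ Γ G ρ v₀ k) with hA
  have hAcard : (n / 2) ^ k ≤ (A.card : ℝ) := by
    have h1 := rbu_seq (n / 2) (by positivity) (RQ Γ G ρ v₀) (fun x => ?_) k
      (fun j hj x hx => rbu_step hr Γ hΓ hD G c hG hdeg hc ρ hρ v₀ hn1 j hj x hx)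
    · rw [Nat.card_eq_fintype_card, Fintype.card_subtype] at h1
      exact h1
    · refine ⟨fun i => i.elim0, fun i => i.elim0, fun γ hγ hlt => ?_⟩
      obtain ⟨j, hj⟩ := (hΓ γ hγ).2
      exact absurd (hlt j hj) (Nat.not_lt_zero _)
  have hblow := blowup k s V A
  rw [← hn] at hblow
  have h2 : β * n ^ (k * s) ≤ ((A.card : ℝ) / n ^ k) ^ (s ^ k) * n ^ (k * s) := by
    apply mul_le_mul_of_nonneg_right _ (by positivity)
    rw [hβ]
    apply pow_le_pow_left₀ (by positivity)
    rw [le_div_iff₀ (by positivity), ← mul_pow]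
    refine le_trans (le_of_eq ?_) hAcard
    congr 1
    ring
  have h3 := h2.trans hblow
  rw [Nat.card_eq_fintype_card, Fintype.card_subtype] at h3
  -- coincidences
  set C : Finset (Fin k → Fin s → V) :=
    ((Finset.univ : Finset (Fin k × Fin s × Fin s)).filter (fun p => p.2.1 ≠ p.2.2)).biUnion
      (fun p => Finset.univ.filter (fun F : Fin k → Fin s → V => F p.1 p.2.1 = F p.1 p.2.2))
    with hC
  have hCcard : (C.card : ℝ) ≤ β / 2 * n ^ (k * s) := by
    have h4 : C.card * Fintype.card V ≤ (k * s * s) * Fintype.card V ^ (k * s) := by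
      calc C.card * Fintype.card V
          ≤ (∑ p ∈ (Finset.univ : Finset (Fin k × Fin s × Fin s)).filter (fun p => p.2.1 ≠ p.2.2),
            (Finset.univ.filter (fun F : Fin k → Fin s → V => F p.1 p.2.1 = F p.1 p.2.2)).card) *
              Fintype.card V := Nat.mul_le_mul_right _ Finset.card_biUnion_le
        _ = ∑ p ∈ (Finset.univ : Finset (Fin k × Fin s × Fin s)).filter (fun p => p.2.1 ≠ p.2.2),
            (Finset.univ.filter (fun F : Fin k → Fin s → V => F p.1 p.2.1 = F p.1 p.2.2)).card *
              Fintype.card V := Finset.sum_mul _ _ _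
        _ ≤ ∑ p ∈ (Finset.univ : Finset (Fin k × Fin s × Fin s)).filter (fun p => p.2.1 ≠ p.2.2),
            Fintype.card V ^ (k * s) := by
            refine Finset.sum_le_sum fun p hp => ?_
            rw [Finset.mem_filter] at hp
            exact rbu_coinc k s p.1 p.2.1 p.2.2 hp.2
        _ ≤ ∑ p : Fin k × Fin s × Fin s, Fintype.card V ^ (k * s) :=
            Finset.sum_le_sum_of_subset (Finset.filter_subset _ _)
        _ = (k * s * s) * Fintype.card V ^ (k * s) := by
            rw [Finset.sum_const, Finset.card_univ, Fintype.card_prod, Fintype.card_prod]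
            simp only [Fintype.card_fin, smul_eq_mul]
            ring
    have h5 : (C.card : ℝ) * n ≤ ((k : ℝ) * s * s) * n ^ (k * s) := by
      rw [hn]
      exact_mod_cast h4
    have h6 : (k : ℝ) * s * s ≤ β / 2 * n := by
      rw [div_le_iff₀ hβ0] at hn2
      linarith
    have h7 : (C.card : ℝ) * n ≤ (β / 2 * n ^ (k * s)) * n := by
      calc (C.card : ℝ) * n ≤ ((k : ℝ) * s * s) * n ^ (k * s) := h5
        _ ≤ (β / 2 * n) * n ^ (k * s) := by gcongr
        _ = _ := by ring
    exact le_of_mul_le_mul_right h7 hn0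
  have hsub : ∀ F ∈ (Finset.univ.filter (fun F : Fin k → Fin s → V =>
      ∀ y : Fin k → Fin s, (fun i => F i (y i)) ∈ A)) \ C,
        (∀ i j i' j', F i j = F i' j' → i = i' ∧ j = j') ∧ (∀ i j x, F i j ≠ ρ x) ∧
        ∀ γ ∈ Γ, ∀ y : Fin k → Fin s, γ.image (Sum.elim ρ (fun i => F i (y i))) ∈ G := by
    intro F hF'
    obtain ⟨hF, hFC⟩ := Finset.mem_sdiff.1 hF'
    rw [Finset.mem_filter] at hF
    have hF' : ∀ y : Fin k → Fin s, RQ Γ G ρ v₀ k (fun i => F i (y i)) :=
      fun y => (Finset.mem_filter.1 (hF.2 y)).2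
    refine ⟨?_, ?_, ?_⟩
    · intro i j i' j' hij
      have hi : i = i' := by
        by_contra hne
        have h8 := (hF' (fun l => if l = i then j else j')).1
        have h9 : (fun l => F l ((fun l => if l = i then j else j') l)) i =
            (fun l => F l ((fun l => if l = i then j else j') l)) i' := by
          have hne' : ¬ (i' = i) := fun h => hne h.symm
          simp only [if_true, hne', if_false]
          exact hij
        exact hne (h8 h9)
      refine ⟨hi, ?_⟩
      by_contra hj
      apply hFC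
      rw [hC, Finset.mem_biUnion]
      refine ⟨(i, j, j'), Finset.mem_filter.2 ⟨Finset.mem_univ _, hj⟩,
        Finset.mem_filter.2 ⟨Finset.mem_univ _, ?_⟩⟩
      rw [hij, hi]
    · intro i j x
      exact (hF' (fun _ => j)).2.1 i x
    · intro γ hγ y
      have h8 := (hF' y).2.2 γ hγ (fun i _ => i.isLt)
      have h9 : rext k v₀ (fun i => F i (y i)) = fun i => F i (y i) := by
        funext i
        simp [rext]
      rw [h9] at h8
      exact h8
  have h10 := rbu_card_le _ _ hsub
  have h11 := Finset.le_card_sdiff C (Finset.univ.filter (fun F : Fin k → Fin s → V =>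
      ∀ y : Fin k → Fin s, (fun i => F i (y i)) ∈ A))
  rw [tsub_le_iff_right] at h11
  have h12 : ((Finset.univ.filter (fun F : Fin k → Fin s → V =>
      ∀ y : Fin k → Fin s, (fun i => F i (y i)) ∈ A)).card : ℝ) ≤
      (Nat.card {F : Fin k → Fin s → V //
        (∀ i j i' j', F i j = F i' j' → i = i' ∧ j = j') ∧ (∀ i j x, F i j ≠ ρ x) ∧
        ∀ γ ∈ Γ, ∀ y : Fin k → Fin s, γ.image (Sum.elim ρ (fun i => F i (y i))) ∈ G} : ℝ) +
      (C.card : ℝ) := by
    exact_mod_cast h11.trans (Nat.add_le_add_right h10 _)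
  have h13 : β / 2 * n ^ (k * s) = β * n ^ (k * s) - β / 2 * n ^ (k * s) := by ring
  linarith

end Pool.Agent.Des
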