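import Pool.Agent.Lib_helper96.Des.Mds
import Pool.Agent.Lib_helper96.Des.Crs
import Pool.Agent.Lib_helper88.HCR.D2.Rbu

/-!
# Block BOOST: boosters

Let `s, C₁, C₂` be as in `mds` and let `τ : Fin q × Fin (s+1) → V` be injective with
`τ (i, 0) = v i`, `Q = {v i}`, and all other values new.  `E = crs r τ \ Q.powersetCard r`
(`Q = trv τ 0`).  `E` decomposes through `C₁ \ {0}`; for `f = {v i : i ∈ I}` the stub is
`st f = trv τ F_I` with `F_I ∈ C₂` vanishing exactly on `I`; `stub r (st f) f ⊆ E`, stubs of different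
`f` belong to different members of `C₂`, and the rest is
`crs r τ \ ⋃_I (trv τ F_I).powersetCard r`, decomposed by `C₂ \ {F_I}`.
Placement: `rbu` with `a = q`, `k = q`, `s` copies for the values `1..s` of the second coordinate
and `Γ` = all crossing `r`-sets (index set `I`, for each `i ∈ I` the root `i` or the new vertex
`i`, not all roots); each new vertex is in at most `2^(r-1) (q-1).choose (r-1) ≤ (2q)^(r-1)` edges
and `(2q)^(r-1) * cg r / q^(r-1) ≤ 1/4`.
-/

set_option autoImplicit false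

namespace Pool.Agent.Des

open Finset

/-- flattening a family of placements -/
def boostFlat {V : Type} {k s : ℕ} (F : Fin k → Fin s → V) : Fin (k * s) → V :=
  fun t => F (finProdFinEquiv.symm t).1 (finProdFinEquiv.symm t).2

theorem boostFlat_injective {V : Type} {k s : ℕ} :
    Function.Injective (boostFlat : (Fin k → Fin s → V) → (Fin (k * s) → V)) := by
  intro F F' h
  funext i j
  have := congrFun h (finProdFinEquiv (i, j))
  simpa [boostFlat] using this

theorem boostFlat_mem {V : Type} [DecidableEq V] {k s : ℕ} (F : Fin k → Fin s → V) (i : Fin k)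
    (j : Fin s) : F i j ∈ Finset.univ.image (boostFlat F) := by
  rw [Finset.mem_image]
  exact ⟨finProdFinEquiv (i, j), Finset.mem_univ _, by simp [boostFlat]⟩

theorem boost_cnt {V : Type} [Fintype V] {k s : ℕ} (P : (Fin (k * s) → V) → Prop)
    (R : (Fin k → Fin s → V) → Prop) (h : ∀ F, R F → P (boostFlat F)) :
    (Nat.card {F : Fin k → Fin s → V // R F} : ℝ) ≤ cnt P := by
  unfold cnt
  rw [Nat.cast_le]
  refine Nat.card_le_card_of_injective (fun F => ⟨boostFlat F.1, h F.1 F.2⟩) ?_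
  intro F F' hF
  exact Subtype.ext (boostFlat_injective (Subtype.mk.inj hF))

/-- number of `r`-sets containing a given element -/
theorem boost_deg {W : Type} [Fintype W] [DecidableEq W] (r : ℕ) (hr : 1 ≤ r)
    (Γ : Finset (Finset W)) (hΓ : ∀ γ ∈ Γ, γ.card = r) (w : W) :
    (Γ.filter (fun γ => w ∈ γ)).card ≤ (Fintype.card W) ^ (r - 1) := by
  have h1 : (Γ.filter (fun γ => w ∈ γ)).card ≤
      ((Finset.univ : Finset W).powersetCard (r - 1)).card := by
    refine Finset.card_le_card_of_injOn (fun γ => γ.erase w) ?_ ?_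
    · intro γ hγ
      have hγ' := Finset.mem_filter.mp (Finset.mem_coe.mp hγ)
      rw [Finset.mem_coe, Finset.mem_powersetCard]
      exact ⟨Finset.subset_univ _, by rw [Finset.card_erase_of_mem hγ'.2, hΓ γ hγ'.1]⟩
    · intro γ hγ γ' hγ' he
      have h1 := Finset.mem_filter.mp (Finset.mem_coe.mp hγ)
      have h2 := Finset.mem_filter.mp (Finset.mem_coe.mp hγ')
      simp only at he
      rw [← Finset.insert_erase h1.2, ← Finset.insert_erase h2.2, he]
  refine h1.trans ?_
  rw [Finset.card_powersetCard, Finset.card_univ]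
  exact Nat.choose_le_pow _ _

/-- the map on `Fin q × Fin (s+1)` given by roots and new vertices -/
def boostTau {V : Type} {q s : ℕ} (ρ : Fin q → V) (F : Fin q → Fin s → V) :
    Fin q × Fin (s + 1) → V :=
  fun p => Fin.cases (ρ p.1) (fun j => F p.1 j) p.2

theorem boostTau_zero {V : Type} {q s : ℕ} (ρ : Fin q → V) (F : Fin q → Fin s → V) (i : Fin q) :
    boostTau ρ F (i, 0) = ρ i := rfl

theorem boostTau_succ {V : Type} {q s : ℕ} (ρ : Fin q → V) (F : Fin q → Fin s → V) (i : Fin q)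
    (j : Fin s) : boostTau ρ F (i, j.succ) = F i j := rfl

theorem boostTau_injective {V : Type} {q s : ℕ} (ρ : Fin q → V) (hρ : Function.Injective ρ)
    (F : Fin q → Fin s → V) (h1 : ∀ i j i' j', F i j = F i' j' → i = i' ∧ j = j')
    (h2 : ∀ i j x, F i j ≠ ρ x) : Function.Injective (boostTau ρ F) := by
  rintro ⟨i, x⟩ ⟨i', x'⟩ h
  induction x using Fin.cases with
  | zero =>
    induction x' using Fin.cases with
    | zero =>
      rw [boostTau_zero, boostTau_zero] at h
      rw [hρ h]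
    | succ j' =>
      rw [boostTau_zero, boostTau_succ] at h
      exact absurd h.symm (h2 _ _ _)
  | succ j =>
    induction x' using Fin.cases with
    | zero =>
      rw [boostTau_zero, boostTau_succ] at h
      exact absurd h (h2 _ _ _)
    | succ j' =>
      rw [boostTau_succ, boostTau_succ] at h
      obtain ⟨a, b⟩ := h1 _ _ _ _ h
      rw [a, b]

/-- the combinatorial content: the booster made from an injective `τ` -/
theorem boost_struct {V : Type} [DecidableEq V] {q r s : ℕ} (hrq : r < q)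
    (C₁ C₂ : Finset (Fin q → Fin (s + 1)))
    (hC₁ : IsMDS r C₁) (hC₂ : IsMDS r C₂) (h0 : (fun _ => 0) ∈ C₁)
    (hv : ∀ I : Finset (Fin q), I.card = r → ∃ F ∈ C₂, ∀ i, F i = 0 ↔ i ∈ I)
    (τ : Fin q × Fin (s + 1) → V) (hτ : Function.Injective τ) (N : Finset V)
    (hN : ∀ i x, x ≠ 0 → τ (i, x) ∈ N) :
    ∃ st : Finset V → Finset V, IsBoost q r (trv τ (fun _ => 0)) N
      (crs r τ \ (trv τ (fun _ => 0)).powersetCard r) st := by
  classical
  choose! Fv hFv using hv
  have hQ : trv τ (fun _ => 0) = Finset.univ.image (fun i => τ (i, 0)) := rfl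
  -- index set of `f`
  let ix : Finset V → Finset (Fin q) := fun f => Finset.univ.filter (fun i => τ (i, 0) ∈ f)
  have hix : ∀ f ∈ (trv τ (fun _ => 0)).powersetCard r, (ix f).image (fun i => τ (i, 0)) = f ∧
      (ix f).card = r := by
    intro f hf
    rw [Finset.mem_powersetCard] at hf
    have himg : (ix f).image (fun i => τ (i, 0)) = f := by
      ext v
      rw [Finset.mem_image]
      constructor
      · rintro ⟨i, hi, rfl⟩
        exact (Finset.mem_filter.mp hi).2
      · intro hv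
        have := hf.1 hv
        rw [hQ, Finset.mem_image] at this
        obtain ⟨i, _, rfl⟩ := this
        exact ⟨i, Finset.mem_filter.mpr ⟨Finset.mem_univ _, hv⟩, rfl⟩
    refine ⟨himg, ?_⟩
    rw [← Finset.card_image_of_injective _ (crs_inj_aux τ hτ (fun _ => 0)), himg, hf.2]
  have hinter : ∀ f ∈ (trv τ (fun _ => 0)).powersetCard r,
      trv τ (Fv (ix f)) ∩ trv τ (fun _ => 0) = f := by
    intro f hf
    rw [Finset.inter_comm, trv_inter τ hτ]
    conv_rhs => rw [← (hix f hf).1]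
    congr 1
    ext i
    rw [Finset.mem_filter]
    constructor
    · rintro ⟨_, h⟩
      exact ((hFv _ (hix f hf).2).2 i).mp h.symm
    · intro h
      exact ⟨Finset.mem_univ _, (((hFv _ (hix f hf).2).2 i).mpr h).symm⟩
  have hfst : ∀ f ∈ (trv τ (fun _ => 0)).powersetCard r, f ⊆ trv τ (Fv (ix f)) := by
    intro f hf
    conv_lhs => rw [← hinter f hf]
    exact Finset.inter_subset_left
  have hne : ∀ f ∈ (trv τ (fun _ => 0)).powersetCard r,
      ∀ f' ∈ (trv τ (fun _ => 0)).powersetCard r, f ≠ f' → Fv (ix f) ≠ Fv (ix f') := by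
    intro f hf f' hf' hne he
    apply hne
    rw [← hinter f hf, ← hinter f' hf', he]
  refine ⟨fun f => trv τ (Fv (ix f)), ?_, ?_, ?_, ?_, ?_, ?_⟩
  · intro γ hγ
    rw [Finset.mem_sdiff] at hγ
    have hc := crs_card τ hτ γ hγ.1
    refine ⟨hc, ?_, fun h => hγ.2 (Finset.mem_powersetCard.mpr ⟨h, hc⟩)⟩
    obtain ⟨I, x, _, rfl⟩ := (mem_crs τ γ).mp hγ.1
    intro v hv
    rw [Finset.mem_image] at hv
    obtain ⟨i, _, rfl⟩ := hv
    rw [Finset.mem_union]
    by_cases h : x i = 0
    · left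
      rw [h, hQ, Finset.mem_image]
      exact ⟨i, Finset.mem_univ _, rfl⟩
    · right
      exact hN i (x i) h
  · have := crs_decomp τ hτ C₁ hC₁ {fun _ => 0} (Finset.singleton_subset_iff.mpr h0)
    rwa [Finset.singleton_biUnion] at this
  · intro f hf
    refine ⟨trv_card τ hτ _, hfst f hf, ?_⟩
    intro v hv
    rw [Finset.mem_sdiff] at hv
    obtain ⟨hv1, hv2⟩ := hv
    have hv1' := hv1
    unfold trv at hv1'
    rw [Finset.mem_image] at hv1'
    obtain ⟨i, _, rfl⟩ := hv1'
    apply hN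
    intro h
    apply hv2
    have hmem : τ (i, Fv (ix f) i) ∈ trv τ (Fv (ix f)) ∩ trv τ (fun _ => 0) := by
      rw [Finset.mem_inter]
      refine ⟨hv1, ?_⟩
      rw [h, hQ, Finset.mem_image]
      exact ⟨i, Finset.mem_univ _, rfl⟩
    rwa [hinter f hf] at hmem
  · intro f hf γ hγ
    unfold stub at hγ
    rw [Finset.mem_erase] at hγ
    rw [Finset.mem_sdiff]
    refine ⟨trv_sub_crs τ hτ _ hγ.2, fun h => hγ.1 ?_⟩
    rw [Finset.mem_powersetCard] at h
    have h2 := (Finset.mem_powersetCard.mp hγ.2)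
    have hsub : γ ⊆ f := by
      rw [← hinter f hf]
      exact Finset.subset_inter h2.1 h.1
    exact Finset.eq_of_subset_of_card_le hsub (by rw [h2.2, (Finset.mem_powersetCard.mp hf).2])
  · intro f hf f' hf' hff
    have := trv_disj τ hτ C₂ hC₂ (Fv (ix f)) (Fv (ix f')) (hFv _ (hix f hf).2).1
      (hFv _ (hix f' hf').2).1 (hne f hf f' hf' hff)
    exact Finset.disjoint_of_subset_left (Finset.erase_subset _ _)
      (Finset.disjoint_of_subset_right (Finset.erase_subset _ _) this)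
  · have h := crs_decomp τ hτ C₂ hC₂ (((trv τ (fun _ => 0)).powersetCard r).image
      (fun f => Fv (ix f))) (by
        intro F hF
        rw [Finset.mem_image] at hF
        obtain ⟨f, hf, rfl⟩ := hF
        exact (hFv _ (hix f hf).2).1)
    convert h using 1
    ext γ
    rw [Finset.mem_sdiff, Finset.mem_sdiff, Finset.mem_sdiff, Finset.mem_biUnion,
      Finset.mem_biUnion]
    constructor
    · rintro ⟨⟨h1, h2⟩, h3⟩
      refine ⟨h1, ?_⟩
      rintro ⟨F, hF, hγ⟩
      rw [Finset.mem_image] at hF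
      obtain ⟨f, hf, rfl⟩ := hF
      apply h3
      refine ⟨f, hf, ?_⟩
      unfold stub
      rw [Finset.mem_erase]
      exact ⟨fun h => h2 (h ▸ hf), hγ⟩
    · rintro ⟨h1, h2⟩
      refine ⟨⟨h1, ?_⟩, ?_⟩
      · intro h3
        exact h2 ⟨Fv (ix γ), Finset.mem_image.mpr ⟨γ, h3, rfl⟩,
          Finset.mem_powersetCard.mpr ⟨hfst γ h3, (Finset.mem_powersetCard.mp h3).2⟩⟩
      · rintro ⟨f, hf, hγ⟩
        exact h2 ⟨Fv (ix f), Finset.mem_image.mpr ⟨f, hf, rfl⟩, Finset.erase_subset _ _ hγ⟩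

theorem boost_const (q r : ℕ) (hr : 1 ≤ r) (hq : r < q) :
    (((q + q) ^ (r - 1) : ℕ) : ℝ) * (cg r / (q : ℝ) ^ (r - 1)) ≤ 1 / 4 := by
  have hq0 : (0 : ℝ) < q := by exact_mod_cast (by omega : 0 < q)
  unfold cg
  push_cast
  rw [show (q : ℝ) + q = 2 * q by ring, mul_pow]
  have h3 : (3 : ℝ) ^ r = 3 * 3 ^ (r - 1) := by
    rw [← pow_succ']; congr 1; omega
  have h23 : (2 : ℝ) ^ (r - 1) ≤ 3 ^ (r - 1) := pow_le_pow_left₀ (by norm_num) (by norm_num) _
  have hq1 : (0 : ℝ) < (q : ℝ) ^ (r - 1) := pow_pos hq0 _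
  have h31 : (0 : ℝ) < (3 : ℝ) ^ (r - 1) := by positivity
  rw [h3]
  have : (2 : ℝ) ^ (r - 1) * (q : ℝ) ^ (r - 1) * (1 / (100 * (3 * 3 ^ (r - 1))) / (q : ℝ) ^ (r - 1))
      = (2 : ℝ) ^ (r - 1) / (300 * 3 ^ (r - 1)) := by
    field_simp
    ring
  rw [this, div_le_iff₀ (by positivity)]
  nlinarith

theorem boost_rich (q r : ℕ) (hr : 1 ≤ r) (hq : r < q) : ∃ (v : ℕ) (α : ℝ) (n₀ : ℕ), 0 < α ∧
    ∀ (V : Type) [Fintype V] [DecidableEq V], n₀ ≤ Fintype.card V →
    ∀ G : Finset (Finset V), Dense q r (cg r) G → ∀ Q : Finset V, Q.card = q →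
    α * (Fintype.card V : ℝ) ^ v ≤ cnt (fun τ : Fin v → V =>
      ∃ (E : Finset (Finset V)) (st : Finset V → Finset V),
        E ⊆ G ∧ IsBoost q r Q (Finset.univ.image τ) E st) := by
  classical
  obtain ⟨s, C₁, C₂, hC₁, hC₂, h0, hv⟩ := mds q r hr hq
  have hs : 1 ≤ s := by
    by_contra hs
    have hs0 : s = 0 := by omega
    subst hs0
    obtain ⟨I, _, hI⟩ := Finset.exists_subset_card_eq
      (show r ≤ (Finset.univ : Finset (Fin q)).card by rw [Finset.card_univ, Fintype.card_fin]; omega)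
    obtain ⟨F, _, hF⟩ := hv I hI
    have : I = Finset.univ := by
      ext i
      simp only [Finset.mem_univ, iff_true]
      exact (hF i).mp (Fin.ext (by omega))
    rw [this, Finset.card_univ, Fintype.card_fin] at hI
    omega
  obtain ⟨α, n₀, hα, H⟩ := rbu r q q ((q + q) ^ (r - 1)) s hr hs
  refine ⟨q * s, α, n₀, hα, ?_⟩
  intro V _ _ hn G hG Q hQ
  -- enumerate `Q`
  let e : Fin q ≃ Q := (Q.equivFinOfCardEq hQ).symm
  let ρ : Fin q → V := fun i => (e i : V)
  have hρ : Function.Injective ρ := fun i j h => e.injective (Subtype.ext h)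
  have hρQ : Finset.univ.image ρ = Q := by
    ext v
    rw [Finset.mem_image]
    constructor
    · rintro ⟨i, _, rfl⟩
      exact (e i).2
    · intro hv
      exact ⟨e.symm ⟨v, hv⟩, Finset.mem_univ _, by simp [ρ]⟩
  let Γ : Finset (Finset (Fin q ⊕ Fin q)) :=
    Finset.univ.filter (fun γ => γ.card = r ∧ ∃ j, Sum.inr j ∈ γ)
  have hΓ : ∀ γ ∈ Γ, γ.card = r ∧ ∃ j, Sum.inr j ∈ γ := fun γ hγ => (Finset.mem_filter.mp hγ).2
  have hdeg : ∀ j : Fin q, (Γ.filter (fun γ => Sum.inr j ∈ γ)).card ≤ (q + q) ^ (r - 1) := by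
    intro j
    have := boost_deg r hr Γ (fun γ hγ => (hΓ γ hγ).1) (Sum.inr j)
    rwa [Fintype.card_sum, Fintype.card_fin] at this
  refine (H Γ hΓ hdeg V hn G (cg r / (q : ℝ) ^ (r - 1)) hG.1 hG.2 (boost_const q r hr hq) ρ
    hρ).trans ?_
  refine boost_cnt _ _ ?_
  rintro F ⟨hF1, hF2, hF3⟩
  have hτ := boostTau_injective ρ hρ F hF1 hF2
  have hQt : trv (boostTau ρ F) (fun _ => 0) = Q := hρQ
  obtain ⟨st, hst⟩ := boost_struct hq C₁ C₂ hC₁ hC₂ h0 hv (boostTau ρ F) hτ
    (Finset.univ.image (boostFlat F)) (by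
      intro i x hx
      obtain ⟨j, rfl⟩ := Fin.exists_succ_eq.mpr hx
      rw [boostTau_succ]
      exact boostFlat_mem F i j)
  rw [hQt] at hst
  refine ⟨_, st, ?_, hst⟩
  intro γ hγ
  rw [Finset.mem_sdiff] at hγ
  obtain ⟨I, x, hI, rfl⟩ := (mem_crs _ _).mp hγ.1
  have hcard := crs_card _ hτ _ hγ.1
  have hex : ∃ i ∈ I, x i ≠ 0 := by
    by_contra hcon
    push Not at hcon
    apply hγ.2
    rw [Finset.mem_powersetCard]
    refine ⟨?_, hcard⟩
    intro v hv
    rw [Finset.mem_image] at hv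
    obtain ⟨i, hi, rfl⟩ := hv
    rw [hcon i hi, boostTau_zero, ← hρQ]
    exact Finset.mem_image_of_mem _ (Finset.mem_univ _)
  obtain ⟨i₀, hi₀, hx₀⟩ := hex
  let y : Fin q → Fin s := fun i => if h : x i = 0 then ⟨0, hs⟩ else (x i).pred h
  let lab : Fin q → Fin q ⊕ Fin q := fun i => if x i = 0 then Sum.inl i else Sum.inr i
  have hlab : ∀ i, Sum.elim ρ (fun i => F i (y i)) (lab i) = boostTau ρ F (i, x i) := by
    intro i
    by_cases h : x i = 0
    · simp only [lab, if_pos h, Sum.elim_inl, h, boostTau_zero]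
    · simp only [lab, if_neg h, Sum.elim_inr, y, dif_neg h]
      conv_rhs => rw [← Fin.succ_pred (x i) h]
      rfl
  have hlabinj : Function.Injective lab := by
    intro i j hij
    by_cases hi : x i = 0 <;> by_cases hj : x j = 0 <;> simp [lab, hi, hj] at hij <;> exact hij
  have := hF3 (I.image lab) (Finset.mem_filter.mpr ⟨Finset.mem_univ _, by
    rw [Finset.card_image_of_injective _ hlabinj, hI], i₀, by
    rw [Finset.mem_image]
    exact ⟨i₀, hi₀, by simp [lab, hx₀]⟩⟩) y
  rw [Finset.image_image] at this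
  convert this using 2
  funext i
  exact (hlab i).symm

end Pool.Agent.Des
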