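import Pool.Agent.Lib_helper96.Des.Mds
import Pool.Agent.Lib_helper96.Des.Crs
import Pool.Agent.Lib_helper88.HCR.D2.Rbu
import Pool.Agent.Lib_helper88.HCR.D2.Boost

/-!
# Block DGAD: transformers between two stubs at the same `r`-set

`Y₁ ∩ Y₂ = f`.  Number the parts so that `I` = first `r` indices belong to `f`.  Let `F ∈ C₂` vanish
exactly on `I`.  Place new vertices `m j` (`j ∉ I`) and two injective maps `τ₁, τ₂` with
`τ_h (i, 0) = f_i` (`i ∈ I`), `τ_h (j, 0) = (Y_h)_j`, `τ_h (j, F j) = m j` (`j ∉ I`), all other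
values new and distinct.  So `trv τ_h 0 = Y_h` and `trv τ₁ F = trv τ₂ F = M = f ∪ {m j}`.
`E = (crs r τ₁ \ Y₁.powersetCard r) ∪ (crs r τ₂ \ Y₂.powersetCard r)`; the two sets intersect in
`M.powersetCard r \ {f}`.  Then
`E ∪ stub Y₁ f = (crs τ₁ \ M.powersetCard r) ⊔ (crs τ₂ \ Y₂.powersetCard r)` and symmetrically,
all decomposable by `crs_decomp` (`C₂ \ {F}` and `C₁ \ {0}`).
Placement: `rbu` with roots `f, Y₁ \ f, Y₂ \ f` (`a = 2 q - r`), new classes `m j`, `x_i`, `x'_i`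
(`k = (q - r) + 2 q`), each in at most `2 * 3^(r-1) * q^(r-1)` edges of `Γ`
(`2 * 3^(r-1) * cg r ≤ 1/4`).
-/

set_option autoImplicit false

namespace Pool.Agent.Des

open Finset

theorem dgad_struct {V : Type} [DecidableEq V] {q r s : ℕ}
    (C₁ C₂ : Finset (Fin q → Fin (s + 1)))
    (hC₁ : IsMDS r C₁) (hC₂ : IsMDS r C₂) (h0 : (fun _ => 0) ∈ C₁)
    (Fz : Fin q → Fin (s + 1)) (hFz : Fz ∈ C₂)
    (τ₁ τ₂ : Fin q × Fin (s + 1) → V) (hτ₁ : Function.Injective τ₁) (hτ₂ : Function.Injective τ₂)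
    (f : Finset V) (hf : f.card = r) (hM : trv τ₁ Fz = trv τ₂ Fz)
    (hi₁ : trv τ₁ (fun _ => 0) ∩ trv τ₁ Fz = f) (hi₂ : trv τ₂ (fun _ => 0) ∩ trv τ₂ Fz = f)
    (hR : ∀ p p', τ₁ p = τ₂ p' → τ₁ p ∈ trv τ₁ Fz) :
    Decomp q r ((crs r τ₁ \ (trv τ₁ (fun _ => 0)).powersetCard r) ∪
      (crs r τ₂ \ (trv τ₂ (fun _ => 0)).powersetCard r) ∪ stub r (trv τ₁ (fun _ => 0)) f) := by
  have hd₁ : Decomp q r (crs r τ₁ \ (trv τ₁ Fz).powersetCard r) := by
    have := crs_decomp τ₁ hτ₁ C₂ hC₂ {Fz} (Finset.singleton_subset_iff.mpr hFz)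
    rwa [Finset.singleton_biUnion] at this
  have hd₂ : Decomp q r (crs r τ₂ \ (trv τ₂ (fun _ => 0)).powersetCard r) := by
    have := crs_decomp τ₂ hτ₂ C₁ hC₁ {fun _ => 0} (Finset.singleton_subset_iff.mpr h0)
    rwa [Finset.singleton_biUnion] at this
  have hdisj : Disjoint (crs r τ₁ \ (trv τ₁ Fz).powersetCard r)
      (crs r τ₂ \ (trv τ₂ (fun _ => 0)).powersetCard r) := by
    rw [Finset.disjoint_left]
    intro γ h1 h2
    rw [Finset.mem_sdiff] at h1 h2
    apply h1.2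
    rw [Finset.mem_powersetCard]
    refine ⟨?_, crs_card τ₁ hτ₁ γ h1.1⟩
    intro v hv
    obtain ⟨I, x, _, hIx⟩ := (mem_crs τ₁ γ).mp h1.1
    obtain ⟨J, y, _, hJy⟩ := (mem_crs τ₂ γ).mp h2.1
    have hv1 := hv
    have hv2 := hv
    rw [hIx, Finset.mem_image] at hv1
    rw [hJy, Finset.mem_image] at hv2
    obtain ⟨i, _, rfl⟩ := hv1
    obtain ⟨j, _, hj⟩ := hv2
    exact hR (i, x i) (j, y j) hj.symm
  have hfY₁ : f ⊆ trv τ₁ (fun _ => 0) := by
    conv_lhs => rw [← hi₁]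
    exact Finset.inter_subset_left
  have hfY₂ : f ⊆ trv τ₂ (fun _ => 0) := by
    conv_lhs => rw [← hi₂]
    exact Finset.inter_subset_left
  have hfM : f ⊆ trv τ₁ Fz := by
    conv_lhs => rw [← hi₁]
    exact Finset.inter_subset_right
  convert hd₁.union hd₂ hdisj using 1
  ext γ
  simp only [Finset.mem_union, Finset.mem_sdiff, stub, Finset.mem_erase]
  constructor
  · rintro ((⟨h1, h2⟩ | ⟨h1, h2⟩) | ⟨h1, h2⟩)
    · by_cases h3 : γ ∈ (trv τ₁ Fz).powersetCard r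
      · right
        rw [hM] at h3
        refine ⟨trv_sub_crs τ₂ hτ₂ _ h3, fun h4 => h2 ?_⟩
        have hsub : γ ⊆ f := by
          rw [← hi₂]
          exact Finset.subset_inter (Finset.mem_powersetCard.mp h4).1
            (Finset.mem_powersetCard.mp h3).1
        have : γ = f := Finset.eq_of_subset_of_card_le hsub
          (by rw [hf, (Finset.mem_powersetCard.mp h3).2])
        rw [this, Finset.mem_powersetCard]
        exact ⟨hfY₁, hf⟩
      · left
        exact ⟨h1, h3⟩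
    · right
      exact ⟨h1, h2⟩
    · by_cases h3 : γ ∈ (trv τ₁ Fz).powersetCard r
      · exfalso
        apply h1
        have hsub : γ ⊆ f := by
          rw [← hi₁]
          exact Finset.subset_inter (Finset.mem_powersetCard.mp h2).1
            (Finset.mem_powersetCard.mp h3).1
        exact Finset.eq_of_subset_of_card_le hsub
          (by rw [hf, (Finset.mem_powersetCard.mp h3).2])
      · left
        exact ⟨trv_sub_crs τ₁ hτ₁ _ h2, h3⟩
  · rintro (⟨h1, h2⟩ | ⟨h1, h2⟩)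
    · by_cases h3 : γ ∈ (trv τ₁ (fun _ => 0)).powersetCard r
      · right
        refine ⟨fun h4 => h2 ?_, h3⟩
        rw [h4, Finset.mem_powersetCard]
        exact ⟨hfM, hf⟩
      · left; left
        exact ⟨h1, h3⟩
    · left; right
      exact ⟨h1, h2⟩

/-- class of new vertices -/
def dgCls {q : ℕ} (g : Fin 3) (i : Fin q) : Fin (3 * q) := finProdFinEquiv (g, i)

theorem dgCls_inj {q : ℕ} {g g' : Fin 3} {i i' : Fin q} (h : dgCls g i = dgCls g' i') :
    g = g' ∧ i = i' := by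
  have := finProdFinEquiv.injective h
  exact Prod.mk.inj this

/-- new vertices of side `g` -/
def dgF {V : Type} {q s : ℕ} (hs : 0 < s) (F : Fin (3 * q) → Fin s → V) (Fz : Fin q → Fin (s + 1))
    (g : Fin 3) : Fin q → Fin s → V :=
  fun j c => if Fz j = c.succ then F (dgCls 0 j) ⟨0, hs⟩ else F (dgCls g j) c

theorem dgF_inj {V : Type} {q s : ℕ} (hs : 0 < s) (F : Fin (3 * q) → Fin s → V)
    (Fz : Fin q → Fin (s + 1)) (g : Fin 3) (hg : g ≠ 0)
    (h1 : ∀ i j i' j', F i j = F i' j' → i = i' ∧ j = j') :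
    ∀ i j i' j', dgF hs F Fz g i j = dgF hs F Fz g i' j' → i = i' ∧ j = j' := by
  intro i j i' j' h
  unfold dgF at h
  split_ifs at h with h2 h3 h3
  · have := (dgCls_inj (h1 _ _ _ _ h).1).2
    subst this
    exact ⟨rfl, Fin.succ_injective _ (h2.symm.trans h3)⟩
  · exact absurd (dgCls_inj (h1 _ _ _ _ h).1).1.symm hg
  · exact absurd (dgCls_inj (h1 _ _ _ _ h).1).1 hg
  · exact ⟨(dgCls_inj (h1 _ _ _ _ h).1).2, (h1 _ _ _ _ h).2⟩

/-- labels of side `g` -/
def dgL {a q : ℕ} (rt : Fin q → Fin a) (g : Fin 3) : Finset (Fin a ⊕ Fin (3 * q)) :=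
  Finset.univ.image (fun i => Sum.inl (rt i)) ∪
    (Finset.univ.image (fun i => Sum.inr (dgCls 0 i)) ∪
      Finset.univ.image (fun i => Sum.inr (dgCls g i)))

theorem dgL_card {a q : ℕ} (rt : Fin q → Fin a) (g : Fin 3) : (dgL rt g).card ≤ 3 * q := by
  unfold dgL
  refine (Finset.card_union_le _ _).trans ?_
  have h1 : (Finset.univ.image (fun i : Fin q => (Sum.inl (rt i) : Fin a ⊕ Fin (3 * q)))).card ≤ q :=
    Finset.card_image_le.trans (by rw [Finset.card_univ, Fintype.card_fin])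
  have h2 : (Finset.univ.image (fun i : Fin q => (Sum.inr (dgCls 0 i) :
      Fin a ⊕ Fin (3 * q)))).card ≤ q :=
    Finset.card_image_le.trans (by rw [Finset.card_univ, Fintype.card_fin])
  have h3 : (Finset.univ.image (fun i : Fin q => (Sum.inr (dgCls g i) :
      Fin a ⊕ Fin (3 * q)))).card ≤ q :=
    Finset.card_image_le.trans (by rw [Finset.card_univ, Fintype.card_fin])
  have h4 := Finset.card_union_le (Finset.univ.image (fun i : Fin q => (Sum.inr (dgCls 0 i) :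
      Fin a ⊕ Fin (3 * q)))) (Finset.univ.image (fun i : Fin q => (Sum.inr (dgCls g i) :
      Fin a ⊕ Fin (3 * q))))
  omega

theorem dgad_deg {W : Type} [DecidableEq W] (r m : ℕ)
    (Γ : Finset (Finset W)) (L : Finset W) (hL : L.card ≤ m)
    (hΓ : ∀ γ ∈ Γ, γ.card = r ∧ γ ⊆ L) (w : W) :
    (Γ.filter (fun γ => w ∈ γ)).card ≤ m ^ (r - 1) := by
  have h1 : (Γ.filter (fun γ => w ∈ γ)).card ≤ (L.powersetCard (r - 1)).card := by
    refine Finset.card_le_card_of_injOn (fun γ => γ.erase w) ?_ ?_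
    · intro γ hγ
      have hγ' := Finset.mem_filter.mp (Finset.mem_coe.mp hγ)
      rw [Finset.mem_coe, Finset.mem_powersetCard]
      exact ⟨(Finset.erase_subset _ _).trans (hΓ γ hγ'.1).2,
        by rw [Finset.card_erase_of_mem hγ'.2, (hΓ γ hγ'.1).1]⟩
    · intro γ hγ γ' hγ' he
      have h1 := Finset.mem_filter.mp (Finset.mem_coe.mp hγ)
      have h2 := Finset.mem_filter.mp (Finset.mem_coe.mp hγ')
      simp only at he
      rw [← Finset.insert_erase h1.2, ← Finset.insert_erase h2.2, he]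
  refine h1.trans ?_
  rw [Finset.card_powersetCard]
  exact (Nat.choose_le_pow _ _).trans (Nat.pow_le_pow_left hL _)

/-- edges of one side are in `G` -/
theorem dgad_side {V : Type} [DecidableEq V] {a q r s : ℕ} (hs : 0 < s)
    (ρ : Fin a → V) (F : Fin (3 * q) → Fin s → V) (Fz : Fin q → Fin (s + 1))
    (g : Fin 3) (hg : g ≠ 0)
    (h1 : ∀ i j i' j', F i j = F i' j' → i = i' ∧ j = j') (h2 : ∀ i j x, F i j ≠ ρ x)
    (e : Fin q → V) (he : Function.Injective e) (rt : Fin q → Fin a) (hrt : ∀ i, ρ (rt i) = e i)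
    (G : Finset (Finset V))
    (hG : ∀ γ : Finset (Fin a ⊕ Fin (3 * q)), γ.card = r → (∃ j, Sum.inr j ∈ γ) →
      γ ⊆ dgL rt g → ∀ y : Fin (3 * q) → Fin s, γ.image (Sum.elim ρ (fun i => F i (y i))) ∈ G)
    (γ : Finset V) (hγ : γ ∈ crs r (boostTau e (dgF hs F Fz g)))
    (hγ' : γ ∉ (Finset.univ.image e).powersetCard r) :
    γ ∈ G ∧ ∃ v ∈ γ, ∃ i j, v = F i j := by
  classical
  have hτ := boostTau_injective e he (dgF hs F Fz g) (dgF_inj hs F Fz g hg h1) (by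
    intro i j x
    rw [← hrt]
    unfold dgF
    split_ifs
    · exact h2 _ _ _
    · exact h2 _ _ _)
  obtain ⟨I, x, hI, rfl⟩ := (mem_crs _ _).mp hγ
  have hcard := crs_card _ hτ _ hγ
  have hex : ∃ i ∈ I, x i ≠ 0 := by
    by_contra hcon
    push Not at hcon
    apply hγ'
    rw [Finset.mem_powersetCard]
    refine ⟨?_, hcard⟩
    intro v hv
    rw [Finset.mem_image] at hv
    obtain ⟨i, hi, rfl⟩ := hv
    rw [hcon i hi, boostTau_zero]
    exact Finset.mem_image_of_mem _ (Finset.mem_univ _)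
  obtain ⟨i₀, hi₀, hx₀⟩ := hex
  have hrtinj : Function.Injective rt := by
    intro i j hij
    apply he
    rw [← hrt, ← hrt, hij]
  let pr : Fin q → Fin s := fun i => if h : x i = 0 then ⟨0, hs⟩ else (x i).pred h
  let y : Fin (3 * q) → Fin s := fun t =>
    if (finProdFinEquiv.symm t).1 = (0 : Fin 3) then ⟨0, hs⟩ else pr (finProdFinEquiv.symm t).2
  let lab : Fin q → Fin a ⊕ Fin (3 * q) := fun i => if x i = 0 then Sum.inl (rt i) else
    if Fz i = x i then Sum.inr (dgCls 0 i) else Sum.inr (dgCls g i)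
  have hy0 : ∀ i : Fin q, y (dgCls 0 i) = ⟨0, hs⟩ := by
    intro i
    show (if (finProdFinEquiv.symm (finProdFinEquiv ((0 : Fin 3), i))).1 = (0 : Fin 3)
      then (⟨0, hs⟩ : Fin s) else pr (finProdFinEquiv.symm (finProdFinEquiv ((0 : Fin 3), i))).2) = _
    rw [Equiv.symm_apply_apply, if_pos rfl]
  have hyg : ∀ i : Fin q, y (dgCls g i) = pr i := by
    intro i
    show (if (finProdFinEquiv.symm (finProdFinEquiv (g, i))).1 = (0 : Fin 3)
      then (⟨0, hs⟩ : Fin s) else pr (finProdFinEquiv.symm (finProdFinEquiv (g, i))).2) = _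
    rw [Equiv.symm_apply_apply, if_neg hg]
  have hlab : ∀ i, Sum.elim ρ (fun i => F i (y i)) (lab i) =
      boostTau e (dgF hs F Fz g) (i, x i) := by
    intro i
    by_cases h : x i = 0
    · simp only [lab, if_pos h, Sum.elim_inl, h, boostTau_zero]
      exact hrt i
    · have hx : x i = (pr i).succ := by
        simp only [pr, dif_neg h]
        exact (Fin.succ_pred (x i) h).symm
      rw [hx, boostTau_succ]
      unfold dgF
      by_cases h3 : Fz i = x i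
      · simp only [lab, if_neg h, if_pos h3, Sum.elim_inr, hy0]
        rw [if_pos (h3.trans hx)]
      · simp only [lab, if_neg h, if_neg h3, Sum.elim_inr, hyg]
        rw [if_neg (fun h4 => h3 (h4.trans hx.symm))]
  have hlabinj : Function.Injective lab := by
    intro i j hij
    simp only [lab] at hij
    split_ifs at hij with h3 h4 h4 h5 h5 h6 h6
    · exact hrtinj (Sum.inl_injective hij)
    · exact (dgCls_inj (Sum.inr_injective hij)).2
    · exact absurd (dgCls_inj (Sum.inr_injective hij)).1.symm hg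
    · exact absurd (dgCls_inj (Sum.inr_injective hij)).1 hg
    · exact (dgCls_inj (Sum.inr_injective hij)).2
  have hlabinr : ∃ j, Sum.inr j = lab i₀ := by
    by_cases h3 : Fz i₀ = x i₀
    · exact ⟨dgCls 0 i₀, by simp only [lab, if_neg hx₀, if_pos h3]⟩
    · exact ⟨dgCls g i₀, by simp only [lab, if_neg hx₀, if_neg h3]⟩
  constructor
  · have := hG (I.image lab) (by rw [Finset.card_image_of_injective _ hlabinj, hI]) (by
      obtain ⟨j, hj⟩ := hlabinr
      exact ⟨j, by rw [hj]; exact Finset.mem_image_of_mem _ hi₀⟩) (by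
      intro v hv
      rw [Finset.mem_image] at hv
      obtain ⟨i, _, rfl⟩ := hv
      unfold dgL
      simp only [lab]
      split_ifs
      · exact Finset.mem_union_left _ (Finset.mem_image_of_mem _ (Finset.mem_univ _))
      · exact Finset.mem_union_right _ (Finset.mem_union_left _
          (Finset.mem_image.mpr ⟨i, Finset.mem_univ _, rfl⟩))
      · exact Finset.mem_union_right _ (Finset.mem_union_right _
          (Finset.mem_image.mpr ⟨i, Finset.mem_univ _, rfl⟩))) y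
    rw [Finset.image_image] at this
    convert this using 2
    funext i
    exact (hlab i).symm
  · obtain ⟨j, hj⟩ := hlabinr
    refine ⟨_, Finset.mem_image_of_mem _ hi₀, j, y j, ?_⟩
    rw [← hlab i₀, ← hj, Sum.elim_inr]

theorem dgad_const (q r : ℕ) (hr : 1 ≤ r) (hq : r < q) :
    ((((3 * q) ^ (r - 1) + (3 * q) ^ (r - 1) : ℕ)) : ℝ) * (cg r / (q : ℝ) ^ (r - 1)) ≤ 1 / 4 := by
  have hq0 : (0 : ℝ) < q := by exact_mod_cast (by omega : 0 < q)
  unfold cg
  push_cast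
  rw [mul_pow]
  have h3 : (3 : ℝ) ^ r = 3 * 3 ^ (r - 1) := by
    rw [← pow_succ']; congr 1; omega
  have hq1 : (0 : ℝ) < (q : ℝ) ^ (r - 1) := pow_pos hq0 _
  have h31 : (0 : ℝ) < (3 : ℝ) ^ (r - 1) := by positivity
  rw [h3]
  have : ((3 : ℝ) ^ (r - 1) * (q : ℝ) ^ (r - 1) + (3 : ℝ) ^ (r - 1) * (q : ℝ) ^ (r - 1)) *
      (1 / (100 * (3 * 3 ^ (r - 1))) / (q : ℝ) ^ (r - 1)) = 1 / 150 := by
    field_simp
    norm_num
  rw [this]
  norm_num

/-- enumeration of `Y` starting with a given enumeration of `f` -/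
theorem dgad_enum {V : Type} [DecidableEq V] {q r : ℕ} (hq : r < q) (Y f : Finset V)
    (hY : Y.card = q) (hf : f.card = r) (hfY : f ⊆ Y) (φ : Fin r → V) (hφ : Function.Injective φ)
    (hφf : Finset.univ.image φ = f) :
    ∃ e : Fin q → V, Function.Injective e ∧ Finset.univ.image e = Y ∧
      (∀ (i : Fin q) (h : (i : ℕ) < r), e i = φ ⟨i, h⟩) ∧ ∀ i : Fin q, r ≤ (i : ℕ) → e i ∉ f := by
  have hcard : (Y \ f).card = q - r := by
    rw [Finset.card_sdiff_of_subset hfY, hY, hf]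
  let ψ : Fin (q - r) ≃ (Y \ f : Finset V) := ((Y \ f).equivFinOfCardEq hcard).symm
  have hφmem : ∀ x, φ x ∈ f := fun x => by
    rw [← hφf]; exact Finset.mem_image_of_mem _ (Finset.mem_univ _)
  let e : Fin q → V := fun i => if h : (i : ℕ) < r then φ ⟨i, h⟩ else
    (ψ ⟨(i : ℕ) - r, by have := i.2; omega⟩ : V)
  have he1 : ∀ (i : Fin q) (h : (i : ℕ) < r), e i = φ ⟨i, h⟩ := fun i h => dif_pos h
  have he2 : ∀ i : Fin q, r ≤ (i : ℕ) → e i ∈ Y \ f := by
    intro i h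
    have : e i = (ψ ⟨(i : ℕ) - r, by have := i.2; omega⟩ : V) := dif_neg (by omega)
    rw [this]
    exact (ψ _).2
  have hinj : Function.Injective e := by
    intro i j hij
    by_cases hi : (i : ℕ) < r
    · by_cases hj : (j : ℕ) < r
      · rw [he1 i hi, he1 j hj] at hij
        have := congrArg Fin.val (hφ hij)
        exact Fin.ext this
      · exfalso
        have h1 := he2 j (by omega)
        rw [← hij, he1 i hi] at h1
        exact (Finset.mem_sdiff.mp h1).2 (hφmem _)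
    · by_cases hj : (j : ℕ) < r
      · exfalso
        have h1 := he2 i (by omega)
        rw [hij, he1 j hj] at h1
        exact (Finset.mem_sdiff.mp h1).2 (hφmem _)
      · have e1 : e i = (ψ ⟨(i : ℕ) - r, by have := i.2; omega⟩ : V) := dif_neg hi
        have e2 : e j = (ψ ⟨(j : ℕ) - r, by have := j.2; omega⟩ : V) := dif_neg hj
        rw [e1, e2] at hij
        have := congrArg Fin.val (ψ.injective (Subtype.ext hij))
        simp only at this
        exact Fin.ext (by omega)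
  refine ⟨e, hinj, ?_, he1, fun i h => (Finset.mem_sdiff.mp (he2 i h)).2⟩
  apply Finset.eq_of_subset_of_card_le
  · intro v hv
    rw [Finset.mem_image] at hv
    obtain ⟨i, _, rfl⟩ := hv
    by_cases hi : (i : ℕ) < r
    · rw [he1 i hi]
      exact hfY (hφmem _)
    · exact (Finset.mem_sdiff.mp (he2 i (by omega))).1
  · rw [Finset.card_image_of_injective _ hinj, Finset.card_univ, Fintype.card_fin, hY]

theorem dgad_rich (q r : ℕ) (hr : 1 ≤ r) (hq : r < q) : ∃ (v : ℕ) (α : ℝ) (n₀ : ℕ), 0 < α ∧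
    ∀ (V : Type) [Fintype V] [DecidableEq V], n₀ ≤ Fintype.card V →
    ∀ G : Finset (Finset V), Dense q r (cg r) G → ∀ Y₁ Y₂ f : Finset V, Y₁.card = q →
    Y₂.card = q → f.card = r → Y₁ ∩ Y₂ = f →
    α * (Fintype.card V : ℝ) ^ v ≤ cnt (fun τ : Fin v → V =>
      ∃ E : Finset (Finset V), E ⊆ G ∧
        (∀ γ ∈ E, γ.card = r ∧ γ ⊆ Y₁ ∪ Y₂ ∪ Finset.univ.image τ ∧ ¬ γ ⊆ Y₁ ∪ Y₂) ∧
        Decomp q r (E ∪ stub r Y₁ f) ∧ Decomp q r (E ∪ stub r Y₂ f)) := by
  classical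
  obtain ⟨s, C₁, C₂, hC₁, hC₂, h0, hv⟩ := mds q r hr hq
  -- the zero set of `Fz` is the set of the first `r` indices
  have hIcard : (Finset.univ.filter (fun i : Fin q => (i : ℕ) < r)).card = r := by
    have : (Finset.univ.filter (fun i : Fin q => (i : ℕ) < r)) =
        Finset.univ.image (fun i : Fin r => (⟨i, lt_trans i.2 hq⟩ : Fin q)) := by
      ext i
      simp only [Finset.mem_filter, Finset.mem_univ, true_and, Finset.mem_image]
      constructor
      · intro h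
        exact ⟨⟨i, h⟩, rfl⟩
      · rintro ⟨j, rfl⟩
        exact j.2
    rw [this, Finset.card_image_of_injective, Finset.card_univ, Fintype.card_fin]
    intro i j hij
    have := congrArg Fin.val hij
    exact Fin.ext this
  obtain ⟨Fz, hFz, hFz0⟩ := hv _ hIcard
  have hFz0' : ∀ i : Fin q, Fz i = 0 ↔ (i : ℕ) < r := by
    intro i
    rw [hFz0 i]
    simp
  have hs : 0 < s := by
    by_contra hs
    have hs0 : s = 0 := by omega
    subst hs0
    have := (hFz0' ⟨r, hq⟩).mp (Fin.ext (by omega))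
    simp at this
  obtain ⟨α, n₀, hα, H⟩ := rbu r (q + q - r) (3 * q) ((3 * q) ^ (r - 1) + (3 * q) ^ (r - 1)) s hr hs
  refine ⟨3 * q * s, α, n₀, hα, ?_⟩
  intro V _ _ hn G hG Y₁ Y₂ f hY₁ hY₂ hf hYf
  have hfY₁ : f ⊆ Y₁ := by rw [← hYf]; exact Finset.inter_subset_left
  have hfY₂ : f ⊆ Y₂ := by rw [← hYf]; exact Finset.inter_subset_right
  -- enumerations
  have hUcard : (Y₁ ∪ Y₂).card = q + q - r := by
    rw [Finset.card_union, hY₁, hY₂, hYf, hf]
  let eU : Fin (q + q - r) ≃ (Y₁ ∪ Y₂ : Finset V) := ((Y₁ ∪ Y₂).equivFinOfCardEq hUcard).symm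
  let ρ : Fin (q + q - r) → V := fun i => (eU i : V)
  have hρ : Function.Injective ρ := fun i j h => eU.injective (Subtype.ext h)
  let eφ : Fin r ≃ f := (f.equivFinOfCardEq hf).symm
  let φ : Fin r → V := fun i => (eφ i : V)
  have hφ : Function.Injective φ := fun i j h => eφ.injective (Subtype.ext h)
  have hφf : Finset.univ.image φ = f := by
    ext v
    rw [Finset.mem_image]
    constructor
    · rintro ⟨i, _, rfl⟩
      exact (eφ i).2
    · intro hv
      exact ⟨eφ.symm ⟨v, hv⟩, Finset.mem_univ _, by simp [φ]⟩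
  obtain ⟨e₁, he₁, he₁Y, he₁φ, he₁f⟩ := dgad_enum hq Y₁ f hY₁ hf hfY₁ φ hφ hφf
  obtain ⟨e₂, he₂, he₂Y, he₂φ, he₂f⟩ := dgad_enum hq Y₂ f hY₂ hf hfY₂ φ hφ hφf
  have hm₁ : ∀ i, e₁ i ∈ Y₁ := fun i => by
    rw [← he₁Y]; exact Finset.mem_image_of_mem _ (Finset.mem_univ _)
  have hm₂ : ∀ i, e₂ i ∈ Y₂ := fun i => by
    rw [← he₂Y]; exact Finset.mem_image_of_mem _ (Finset.mem_univ _)
  let rt₁ : Fin q → Fin (q + q - r) := fun i =>
    eU.symm ⟨e₁ i, Finset.mem_union_left _ (hm₁ i)⟩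
  let rt₂ : Fin q → Fin (q + q - r) := fun i =>
    eU.symm ⟨e₂ i, Finset.mem_union_right _ (hm₂ i)⟩
  have hrt₁ : ∀ i, ρ (rt₁ i) = e₁ i := fun i => by simp [ρ, rt₁]
  have hrt₂ : ∀ i, ρ (rt₂ i) = e₂ i := fun i => by simp [ρ, rt₂]
  let Γ₁ : Finset (Finset (Fin (q + q - r) ⊕ Fin (3 * q))) :=
    Finset.univ.filter (fun γ => γ.card = r ∧ (∃ j, Sum.inr j ∈ γ) ∧ γ ⊆ dgL rt₁ 1)
  let Γ₂ : Finset (Finset (Fin (q + q - r) ⊕ Fin (3 * q))) :=
    Finset.univ.filter (fun γ => γ.card = r ∧ (∃ j, Sum.inr j ∈ γ) ∧ γ ⊆ dgL rt₂ 2)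
  have hΓ₁ : ∀ γ ∈ Γ₁, γ.card = r ∧ (∃ j, Sum.inr j ∈ γ) ∧ γ ⊆ dgL rt₁ 1 :=
    fun γ hγ => (Finset.mem_filter.mp hγ).2
  have hΓ₂ : ∀ γ ∈ Γ₂, γ.card = r ∧ (∃ j, Sum.inr j ∈ γ) ∧ γ ⊆ dgL rt₂ 2 :=
    fun γ hγ => (Finset.mem_filter.mp hγ).2
  have hΓ : ∀ γ ∈ Γ₁ ∪ Γ₂, γ.card = r ∧ ∃ j, Sum.inr j ∈ γ := by
    intro γ hγ
    rcases Finset.mem_union.mp hγ with h | h
    · exact ⟨(hΓ₁ γ h).1, (hΓ₁ γ h).2.1⟩
    · exact ⟨(hΓ₂ γ h).1, (hΓ₂ γ h).2.1⟩
  have hdeg : ∀ j : Fin (3 * q), ((Γ₁ ∪ Γ₂).filter (fun γ => Sum.inr j ∈ γ)).card ≤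
      (3 * q) ^ (r - 1) + (3 * q) ^ (r - 1) := by
    intro j
    rw [Finset.filter_union]
    refine (Finset.card_union_le _ _).trans (add_le_add ?_ ?_)
    · exact dgad_deg r (3 * q) Γ₁ _ (dgL_card rt₁ 1)
        (fun γ hγ => ⟨(hΓ₁ γ hγ).1, (hΓ₁ γ hγ).2.2⟩) _
    · exact dgad_deg r (3 * q) Γ₂ _ (dgL_card rt₂ 2)
        (fun γ hγ => ⟨(hΓ₂ γ hγ).1, (hΓ₂ γ hγ).2.2⟩) _
  refine (H (Γ₁ ∪ Γ₂) hΓ hdeg V hn G (cg r / (q : ℝ) ^ (r - 1)) hG.1 hG.2 (dgad_const q r hr hq) ρ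
    hρ).trans ?_
  refine boost_cnt _ _ ?_
  rintro F ⟨hF1, hF2, hF3⟩
  have hnr : ∀ (g : Fin 3) i j x, dgF hs F Fz g i j ≠ ρ x := by
    intro g i j x
    unfold dgF
    split_ifs
    · exact hF2 _ _ _
    · exact hF2 _ _ _
  have hτ₁ := boostTau_injective e₁ he₁ (dgF hs F Fz 1) (dgF_inj hs F Fz 1 (by decide) hF1)
    (fun i j x => by rw [← hrt₁]; exact hnr 1 i j _)
  have hτ₂ := boostTau_injective e₂ he₂ (dgF hs F Fz 2) (dgF_inj hs F Fz 2 (by decide) hF1)
    (fun i j x => by rw [← hrt₂]; exact hnr 2 i j _)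
  have hQ₁ : trv (boostTau e₁ (dgF hs F Fz 1)) (fun _ => 0) = Y₁ := he₁Y
  have hQ₂ : trv (boostTau e₂ (dgF hs F Fz 2)) (fun _ => 0) = Y₂ := he₂Y
  -- values at `Fz`
  have hFzv : ∀ (g : Fin 3) (e : Fin q → V) (i : Fin q), r ≤ (i : ℕ) →
      boostTau e (dgF hs F Fz g) (i, Fz i) = F (dgCls 0 i) ⟨0, hs⟩ := by
    intro g e i hi
    have hne : Fz i ≠ 0 := fun h => by have := (hFz0' i).mp h; omega
    obtain ⟨c, hc⟩ := Fin.exists_succ_eq.mpr hne
    rw [← hc, boostTau_succ]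
    unfold dgF
    rw [if_pos hc.symm]
  have hM : trv (boostTau e₁ (dgF hs F Fz 1)) Fz = trv (boostTau e₂ (dgF hs F Fz 2)) Fz := by
    unfold trv
    refine Finset.image_congr ?_
    intro i _
    simp only
    by_cases hi : (i : ℕ) < r
    · rw [(hFz0' i).mpr hi, boostTau_zero, boostTau_zero, he₁φ i hi, he₂φ i hi]
    · rw [hFzv 1 e₁ i (by omega), hFzv 2 e₂ i (by omega)]
  have hint : ∀ (g : Fin 3) (e : Fin q → V), Function.Injective e →
      Function.Injective (boostTau e (dgF hs F Fz g)) →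
      (∀ (i : Fin q) (h : (i : ℕ) < r), e i = φ ⟨i, h⟩) →
      trv (boostTau e (dgF hs F Fz g)) (fun _ => 0) ∩ trv (boostTau e (dgF hs F Fz g)) Fz = f := by
    intro g e _ hτ heφ
    rw [trv_inter _ hτ]
    ext v
    rw [Finset.mem_image]
    constructor
    · rintro ⟨i, hi, rfl⟩
      have hi' : (i : ℕ) < r := (hFz0' i).mp (Finset.mem_filter.mp hi).2.symm
      rw [boostTau_zero, heφ i hi', ← hφf]
      exact Finset.mem_image_of_mem _ (Finset.mem_univ _)
    · intro hv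
      rw [← hφf, Finset.mem_image] at hv
      obtain ⟨j, _, rfl⟩ := hv
      refine ⟨⟨j, lt_trans j.2 hq⟩, ?_, ?_⟩
      · rw [Finset.mem_filter]
        exact ⟨Finset.mem_univ _, ((hFz0' _).mpr j.2).symm⟩
      · rw [boostTau_zero, heφ _ j.2]
  have hi₁ := hint 1 e₁ he₁ hτ₁ he₁φ
  have hi₂ := hint 2 e₂ he₂ hτ₂ he₂φ
  -- common vertices
  have hcases : ∀ (g : Fin 3) (e : Fin q → V) (p : Fin q × Fin (s + 1)),
      (boostTau e (dgF hs F Fz g) p = e p.1) ∨
      (boostTau e (dgF hs F Fz g) p = F (dgCls 0 p.1) ⟨0, hs⟩ ∧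
        boostTau e (dgF hs F Fz g) p ∈ trv (boostTau e (dgF hs F Fz g)) Fz) ∨
      ∃ c, boostTau e (dgF hs F Fz g) p = F (dgCls g p.1) c := by
    rintro g e ⟨i, x⟩
    induction x using Fin.cases with
    | zero => left; rw [boostTau_zero]
    | succ c =>
      right
      by_cases h : Fz i = c.succ
      · left
        constructor
        · rw [boostTau_succ]
          unfold dgF
          rw [if_pos h]
        · unfold trv
          rw [Finset.mem_image]
          exact ⟨i, Finset.mem_univ _, by rw [h]⟩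
      · right
        refine ⟨c, ?_⟩
        rw [boostTau_succ]
        unfold dgF
        rw [if_neg h]
  have hfM₁ : f ⊆ trv (boostTau e₁ (dgF hs F Fz 1)) Fz := by
    conv_lhs => rw [← hi₁]
    exact Finset.inter_subset_right
  have hR : ∀ p p', boostTau e₁ (dgF hs F Fz 1) p = boostTau e₂ (dgF hs F Fz 2) p' →
      boostTau e₁ (dgF hs F Fz 1) p ∈ trv (boostTau e₁ (dgF hs F Fz 1)) Fz := by
    intro p p' hpp
    rcases hcases 1 e₁ p with h | ⟨_, h⟩ | ⟨c, h⟩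
    · rcases hcases 2 e₂ p' with h' | ⟨h', _⟩ | ⟨c', h'⟩
      · apply hfM₁
        rw [← hYf, Finset.mem_inter]
        refine ⟨by rw [h]; exact hm₁ _, by rw [hpp, h']; exact hm₂ _⟩
      · exfalso
        rw [h, h', ← hrt₁] at hpp
        exact hF2 _ _ _ hpp.symm
      · exfalso
        rw [h, h', ← hrt₁] at hpp
        exact hF2 _ _ _ hpp.symm
    · exact h
    · rcases hcases 2 e₂ p' with h' | ⟨h', _⟩ | ⟨c', h'⟩
      · exfalso
        rw [h, h', ← hrt₂] at hpp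
        exact hF2 _ _ _ hpp
      · exfalso
        rw [h, h'] at hpp
        exact absurd (dgCls_inj (hF1 _ _ _ _ hpp).1).1 (by decide)
      · exfalso
        rw [h, h'] at hpp
        exact absurd (dgCls_inj (hF1 _ _ _ _ hpp).1).1 (by decide)
  have hR' : ∀ p p', boostTau e₂ (dgF hs F Fz 2) p = boostTau e₁ (dgF hs F Fz 1) p' →
      boostTau e₂ (dgF hs F Fz 2) p ∈ trv (boostTau e₂ (dgF hs F Fz 2)) Fz := by
    intro p p' hpp
    rw [← hM, hpp]
    exact hR p' p hpp.symm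
  have hside₁ := dgad_side (r := r) hs ρ F Fz 1 (by decide) hF1 hF2 e₁ he₁ rt₁ hrt₁ G
    (fun γ h1 h2 h3 y => hF3 γ (Finset.mem_union_left _
      (Finset.mem_filter.mpr ⟨Finset.mem_univ _, h1, h2, h3⟩)) y)
  have hside₂ := dgad_side (r := r) hs ρ F Fz 2 (by decide) hF1 hF2 e₂ he₂ rt₂ hrt₂ G
    (fun γ h1 h2 h3 y => hF3 γ (Finset.mem_union_right _
      (Finset.mem_filter.mpr ⟨Finset.mem_univ _, h1, h2, h3⟩)) y)
  rw [he₁Y] at hside₁
  rw [he₂Y] at hside₂
  have hρU : ∀ v ∈ Y₁ ∪ Y₂, ∃ x, ρ x = v := by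
    intro v hv
    exact ⟨eU.symm ⟨v, hv⟩, by simp [ρ]⟩
  have hvert : ∀ (g : Fin 3) (e : Fin q → V), (∀ i, e i ∈ Y₁ ∪ Y₂) →
      ∀ γ ∈ crs r (boostTau e (dgF hs F Fz g)), γ ⊆ Y₁ ∪ Y₂ ∪ Finset.univ.image (boostFlat F) := by
    intro g e he γ hγ
    obtain ⟨I, x, _, rfl⟩ := (mem_crs _ _).mp hγ
    intro v hv
    rw [Finset.mem_image] at hv
    obtain ⟨i, _, rfl⟩ := hv
    rcases hcases g e (i, x i) with h | ⟨h, _⟩ | ⟨c, h⟩
    · rw [h]; exact Finset.mem_union_left _ (he _)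
    · rw [h]; exact Finset.mem_union_right _ (boostFlat_mem F _ _)
    · rw [h]; exact Finset.mem_union_right _ (boostFlat_mem F _ _)
  refine ⟨(crs r (boostTau e₁ (dgF hs F Fz 1)) \ Y₁.powersetCard r) ∪
    (crs r (boostTau e₂ (dgF hs F Fz 2)) \ Y₂.powersetCard r), ?_, ?_, ?_, ?_⟩
  · intro γ hγ
    rcases Finset.mem_union.mp hγ with h | h
    · rw [Finset.mem_sdiff] at h
      exact (hside₁ γ h.1 h.2).1
    · rw [Finset.mem_sdiff] at h
      exact (hside₂ γ h.1 h.2).1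
  · intro γ hγ
    rcases Finset.mem_union.mp hγ with h | h
    · rw [Finset.mem_sdiff] at h
      refine ⟨crs_card _ hτ₁ γ h.1, hvert 1 e₁ (fun i => Finset.mem_union_left _ (hm₁ i)) γ h.1, ?_⟩
      intro hsub
      obtain ⟨v, hv, i, j, rfl⟩ := (hside₁ γ h.1 h.2).2
      obtain ⟨x, hx⟩ := hρU _ (hsub hv)
      exact hF2 _ _ _ hx.symm
    · rw [Finset.mem_sdiff] at h
      refine ⟨crs_card _ hτ₂ γ h.1, hvert 2 e₂ (fun i => Finset.mem_union_right _ (hm₂ i)) γ h.1, ?_⟩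
      intro hsub
      obtain ⟨v, hv, i, j, rfl⟩ := (hside₂ γ h.1 h.2).2
      obtain ⟨x, hx⟩ := hρU _ (hsub hv)
      exact hF2 _ _ _ hx.symm
  · have := dgad_struct C₁ C₂ hC₁ hC₂ h0 Fz hFz _ _ hτ₁ hτ₂ f hf hM hi₁ hi₂ hR
    rwa [hQ₁, hQ₂] at this
  · have := dgad_struct C₁ C₂ hC₁ hC₂ h0 Fz hFz _ _ hτ₂ hτ₁ f hf hM.symm hi₂ hi₁ hR'
    rw [hQ₁, hQ₂] at this
    rwa [Finset.union_comm (crs r (boostTau e₁ (dgF hs F Fz 1)) \ Y₁.powersetCard r)]

end Pool.Agent.Des
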