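import Pool.Agent.Lib_helper88.HCR.D2.Boost
import Pool.Agent.Lib_helper88.HCR.D2.Dgad
import Pool.Agent.Lib_helper96.Des.Comp
import Pool.Agent.Lib_helper96.Des.Gjw
import Pool.Agent.Lib_helper96.Des.Dec

/-!
# Block ABS: absorbers for bounded divisible `r`-graphs

For each `w ≤ wmax` and each divisible `H₀ ⊆ (univ : Finset (Fin w)).powersetCard r`, `q + r ≤ w`,
`gjw` over `ℤ` gives integers `c Q`, `Q ⊆ Fin w`, `|Q| = q`, with `1_{H₀} = ∑ c Q ∂Q`; fix them (the
constants `v, α, n₀` of the theorem are maxima / minima over the finitely many `w, H₀`).  Given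
`W ⊆ V`, `H ⊆ W.powersetCard r`, transport through a bijection `Fin w ≃ W`.
Let `𝒫` be the list of `c Q` copies of each `Q` with `c Q > 0`, `𝒩` the list of `-c Q` copies of each
`Q` with `c Q < 0`.  Place a booster for every copy (disjoint sets of new vertices: `cnt_comp`,
`cnt_avoid`), giving stubs.  At each `r`-set `f ⊆ W`:
`#(copies in 𝒫 containing f) = #(copies in 𝒩 containing f) + [f ∈ H]`.
Match them, leaving one copy of `𝒫` unmatched if `f ∈ H`, and place a `DGAD` gadget for every
matched pair of stubs (they meet exactly in `f`).  `E` = all these edges.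
`E` decomposes: boosters in `𝒫` by themselves (`dec`), boosters in `𝒩` as `rest` + stubs, and each
`DGAD` together with the stub of its `𝒩`-partner.
`E ∪ H` decomposes: boosters in `𝒩` by themselves, boosters in `𝒫` as `rest` + stubs, each `DGAD`
with the stub of its `𝒫`-partner, and for `f ∈ H` the unmatched stub with `f` is a full clique.
(Edges of different gadgets are different because each edge contains a new vertex of its own
gadget.)
-/

set_option autoImplicit false

namespace Pool.Agent.Des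

open Finset

section AbsState

variable {V : Type} [DecidableEq V]

/-- union of the pending stubs -/
def abs_su (r : ℕ) (W : Finset V) (P : Finset (Finset V)) : Finset (Finset V) :=
  P.biUnion (fun Y => stub r Y (Y ∩ W))

/-- state of the construction of an absorber: new vertices in `N`, edges `E`, pending positive and
negative stubs `Pp`, `Pm`, current function `J`. -/
structure AbsSt (q r : ℕ) (W N : Finset V) (E Pp Pm : Finset (Finset V)) (J : Finset V → ℤ) :
    Prop where
  edges : ∀ γ ∈ E, γ.card = r ∧ γ ⊆ W ∪ N ∧ ¬ γ ⊆ W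
  pend : ∀ Y ∈ Pp ∪ Pm, Y.card = q ∧ (Y ∩ W).card = r ∧ Y ⊆ W ∪ N ∧ stub r Y (Y ∩ W) ⊆ E
  disj : ∀ Y ∈ Pp ∪ Pm, ∀ Y' ∈ Pp ∪ Pm, Y ≠ Y' →
    Disjoint (stub r Y (Y ∩ W)) (stub r Y' (Y' ∩ W))
  inter : ∀ Y ∈ Pp, ∀ Y' ∈ Pm, Y ∩ Y' ⊆ W
  decm : Decomp q r (E \ abs_su r W Pm)
  decp : Decomp q r (E \ abs_su r W Pp)
  cnt : ∀ f ∈ W.powersetCard r, (((Pp.filter (fun Y => Y ∩ W = f)).card : ℕ) : ℤ) -
    (((Pm.filter (fun Y => Y ∩ W = f)).card : ℕ) : ℤ) = J f

theorem AbsSt.swap {q r : ℕ} {W N : Finset V} {E Pp Pm : Finset (Finset V)} {J : Finset V → ℤ}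
    (h : AbsSt q r W N E Pp Pm J) : AbsSt q r W N E Pm Pp (fun f => - J f) where
  edges := h.edges
  pend := fun Y hY => h.pend Y (by rwa [Finset.union_comm] at hY)
  disj := fun Y hY Y' hY' => h.disj Y (by rwa [Finset.union_comm] at hY) Y'
    (by rwa [Finset.union_comm] at hY')
  inter := fun Y hY Y' hY' => by
    rw [Finset.inter_comm]
    exact h.inter Y' hY' Y hY
  decm := h.decp
  decp := h.decm
  cnt := fun f hf => by
    have := h.cnt f hf
    rw [← this]; ring

theorem AbsSt.congr {q r : ℕ} {W N : Finset V} {E Pp Pm : Finset (Finset V)}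
    {J J' : Finset V → ℤ} (h : AbsSt q r W N E Pp Pm J)
    (hJ : ∀ f ∈ W.powersetCard r, J f = J' f) : AbsSt q r W N E Pp Pm J' where
  edges := h.edges
  pend := h.pend
  disj := h.disj
  inter := h.inter
  decm := h.decm
  decp := h.decp
  cnt := fun f hf => by rw [h.cnt f hf, hJ f hf]

theorem AbsSt.mono {q r : ℕ} {W N N' : Finset V} {E Pp Pm : Finset (Finset V)}
    {J : Finset V → ℤ} (h : AbsSt q r W N E Pp Pm J) (hN : N ⊆ N') :
    AbsSt q r W N' E Pp Pm J where
  edges := fun γ hγ => ⟨(h.edges γ hγ).1,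
    (h.edges γ hγ).2.1.trans (Finset.union_subset_union_right hN), (h.edges γ hγ).2.2⟩
  pend := fun Y hY => ⟨(h.pend Y hY).1, (h.pend Y hY).2.1,
    (h.pend Y hY).2.2.1.trans (Finset.union_subset_union_right hN), (h.pend Y hY).2.2.2⟩
  disj := h.disj
  inter := h.inter
  decm := h.decm
  decp := h.decp
  cnt := h.cnt

theorem AbsSt.zero (q r : ℕ) (W N : Finset V) : AbsSt q r W N ∅ ∅ ∅ (fun _ => 0) where
  edges := by simp
  pend := by simp
  disj := by simp
  inter := by simp
  decm := by simpa [abs_su] using Decomp.empty q r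
  decp := by simpa [abs_su] using Decomp.empty q r
  cnt := by simp

/-- adding a positive booster -/
theorem AbsSt.boost {q r : ℕ} (hrq : r < q) {W N : Finset V} {E Pp Pm : Finset (Finset V)}
    {J : Finset V → ℤ} (h : AbsSt q r W N E Pp Pm J) {Q N' : Finset V}
    {E' : Finset (Finset V)} {st : Finset V → Finset V} (hQ : Q ⊆ W)
    (hN' : Disjoint N' (W ∪ N)) (hb : IsBoost q r Q N' E' st) :
    AbsSt q r W (N ∪ N') (E ∪ E') (Pp ∪ (Q.powersetCard r).image st) Pm
      (fun f => J f + if f ⊆ Q then 1 else 0) := by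
  have hN'W : ∀ x ∈ N', x ∉ W := fun x hx hxW =>
    (Finset.disjoint_left.mp hN' hx) (Finset.mem_union_left _ hxW)
  have hN'N : ∀ x ∈ N', x ∉ N := fun x hx hxW =>
    (Finset.disjoint_left.mp hN' hx) (Finset.mem_union_right _ hxW)
  -- trace of the stubs
  have htr : ∀ f ∈ Q.powersetCard r, st f ∩ W = f := by
    intro f hf
    obtain ⟨-, h2, h3⟩ := hb.st_card f hf
    rw [Finset.mem_powersetCard] at hf
    ext x
    rw [Finset.mem_inter]
    constructor
    · rintro ⟨hx, hxW⟩
      by_contra hxf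
      exact hN'W x (h3 (Finset.mem_sdiff.mpr ⟨hx, hxf⟩)) hxW
    · intro hx
      exact ⟨h2 hx, hQ (hf.1 hx)⟩
  have hdE : Disjoint E E' := by
    rw [Finset.disjoint_left]
    intro γ hγ hγ'
    obtain ⟨-, h2, h3⟩ := hb.edges γ hγ'
    apply h3
    intro x hx
    rcases Finset.mem_union.mp (h2 hx) with hxQ | hxN
    · exact hxQ
    · exfalso
      rcases Finset.mem_union.mp ((h.edges γ hγ).2.1 hx) with h4 | h4
      · exact hN'W x hxN h4
      · exact hN'N x hxN h4
  have hsu : ∀ P ⊆ Pp ∪ Pm, abs_su r W P ⊆ E := by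
    intro P hP γ hγ
    unfold abs_su at hγ
    rw [Finset.mem_biUnion] at hγ
    obtain ⟨Y, hY, hγY⟩ := hγ
    exact (h.pend Y (hP hY)).2.2.2 hγY
  have himg : abs_su r W ((Q.powersetCard r).image st) =
      (Q.powersetCard r).biUnion (fun f => stub r (st f) f) := by
    unfold abs_su
    rw [Finset.image_biUnion]
    refine Finset.biUnion_congr rfl fun f hf => ?_
    rw [htr f hf]
  have hsub' : abs_su r W ((Q.powersetCard r).image st) ⊆ E' := by
    rw [himg]
    intro γ hγ
    rw [Finset.mem_biUnion] at hγ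
    obtain ⟨f, hf, hγ⟩ := hγ
    exact hb.st_sub f hf hγ
  refine ⟨?_, ?_, ?_, ?_, ?_, ?_, ?_⟩
  · intro γ hγ
    rcases Finset.mem_union.mp hγ with hγ | hγ
    · obtain ⟨h1, h2, h3⟩ := h.edges γ hγ
      exact ⟨h1, h2.trans (Finset.union_subset_union_right Finset.subset_union_left), h3⟩
    · obtain ⟨h1, h2, h3⟩ := hb.edges γ hγ
      refine ⟨h1, h2.trans (Finset.union_subset_union hQ Finset.subset_union_right), ?_⟩
      intro hγW
      apply h3
      intro x hx
      rcases Finset.mem_union.mp (h2 hx) with h4 | h4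
      · exact h4
      · exact absurd (hγW hx) (hN'W x h4)
  · intro Y hY
    have hY' : Y ∈ Pp ∪ Pm ∨ Y ∈ (Q.powersetCard r).image st := by
      simp only [Finset.mem_union] at hY ⊢
      tauto
    rcases hY' with hY | hY
    · obtain ⟨h1, h2, h3, h4⟩ := h.pend Y hY
      exact ⟨h1, h2, h3.trans (Finset.union_subset_union_right Finset.subset_union_left),
        h4.trans Finset.subset_union_left⟩
    · obtain ⟨f, hf, rfl⟩ := Finset.mem_image.mp hY
      obtain ⟨h1, h2, h3⟩ := hb.st_card f hf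
      have hfc := (Finset.mem_powersetCard.mp hf)
      rw [htr f hf]
      refine ⟨h1, hfc.2, ?_, (hb.st_sub f hf).trans Finset.subset_union_right⟩
      intro x hx
      by_cases hxf : x ∈ f
      · exact Finset.mem_union_left _ (hQ (hfc.1 hxf))
      · exact Finset.mem_union_right _ (Finset.mem_union_right _
          (h3 (Finset.mem_sdiff.mpr ⟨hx, hxf⟩)))
  · intro Y hY Y' hY' hne
    have hY1 : Y ∈ Pp ∪ Pm ∨ Y ∈ (Q.powersetCard r).image st := by
      simp only [Finset.mem_union] at hY ⊢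
      tauto
    have hY2 : Y' ∈ Pp ∪ Pm ∨ Y' ∈ (Q.powersetCard r).image st := by
      simp only [Finset.mem_union] at hY' ⊢
      tauto
    rcases hY1 with hY | hY <;> rcases hY2 with hY' | hY'
    · exact h.disj Y hY Y' hY' hne
    · obtain ⟨f, hf, rfl⟩ := Finset.mem_image.mp hY'
      rw [htr f hf]
      exact Finset.disjoint_of_subset_left (h.pend Y hY).2.2.2
        (Finset.disjoint_of_subset_right (hb.st_sub f hf) hdE)
    · obtain ⟨f, hf, rfl⟩ := Finset.mem_image.mp hY
      rw [htr f hf]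
      exact (Finset.disjoint_of_subset_left (h.pend Y' hY').2.2.2
        (Finset.disjoint_of_subset_right (hb.st_sub f hf) hdE)).symm
    · obtain ⟨f, hf, rfl⟩ := Finset.mem_image.mp hY
      obtain ⟨f', hf', rfl⟩ := Finset.mem_image.mp hY'
      rw [htr f hf, htr f' hf']
      exact hb.st_disj f hf f' hf' (fun h => hne (by rw [h]))
  · intro Y hY Y' hY'
    rcases Finset.mem_union.mp hY with hY | hY
    · exact h.inter Y hY Y' hY'
    · obtain ⟨f, hf, rfl⟩ := Finset.mem_image.mp hY
      obtain ⟨h1, h2, h3⟩ := hb.st_card f hf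
      have hfc := (Finset.mem_powersetCard.mp hf)
      intro x hx
      rw [Finset.mem_inter] at hx
      by_cases hxf : x ∈ f
      · exact hQ (hfc.1 hxf)
      · have hxN := h3 (Finset.mem_sdiff.mpr ⟨hx.1, hxf⟩)
        rcases Finset.mem_union.mp ((h.pend Y' (Finset.mem_union_right _ hY')).2.2.1 hx.2)
          with h4 | h4
        · exact h4
        · exact absurd h4 (hN'N x hxN)
  · have h1 : (E ∪ E') \ abs_su r W Pm = (E \ abs_su r W Pm) ∪ E' := by
      rw [Finset.union_sdiff_distrib]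
      congr 1
      rw [Finset.sdiff_eq_self_iff_disjoint]
      exact (Finset.disjoint_of_subset_left (hsu Pm Finset.subset_union_right) hdE).symm
    rw [h1]
    exact Decomp.union h.decm hb.dec (Finset.disjoint_of_subset_left Finset.sdiff_subset hdE)
  · have h1 : (E ∪ E') \ abs_su r W (Pp ∪ (Q.powersetCard r).image st) =
        (E \ abs_su r W Pp) ∪ (E' \ abs_su r W ((Q.powersetCard r).image st)) := by
      have h2 : abs_su r W (Pp ∪ (Q.powersetCard r).image st) =
          abs_su r W Pp ∪ abs_su r W ((Q.powersetCard r).image st) := by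
        unfold abs_su
        rw [Finset.union_biUnion]
      rw [h2]
      have h3 := Finset.disjoint_left.mp (Finset.disjoint_of_subset_left
        (hsu Pp Finset.subset_union_left) hdE)
      have h4 := Finset.disjoint_left.mp (Finset.disjoint_of_subset_left
        hsub' hdE.symm)
      ext γ
      simp only [Finset.mem_sdiff, Finset.mem_union]
      constructor
      · rintro ⟨h5 | h5, h6⟩
        · left; exact ⟨h5, fun h7 => h6 (Or.inl h7)⟩
        · right; exact ⟨h5, fun h7 => h6 (Or.inr h7)⟩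
      · rintro (⟨h5, h6⟩ | ⟨h5, h6⟩)
        · refine ⟨Or.inl h5, ?_⟩
          rintro (h7 | h7)
          · exact h6 h7
          · exact h4 h7 h5
        · refine ⟨Or.inr h5, ?_⟩
          rintro (h7 | h7)
          · exact h3 h7 h5
          · exact h6 h7
    rw [h1]
    refine Decomp.union h.decp ?_ (Finset.disjoint_of_subset_left Finset.sdiff_subset
      (Finset.disjoint_of_subset_right Finset.sdiff_subset hdE))
    rw [himg]
    exact hb.rest
  · intro f hf
    have hfc := Finset.mem_powersetCard.mp hf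
    have hdis : Disjoint (Pp.filter (fun Y => Y ∩ W = f))
        (((Q.powersetCard r).image st).filter (fun Y => Y ∩ W = f)) := by
      rw [Finset.disjoint_left]
      intro Y hY hY'
      rw [Finset.mem_filter] at hY hY'
      obtain ⟨g, hg, rfl⟩ := Finset.mem_image.mp hY'.1
      obtain ⟨h1, h2, h3⟩ := hb.st_card g hg
      have hgc := (Finset.mem_powersetCard.mp hg)
      have h5 : ∃ x ∈ st g, x ∉ g := by
        by_contra hcon
        push Not at hcon
        have := Finset.card_le_card hcon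
        omega
      obtain ⟨x, hx, hxg⟩ := h5
      have hxN := h3 (Finset.mem_sdiff.mpr ⟨hx, hxg⟩)
      rcases Finset.mem_union.mp ((h.pend _ (Finset.mem_union_left _ hY.1)).2.2.1 hx) with h4 | h4
      · exact hN'W x hxN h4
      · exact hN'N x hxN h4
    rw [Finset.filter_union, Finset.card_union_of_disjoint hdis]
    have h6 : (((Q.powersetCard r).image st).filter (fun Y => Y ∩ W = f)).card =
        if f ⊆ Q then 1 else 0 := by
      split_ifs with hfQ
      · rw [Finset.card_eq_one]
        refine ⟨st f, ?_⟩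
        ext Y
        rw [Finset.mem_filter, Finset.mem_singleton, Finset.mem_image]
        constructor
        · rintro ⟨⟨g, hg, rfl⟩, hgf⟩
          rw [htr g hg] at hgf
          rw [hgf]
        · rintro rfl
          have hfQ' : f ∈ Q.powersetCard r := Finset.mem_powersetCard.mpr ⟨hfQ, hfc.2⟩
          exact ⟨⟨f, hfQ', rfl⟩, htr f hfQ'⟩
      · rw [Finset.card_eq_zero, Finset.filter_eq_empty_iff]
        intro Y hY hYf
        obtain ⟨g, hg, rfl⟩ := Finset.mem_image.mp hY
        rw [htr g hg] at hYf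
        rw [← hYf] at hfQ
        exact hfQ (Finset.mem_powersetCard.mp hg).1
    rw [h6]
    have h7 := h.cnt f hf
    split_ifs at h6 ⊢ <;> push_cast <;> linarith

/-- adding a transformer between a positive and a negative pending stub -/
theorem AbsSt.dgad {q r : ℕ} {W N : Finset V} {E Pp Pm : Finset (Finset V)}
    {J : Finset V → ℤ} (h : AbsSt q r W N E Pp Pm J) {Y₁ Y₂ f N' : Finset V}
    {E' : Finset (Finset V)} (h1 : Y₁ ∈ Pp) (h2 : Y₂ ∈ Pm) (hf1 : Y₁ ∩ W = f)
    (hf2 : Y₂ ∩ W = f) (hN' : Disjoint N' (W ∪ N))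
    (he : ∀ γ ∈ E', γ.card = r ∧ γ ⊆ Y₁ ∪ Y₂ ∪ N' ∧ ¬ γ ⊆ Y₁ ∪ Y₂)
    (hd1 : Decomp q r (E' ∪ stub r Y₁ f)) (hd2 : Decomp q r (E' ∪ stub r Y₂ f)) :
    AbsSt q r W (N ∪ N') (E ∪ E') (Pp.erase Y₁) (Pm.erase Y₂) J := by
  have hY12 : Y₁ ∪ Y₂ ⊆ W ∪ N := Finset.union_subset
    (h.pend Y₁ (Finset.mem_union_left _ h1)).2.2.1 (h.pend Y₂ (Finset.mem_union_right _ h2)).2.2.1
  have hnew : ∀ γ ∈ E', ∃ x ∈ γ, x ∈ N' ∧ x ∉ W ∪ N := by
    intro γ hγ
    obtain ⟨-, h3, h4⟩ := he γ hγ
    by_contra hcon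
    push Not at hcon
    apply h4
    intro x hx
    rcases Finset.mem_union.mp (h3 hx) with h5 | h5
    · exact h5
    · exact absurd (hcon x hx h5) (Finset.disjoint_left.mp hN' h5)
  have hdE : Disjoint E E' := by
    rw [Finset.disjoint_left]
    intro γ hγ hγ'
    obtain ⟨x, hx, hxN', hx2⟩ := hnew γ hγ'
    exact hx2 ((h.edges γ hγ).2.1 hx)
  have hsu : ∀ P ⊆ Pp ∪ Pm, abs_su r W P ⊆ E := by
    intro P hP γ hγ
    unfold abs_su at hγ
    rw [Finset.mem_biUnion] at hγ
    obtain ⟨Y, hY, hγY⟩ := hγ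
    exact (h.pend Y (hP hY)).2.2.2 hγY
  have key : ∀ P ⊆ Pp ∪ Pm, ∀ Y ∈ P, Y ∩ W = f → Decomp q r (E \ abs_su r W P) →
      Decomp q r (E' ∪ stub r Y f) → Decomp q r ((E ∪ E') \ abs_su r W (P.erase Y)) := by
    intro P hP Y hY hYf hdec hdec'
    have hYE : stub r Y f ⊆ E := by
      rw [← hYf]; exact (h.pend Y (hP hY)).2.2.2
    have h3 : (E ∪ E') \ abs_su r W (P.erase Y) = (E \ abs_su r W P) ∪ (E' ∪ stub r Y f) := by
      have h4 := Finset.disjoint_left.mp hdE
      ext γ
      simp only [Finset.mem_sdiff, Finset.mem_union, abs_su, Finset.mem_biUnion,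
        Finset.mem_erase]
      constructor
      · rintro ⟨h5 | h5, h6⟩
        · by_cases h7 : ∃ Z ∈ P, γ ∈ stub r Z (Z ∩ W)
          · obtain ⟨Z, hZ, hγZ⟩ := h7
            by_cases hZY : Z = Y
            · right; right; rw [hZY, hYf] at hγZ; exact hγZ
            · exact absurd ⟨Z, ⟨hZY, hZ⟩, hγZ⟩ h6
          · left; exact ⟨h5, h7⟩
        · right; left; exact h5
      · rintro (⟨h5, h6⟩ | h5 | h5)
        · refine ⟨Or.inl h5, ?_⟩
          rintro ⟨Z, hZ, hγZ⟩
          exact h6 ⟨Z, hZ.2, hγZ⟩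
        · refine ⟨Or.inr h5, ?_⟩
          rintro ⟨Z, hZ, hγZ⟩
          exact h4 ((h.pend Z (hP hZ.2)).2.2.2 hγZ) h5
        · refine ⟨Or.inl (hYE h5), ?_⟩
          rintro ⟨Z, hZ, hγZ⟩
          refine Finset.disjoint_left.mp (h.disj Y (hP hY) Z (hP hZ.2) (fun h => hZ.1 h.symm))
            ?_ hγZ
          rw [hYf]; exact h5
    rw [h3]
    refine Decomp.union hdec hdec' ?_
    rw [Finset.disjoint_union_right]
    refine ⟨Finset.disjoint_of_subset_left Finset.sdiff_subset hdE, ?_⟩
    rw [Finset.disjoint_left]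
    intro γ hγ hγ'
    rw [Finset.mem_sdiff] at hγ
    apply hγ.2
    unfold abs_su
    rw [Finset.mem_biUnion]
    exact ⟨Y, hY, by rw [hYf]; exact hγ'⟩
  refine ⟨?_, ?_, ?_, ?_, ?_, ?_, ?_⟩
  · intro γ hγ
    rcases Finset.mem_union.mp hγ with hγ | hγ
    · obtain ⟨h1, h2, h3⟩ := h.edges γ hγ
      exact ⟨h1, h2.trans (Finset.union_subset_union_right Finset.subset_union_left), h3⟩
    · obtain ⟨h3, h4, h5⟩ := he γ hγ
      refine ⟨h3, ?_, ?_⟩
      · intro x hx
        rcases Finset.mem_union.mp (h4 hx) with h6 | h6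
        · rcases Finset.mem_union.mp (hY12 h6) with h7 | h7
          · exact Finset.mem_union_left _ h7
          · exact Finset.mem_union_right _ (Finset.mem_union_left _ h7)
        · exact Finset.mem_union_right _ (Finset.mem_union_right _ h6)
      · intro hγW
        obtain ⟨x, hx, -, hx2⟩ := hnew γ hγ
        exact hx2 (Finset.mem_union_left _ (hγW hx))
  · intro Y hY
    have hY' : Y ∈ Pp ∪ Pm := by
      rcases Finset.mem_union.mp hY with h3 | h3
      · exact Finset.mem_union_left _ (Finset.mem_of_mem_erase h3)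
      · exact Finset.mem_union_right _ (Finset.mem_of_mem_erase h3)
    obtain ⟨h3, h4, h5, h6⟩ := h.pend Y hY'
    exact ⟨h3, h4, h5.trans (Finset.union_subset_union_right Finset.subset_union_left),
      h6.trans Finset.subset_union_left⟩
  · intro Y hY Y' hY' hne
    have hsub : Pp.erase Y₁ ∪ Pm.erase Y₂ ⊆ Pp ∪ Pm :=
      Finset.union_subset_union (Finset.erase_subset _ _) (Finset.erase_subset _ _)
    exact h.disj Y (hsub hY) Y' (hsub hY') hne
  · intro Y hY Y' hY'
    exact h.inter Y (Finset.mem_of_mem_erase hY) Y' (Finset.mem_of_mem_erase hY')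
  · exact key Pm Finset.subset_union_right Y₂ h2 hf2 h.decm hd2
  · exact key Pp Finset.subset_union_left Y₁ h1 hf1 h.decp hd1
  · intro g hg
    rw [← h.cnt g hg]
    by_cases hgf : f = g
    · subst hgf
      have h3 : (Pp.erase Y₁).filter (fun Y => Y ∩ W = f) =
          (Pp.filter (fun Y => Y ∩ W = f)).erase Y₁ := by
        rw [Finset.filter_erase]
      have h4 : (Pm.erase Y₂).filter (fun Y => Y ∩ W = f) =
          (Pm.filter (fun Y => Y ∩ W = f)).erase Y₂ := by
        rw [Finset.filter_erase]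
      have h5 : Y₁ ∈ Pp.filter (fun Y => Y ∩ W = f) := Finset.mem_filter.mpr ⟨h1, hf1⟩
      have h6 : Y₂ ∈ Pm.filter (fun Y => Y ∩ W = f) := Finset.mem_filter.mpr ⟨h2, hf2⟩
      rw [h3, h4, Finset.card_erase_of_mem h5, Finset.card_erase_of_mem h6]
      have h7 := Finset.card_pos.mpr ⟨Y₁, h5⟩
      have h8 := Finset.card_pos.mpr ⟨Y₂, h6⟩
      push_cast [Nat.cast_sub h7, Nat.cast_sub h8]
      omega
    · have h3 : (Pp.erase Y₁).filter (fun Y => Y ∩ W = g) = Pp.filter (fun Y => Y ∩ W = g) := by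
        rw [Finset.filter_erase, Finset.erase_eq_of_notMem]
        intro h5
        exact hgf (hf1.symm.trans (Finset.mem_filter.mp h5).2)
      have h4 : (Pm.erase Y₂).filter (fun Y => Y ∩ W = g) = Pm.filter (fun Y => Y ∩ W = g) := by
        rw [Finset.filter_erase, Finset.erase_eq_of_notMem]
        intro h5
        exact hgf (hf2.symm.trans (Finset.mem_filter.mp h5).2)
      rw [h3, h4]

/-- the final state gives an absorber -/
theorem AbsSt.final {q r : ℕ} {W N : Finset V} {E Pp : Finset (Finset V)}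
    {J : Finset V → ℤ} (h : AbsSt q r W N E Pp ∅ J) {H : Finset (Finset V)}
    (hH : H ⊆ W.powersetCard r)
    (hJ : ∀ f ∈ W.powersetCard r, J f = if f ∈ H then 1 else 0) : IsAbs q r W H N E := by
  have hcnt : ∀ f ∈ W.powersetCard r, (Pp.filter (fun Y => Y ∩ W = f)).card =
      if f ∈ H then 1 else 0 := by
    intro f hf
    have h1 := h.cnt f hf
    rw [hJ f hf] at h1
    simp only [Finset.filter_empty, Finset.card_empty, Nat.cast_zero, sub_zero] at h1
    split_ifs at h1 ⊢
    · exact_mod_cast h1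
    · exact_mod_cast h1
  have hp : ∀ Y ∈ Pp, Y ∩ W ∈ W.powersetCard r := fun Y hY =>
    Finset.mem_powersetCard.mpr ⟨Finset.inter_subset_right,
      (h.pend Y (Finset.mem_union_left _ hY)).2.1⟩
  have hinj : ∀ Y ∈ Pp, ∀ Y' ∈ Pp, Y ∩ W = Y' ∩ W → Y = Y' := by
    intro Y hY Y' hY' he
    have h1 := hcnt _ (hp Y hY)
    have h2 : (Pp.filter (fun Z => Z ∩ W = Y ∩ W)).card ≤ 1 := by
      rw [h1]; split_ifs <;> omega
    exact Finset.card_le_one.mp h2 Y (Finset.mem_filter.mpr ⟨hY, rfl⟩) Y'
      (Finset.mem_filter.mpr ⟨hY', he.symm⟩)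
  refine ⟨h.edges, ?_, ?_⟩
  · have := h.decm
    simpa [abs_su] using this
  · have h1 : E ∪ H = (E \ abs_su r W Pp) ∪ Pp.biUnion (fun Y => Y.powersetCard r) := by
      ext γ
      simp only [Finset.mem_union, Finset.mem_sdiff, Finset.mem_biUnion, abs_su]
      constructor
      · rintro (h2 | h2)
        · by_cases h3 : ∃ Y ∈ Pp, γ ∈ stub r Y (Y ∩ W)
          · obtain ⟨Y, hY, hγ⟩ := h3
            right
            exact ⟨Y, hY, Finset.mem_of_mem_erase hγ⟩
          · left; exact ⟨h2, h3⟩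
        · right
          have h3 := hcnt γ (hH h2)
          rw [if_pos h2] at h3
          obtain ⟨Y, hY⟩ := Finset.card_pos.mp (by omega : 0 < (Pp.filter (fun Y => Y ∩ W = γ)).card)
          rw [Finset.mem_filter] at hY
          refine ⟨Y, hY.1, Finset.mem_powersetCard.mpr ⟨?_, (Finset.mem_powersetCard.mp (hH h2)).2⟩⟩
          rw [← hY.2]; exact Finset.inter_subset_left
      · rintro (⟨h2, -⟩ | ⟨Y, hY, hγ⟩)
        · left; exact h2
        · by_cases h3 : γ = Y ∩ W
          · right
            have h4 := hcnt γ (h3 ▸ hp Y hY)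
            by_contra hcon
            rw [if_neg hcon, Finset.card_eq_zero, Finset.filter_eq_empty_iff] at h4
            exact h4 hY h3.symm
          · left
            exact (h.pend Y (Finset.mem_union_left _ hY)).2.2.2
              (Finset.mem_erase.mpr ⟨h3, hγ⟩)
    rw [h1]
    refine Decomp.union h.decp (Decomp.biUnion _ _ (fun Y hY => Decomp.single q r Y
      (h.pend Y (Finset.mem_union_left _ hY)).1) ?_) ?_
    · intro Y hY Y' hY' hne
      rw [Finset.disjoint_left]
      intro γ hγ hγ'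
      by_cases h3 : γ = Y ∩ W
      · apply hne
        apply hinj Y hY Y' hY'
        rw [← h3]
        refine Finset.eq_of_subset_of_card_le ?_ ?_
        · refine Finset.subset_inter (Finset.mem_powersetCard.mp hγ').1 ?_
          rw [h3]; exact Finset.inter_subset_right
        · rw [(h.pend Y' (Finset.mem_union_left _ hY')).2.1, (Finset.mem_powersetCard.mp hγ).2]
      · by_cases h4 : γ = Y' ∩ W
        · apply hne
          symm
          apply hinj Y' hY' Y hY
          rw [← h4]
          refine Finset.eq_of_subset_of_card_le ?_ ?_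
          · refine Finset.subset_inter (Finset.mem_powersetCard.mp hγ).1 ?_
            rw [h4]; exact Finset.inter_subset_right
          · rw [(h.pend Y (Finset.mem_union_left _ hY)).2.1, (Finset.mem_powersetCard.mp hγ').2]
        · exact Finset.disjoint_left.mp (h.disj Y (Finset.mem_union_left _ hY) Y'
            (Finset.mem_union_left _ hY') hne) (Finset.mem_erase.mpr ⟨h3, hγ⟩)
            (Finset.mem_erase.mpr ⟨h4, hγ'⟩)
    · rw [Finset.disjoint_left]
      intro γ hγ hγ'
      rw [Finset.mem_sdiff] at hγ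
      rw [Finset.mem_biUnion] at hγ'
      obtain ⟨Y, hY, hγY⟩ := hγ'
      by_cases h3 : γ = Y ∩ W
      · apply (h.edges γ hγ.1).2.2
        rw [h3]; exact Finset.inter_subset_right
      · apply hγ.2
        unfold abs_su
        rw [Finset.mem_biUnion]
        exact ⟨Y, hY, Finset.mem_erase.mpr ⟨h3, hγY⟩⟩

end AbsState

/-- the function of a list of signed sets -/
def abs_J {V : Type} [DecidableEq V] (l : List (Finset V × Bool)) (f : Finset V) : ℤ :=
  (l.map (fun x => if f ⊆ x.1 then (if x.2 = true then (1 : ℤ) else -1) else 0)).sum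

theorem abs_J_nil {V : Type} [DecidableEq V] (f : Finset V) : abs_J [] f = 0 := rfl

theorem abs_J_cons {V : Type} [DecidableEq V] (x : Finset V × Bool) (l : List (Finset V × Bool))
    (f : Finset V) : abs_J (x :: l) f =
      (if f ⊆ x.1 then (if x.2 = true then (1 : ℤ) else -1) else 0) + abs_J l f := by
  unfold abs_J
  rw [List.map_cons, List.sum_cons]

theorem abs_J_append {V : Type} [DecidableEq V] (l l' : List (Finset V × Bool))
    (f : Finset V) : abs_J (l ++ l') f = abs_J l f + abs_J l' f := by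
  unfold abs_J
  rw [List.map_append, List.sum_append]

theorem abs_J_neg {V : Type} [DecidableEq V] (l : List (Finset V × Bool)) (f : Finset V) :
    abs_J (l.map (fun x => (x.1, !x.2))) f = - abs_J l f := by
  induction l with
  | nil => simp [abs_J_nil]
  | cons x l ih =>
    rw [List.map_cons, abs_J_cons, abs_J_cons, ih]
    rcases x with ⟨Q, b⟩
    cases b <;> simp <;> split_ifs <;> ring

/-- existence of a signed decomposition -/
theorem abs_list (q r : ℕ) (hq : r < q) {V : Type} [Fintype V] [DecidableEq V] (W : Finset V)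
    (hW : q + r ≤ W.card) (H : Finset (Finset V)) (hH : H ⊆ W.powersetCard r)
    (hd : Divis q r H) :
    ∃ l : List (Finset V × Bool), (∀ x ∈ l, x.1 ⊆ W ∧ x.1.card = q) ∧
      ∀ f ∈ W.powersetCard r, abs_J l f = if f ∈ H then 1 else 0 := by
  have h1 := gjw (R := ℤ) r q hq.le W hW (fun e => if e ∈ H then 1 else 0) (by
    intro e he
    by_contra hcon
    apply he
    rw [if_neg]
    exact fun h => hcon (hH h)) (by
    intro T hT
    have h2 : dsum r (fun e => if e ∈ H then (1 : ℤ) else 0) T = ((dg H T : ℕ) : ℤ) := by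
      unfold dsum dg
      rw [Finset.card_filter, Nat.cast_sum]
      rw [Finset.sum_filter]
      rw [← Finset.sum_filter_add_sum_filter_not (univ.powersetCard r) (fun e => e ∈ H)]
      have h3 : ∑ x ∈ (univ.powersetCard r).filter (fun e => ¬ e ∈ H),
          (if T ⊆ x then (if x ∈ H then (1 : ℤ) else 0) else 0) = 0 := by
        refine Finset.sum_eq_zero fun x hx => ?_
        rw [if_neg (Finset.mem_filter.mp hx).2]
        simp
      rw [h3, add_zero]
      have h4 : (univ.powersetCard r).filter (fun e => e ∈ H) = H := by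
        ext e
        rw [Finset.mem_filter, Finset.mem_powersetCard]
        constructor
        · exact fun h => h.2
        · intro h
          exact ⟨⟨Finset.subset_univ _, (Finset.mem_powersetCard.mp (hH h)).2⟩, h⟩
      rw [h4]
      refine Finset.sum_congr rfl fun x hx => ?_
      rw [if_pos hx]
      split_ifs <;> simp
    rw [h2]
    rcases Nat.lt_or_ge T.card r with h5 | h5
    · exact_mod_cast hd T h5
    · have h6 : r - T.card = 0 := by omega
      rw [h6, Nat.choose_zero_right]
      simp)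
  unfold spn at h1
  rw [← Submodule.mem_toAddSubgroup, Submodule.span_int_eq_addSubgroupClosure] at h1
  have key : ∀ g ∈ AddSubgroup.closure (ind ℤ r '' ((W.powersetCard q : Finset (Finset V)) :
      Set (Finset V))), ∃ l : List (Finset V × Bool), (∀ x ∈ l, x.1 ⊆ W ∧ x.1.card = q) ∧
      ∀ f ∈ W.powersetCard r, abs_J l f = g f := by
    intro g hg
    induction hg using AddSubgroup.closure_induction with
    | mem g hg =>
      obtain ⟨Q, hQ, rfl⟩ := hg
      rw [Finset.mem_coe, Finset.mem_powersetCard] at hQ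
      refine ⟨[(Q, true)], ?_, ?_⟩
      · intro x hx
        rw [List.mem_singleton] at hx
        rw [hx]; exact hQ
      · intro f hf
        rw [abs_J_cons, abs_J_nil]
        unfold ind
        have := (Finset.mem_powersetCard.mp hf).2
        simp [this, Finset.mem_powersetCard]
    | zero => exact ⟨[], by simp, by simp [abs_J_nil]⟩
    | add g g' _ _ ih ih' =>
      obtain ⟨l, h2, h3⟩ := ih
      obtain ⟨l', h2', h3'⟩ := ih'
      refine ⟨l ++ l', ?_, ?_⟩
      · intro x hx
        rcases List.mem_append.mp hx with h | h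
        · exact h2 x h
        · exact h2' x h
      · intro f hf
        rw [abs_J_append, h3 f hf, h3' f hf]; rfl
    | neg g _ ih =>
      obtain ⟨l, h2, h3⟩ := ih
      refine ⟨l.map (fun x => (x.1, !x.2)), ?_, ?_⟩
      · intro x hx
        obtain ⟨y, hy, rfl⟩ := List.mem_map.mp hx
        exact h2 y hy
      · intro f hf
        rw [abs_J_neg, h3 f hf]; rfl
  exact key _ h1

/-- uniform bound for the length -/
theorem abs_coef (q r wmax : ℕ) (hq : r < q) : ∃ M : ℕ, ∀ (V : Type) [Fintype V] [DecidableEq V]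
    (W : Finset V), q + r ≤ W.card → W.card ≤ wmax → ∀ H ⊆ W.powersetCard r, Divis q r H →
    ∃ l : List (Finset V × Bool), l.length ≤ M ∧ (∀ x ∈ l, x.1 ⊆ W ∧ x.1.card = q) ∧
      ∀ f ∈ W.powersetCard r, abs_J l f = if f ∈ H then 1 else 0 := by
  classical
  have h0 : ∀ (w : ℕ) (H : Finset (Finset (Fin w))), ∃ m : ℕ, q + r ≤ w →
      H ⊆ (univ : Finset (Fin w)).powersetCard r → Divis q r H →
      ∃ l : List (Finset (Fin w) × Bool), l.length ≤ m ∧ (∀ x ∈ l, x.1.card = q) ∧
      ∀ f ∈ (univ : Finset (Fin w)).powersetCard r, abs_J l f = if f ∈ H then 1 else 0 := by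
    intro w H
    by_cases h : q + r ≤ w ∧ H ⊆ (univ : Finset (Fin w)).powersetCard r ∧ Divis q r H
    · obtain ⟨l, h1, h2⟩ := abs_list q r hq (univ : Finset (Fin w)) (by simpa using h.1) H h.2.1
        h.2.2
      exact ⟨l.length, fun _ _ _ => ⟨l, le_rfl, fun x hx => (h1 x hx).2, h2⟩⟩
    · exact ⟨0, fun a b c => absurd ⟨a, b, c⟩ h⟩
  choose m hm using h0
  refine ⟨∑ w ∈ Finset.range (wmax + 1), ∑ H : Finset (Finset (Fin w)), m w H, ?_⟩
  intro V _ _ W hW hWm H hH hd
  set w := W.card with hw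
  let ι : Fin w ↪ V := (W.equivFin.symm.toEmbedding).trans (Function.Embedding.subtype _)
  have hι : ∀ i, ι i ∈ W := fun i => (W.equivFin.symm i).2
  have hιs : ∀ x ∈ W, ∃ i, ι i = x := by
    intro x hx
    refine ⟨W.equivFin ⟨x, hx⟩, ?_⟩
    show ((W.equivFin.symm (W.equivFin ⟨x, hx⟩) : W) : V) = x
    rw [Equiv.symm_apply_apply]
  let H₀ : Finset (Finset (Fin w)) := univ.filter (fun e => e.map ι ∈ H)
  have hmap : ∀ e ⊆ W, ∃ e₀ : Finset (Fin w), e₀.map ι = e := by
    intro e he
    refine ⟨univ.filter (fun i => ι i ∈ e), ?_⟩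
    ext x
    rw [Finset.mem_map]
    constructor
    · rintro ⟨i, hi, rfl⟩
      exact (Finset.mem_filter.mp hi).2
    · intro hx
      obtain ⟨i, rfl⟩ := hιs x (he hx)
      exact ⟨i, Finset.mem_filter.mpr ⟨Finset.mem_univ _, hx⟩, rfl⟩
  have hH₀ : H₀ ⊆ (univ : Finset (Fin w)).powersetCard r := by
    intro e he
    rw [Finset.mem_filter] at he
    rw [Finset.mem_powersetCard]
    refine ⟨Finset.subset_univ _, ?_⟩
    rw [← Finset.card_map ι]
    exact (Finset.mem_powersetCard.mp (hH he.2)).2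
  have hd₀ : Divis q r H₀ := by
    intro T hT
    have h1 : dg H₀ T = dg H (T.map ι) := by
      unfold dg
      refine Finset.card_bij (fun e _ => e.map ι) ?_ ?_ ?_
      · intro e he
        rw [Finset.mem_filter] at he
        rw [Finset.mem_filter]
        exact ⟨(Finset.mem_filter.mp he.1).2, Finset.map_subset_map.mpr he.2⟩
      · intro e _ e' _ h
        exact Finset.map_injective ι h
      · intro e he
        rw [Finset.mem_filter] at he
        obtain ⟨e₀, rfl⟩ := hmap e (Finset.mem_powersetCard.mp (hH he.1)).1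
        exact ⟨e₀, Finset.mem_filter.mpr ⟨Finset.mem_filter.mpr ⟨Finset.mem_univ _, he.1⟩,
          Finset.map_subset_map.mp he.2⟩, rfl⟩
    rw [h1]
    have h2 := hd (T.map ι) (by rw [Finset.card_map]; exact hT)
    rwa [Finset.card_map] at h2
  obtain ⟨l, h1, h2, h3⟩ := hm w H₀ hW hH₀ hd₀
  refine ⟨l.map (fun x => (x.1.map ι, x.2)), ?_, ?_, ?_⟩
  · rw [List.length_map]
    refine h1.trans ?_
    calc m w H₀ ≤ ∑ H : Finset (Finset (Fin w)), m w H :=
          Finset.single_le_sum (f := fun H => m w H) (fun _ _ => Nat.zero_le _)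
            (Finset.mem_univ H₀)
      _ ≤ _ := Finset.single_le_sum (f := fun w => ∑ H : Finset (Finset (Fin w)), m w H)
            (fun _ _ => Nat.zero_le _) (Finset.mem_range.mpr (by omega))
  · intro x hx
    obtain ⟨y, hy, rfl⟩ := List.mem_map.mp hx
    refine ⟨?_, ?_⟩
    · intro z hz
      obtain ⟨i, -, rfl⟩ := Finset.mem_map.mp hz
      exact hι i
    · rw [Finset.card_map]; exact h2 y hy
  · intro f hf
    obtain ⟨f₀, rfl⟩ := hmap f (Finset.mem_powersetCard.mp hf).1
    have h4 := h3 f₀ (Finset.mem_powersetCard.mpr ⟨Finset.subset_univ _, by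
      have := (Finset.mem_powersetCard.mp hf).2
      rwa [Finset.card_map] at this⟩)
    have h5 : abs_J (l.map (fun x => (x.1.map ι, x.2))) (f₀.map ι) = abs_J l f₀ := by
      unfold abs_J
      rw [List.map_map]
      congr 1
      refine List.map_congr_left fun x _ => ?_
      simp only [Function.comp, Finset.map_subset_map]
    rw [h5, h4]
    have h6 : f₀ ∈ H₀ ↔ f₀.map ι ∈ H := by
      show f₀ ∈ univ.filter (fun e => e.map ι ∈ H) ↔ _
      rw [Finset.mem_filter]
      exact ⟨fun h => h.2, fun h => ⟨Finset.mem_univ _, h⟩⟩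
    by_cases h7 : f₀ ∈ H₀
    · rw [if_pos h7, if_pos (h6.mp h7)]
    · rw [if_neg h7, if_neg (fun h => h7 (h6.mpr h))]

theorem abs_cnt_true {V : Type} [Fintype V] [DecidableEq V] (v : ℕ) :
    cnt (fun _ : Fin v → V => True) = (Fintype.card V : ℝ) ^ v := by
  unfold cnt
  rw [Nat.card_congr (Equiv.subtypeUnivEquiv (fun _ => trivial)), Nat.card_eq_fintype_card]
  simp

theorem abs_cnt_zero {V : Type} [Fintype V] [DecidableEq V] (P : (Fin 0 → V) → Prop)
    (h : ∀ τ, P τ) : 1 ≤ cnt P := by
  have h1 : cnt P = cnt (fun _ : Fin 0 → V => True) := by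
    congr 1
    funext τ
    exact propext ⟨fun _ => trivial, fun _ => h τ⟩
  rw [h1, abs_cnt_true]
  simp

theorem abs_image_split {V : Type} [DecidableEq V] {v w : ℕ} (τ : Fin (v + w) → V) :
    univ.image τ = univ.image (fun i => τ (Fin.castAdd w i)) ∪
      univ.image (fun j => τ (Fin.natAdd v j)) := by
  ext x
  simp only [Finset.mem_image, Finset.mem_univ, true_and, Finset.mem_union]
  constructor
  · rintro ⟨i, rfl⟩
    refine Fin.addCases (fun i => ?_) (fun j => ?_) i
    · left; exact ⟨i, rfl⟩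
    · right; exact ⟨j, rfl⟩
  · rintro (⟨i, rfl⟩ | ⟨j, rfl⟩)
    · exact ⟨_, rfl⟩
    · exact ⟨_, rfl⟩

theorem abs_disj_image {V : Type} [DecidableEq V] {v : ℕ} (τ : Fin v → V) (A : Finset V)
    (h : ∀ i, τ i ∉ A) : Disjoint (univ.image τ) A := by
  rw [Finset.disjoint_left]
  intro x hx hxA
  obtain ⟨i, -, rfl⟩ := Finset.mem_image.mp hx
  exact h i hxA

/-- placing the boosters -/
theorem abs_phaseA (q r wmax : ℕ) (hr : 1 ≤ r) (hq : r < q) (m : ℕ) :
    ∃ (v : ℕ) (α : ℝ) (n₀ : ℕ), 0 < α ∧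
    ∀ (V : Type) [Fintype V] [DecidableEq V], n₀ ≤ Fintype.card V →
    ∀ G : Finset (Finset V), Dense q r (cg r) G → ∀ W : Finset V, W.card ≤ wmax →
    ∀ l : List (Finset V × Bool), l.length ≤ m → (∀ x ∈ l, x.1 ⊆ W ∧ x.1.card = q) →
    α * (Fintype.card V : ℝ) ^ v ≤ cnt (fun τ : Fin v → V =>
      ∃ E Pp Pm : Finset (Finset V), E ⊆ G ∧
        AbsSt q r W (Finset.univ.image τ) E Pp Pm (abs_J l) ∧
        Pp.card ≤ m * q.choose r ∧ Pm.card ≤ m * q.choose r) := by
  induction m with
  | zero =>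
    refine ⟨0, 1, 0, one_pos, fun V _ _ _ G _ W _ l hl _ => ?_⟩
    rw [pow_zero, mul_one]
    refine abs_cnt_zero _ fun τ => ⟨∅, ∅, ∅, Finset.empty_subset _, ?_, by simp, by simp⟩
    have : l = [] := List.length_eq_zero_iff.mp (Nat.le_zero.mp hl)
    subst this
    exact AbsSt.zero q r W _
  | succ m ih =>
    obtain ⟨v, α, n₀, hα, hv⟩ := ih
    obtain ⟨vb, αb, nb, hαb, hvb⟩ := boost_rich q r hr hq
    obtain ⟨n₁, hn₁⟩ := exists_nat_ge (2 * ((vb : ℝ) * ((wmax + v : ℕ) : ℝ)) / αb)
    set β := min (αb / 2) 1 with hβ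
    have hβ0 : 0 < β := lt_min (by linarith) one_pos
    refine ⟨v + vb, α * β, max n₀ (max nb n₁), by positivity, ?_⟩
    intro V _ _ hn G hG W hW l hl hlW
    have hn0 : n₀ ≤ Fintype.card V := (le_max_left _ _).trans hn
    have hnb : nb ≤ Fintype.card V := (le_max_left _ _).trans ((le_max_right _ _).trans hn)
    have hn1 : n₁ ≤ Fintype.card V := (le_max_right _ _).trans ((le_max_right _ _).trans hn)
    have hpos : (0 : ℝ) ≤ (Fintype.card V : ℝ) ^ vb := by positivity
    cases l with
    | nil =>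
      have h1 := hv V hn0 G hG W hW [] (by simp) (by simp)
      have h2 := cnt_comp _ (fun _ _ => True) α β hα.le hβ0.le h1 (fun τ _ => by
        rw [abs_cnt_true]
        calc β * (Fintype.card V : ℝ) ^ vb ≤ 1 * (Fintype.card V : ℝ) ^ vb :=
              mul_le_mul_of_nonneg_right (min_le_right _ _) hpos
          _ = _ := one_mul _)
      refine h2.trans (cnt_mono ?_)
      rintro τ ⟨⟨E, Pp, Pm, h3, h4, h5, h6⟩, -⟩
      refine ⟨E, Pp, Pm, h3, h4.mono ?_, h5.trans (Nat.mul_le_mul_right _ (Nat.le_succ m)),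
        h6.trans (Nat.mul_le_mul_right _ (Nat.le_succ m))⟩
      rw [abs_image_split]
      exact Finset.subset_union_left
    | cons x l =>
      have h1 := hv V hn0 G hG W hW l (by simpa using hl)
        (fun y hy => hlW y (List.mem_cons_of_mem _ hy))
      obtain ⟨hxW, hxc⟩ := hlW x List.mem_cons_self
      have h2 := cnt_comp _ (fun (τ : Fin v → V) (τ' : Fin vb → V) =>
          (∃ (E : Finset (Finset V)) (st : Finset V → Finset V),
            E ⊆ G ∧ IsBoost q r x.1 (Finset.univ.image τ') E st) ∧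
          ∀ i, τ' i ∉ W ∪ univ.image τ) α β hα.le hβ0.le h1 (fun τ _ => by
        have h3 := hvb V hnb G hG x.1 hxc
        have h4 := cnt_avoid _ αb (W ∪ univ.image τ) h3 (by
          have h5 : ((W ∪ univ.image τ).card : ℝ) ≤ ((wmax + v : ℕ) : ℝ) := by
            norm_cast
            refine (Finset.card_union_le _ _).trans (Nat.add_le_add hW ?_)
            refine Finset.card_image_le.trans ?_
            simp
          have h6 : 2 * ((vb : ℝ) * ((wmax + v : ℕ) : ℝ)) ≤ αb * (n₁ : ℝ) := by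
            rw [div_le_iff₀ hαb] at hn₁
            linarith
          have h7 : αb * (n₁ : ℝ) ≤ αb * (Fintype.card V : ℝ) :=
            mul_le_mul_of_nonneg_left (by exact_mod_cast hn1) hαb.le
          have h8 : (vb : ℝ) * ((W ∪ univ.image τ).card : ℝ) ≤
              (vb : ℝ) * ((wmax + v : ℕ) : ℝ) := mul_le_mul_of_nonneg_left h5 (by positivity)
          linarith)
        refine le_trans ?_ h4
        exact mul_le_mul_of_nonneg_right (min_le_left _ _) hpos)
      refine h2.trans (cnt_mono ?_)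
      rintro τ ⟨⟨E, Pp, Pm, h3, h4, h5, h6⟩, ⟨E', st, h7, h8⟩, h9⟩
      have hdis := abs_disj_image _ _ h9
      have hrq : r < q := hq
      have hcard : ((x.1.powersetCard r).image st).card ≤ q.choose r := by
        refine Finset.card_image_le.trans ?_
        rw [Finset.card_powersetCard, hxc]
      have hsplit := abs_image_split τ
      have hle : m * q.choose r ≤ (m + 1) * q.choose r := Nat.mul_le_mul_right _ (Nat.le_succ m)
      by_cases hb : x.2 = true
      · refine ⟨E ∪ E', Pp ∪ (x.1.powersetCard r).image st, Pm, Finset.union_subset h3 h7, ?_, ?_,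
          h6.trans hle⟩
        · rw [hsplit]
          refine (h4.boost hrq hxW hdis h8).congr fun f _ => ?_
          rw [abs_J_cons, if_pos hb]; ring
        · refine (Finset.card_union_le _ _).trans ?_
          rw [Nat.succ_mul]
          exact Nat.add_le_add h5 hcard
      · refine ⟨E ∪ E', Pp, Pm ∪ (x.1.powersetCard r).image st, Finset.union_subset h3 h7, ?_,
          h5.trans hle, ?_⟩
        · rw [hsplit]
          refine (h4.swap.boost hrq hxW hdis h8).swap.congr fun f _ => ?_
          rw [abs_J_cons, if_neg hb]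
          split_ifs <;> ring
        · refine (Finset.card_union_le _ _).trans ?_
          rw [Nat.succ_mul]
          exact Nat.add_le_add h6 hcard

/-- placing the transformers -/
theorem abs_phaseB (q r wmax : ℕ) (hr : 1 ≤ r) (hq : r < q) (k : ℕ) : ∀ h : ℕ,
    ∃ (v : ℕ) (α : ℝ) (n₀ : ℕ), 0 < α ∧
    ∀ (V : Type) [Fintype V] [DecidableEq V], n₀ ≤ Fintype.card V →
    ∀ G : Finset (Finset V), Dense q r (cg r) G → ∀ W N : Finset V, W.card ≤ wmax →
    N.card ≤ h → ∀ (E Pp Pm : Finset (Finset V)) (J : Finset V → ℤ), E ⊆ G →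
    AbsSt q r W N E Pp Pm J → Pm.card ≤ k → (∀ f ∈ W.powersetCard r, 0 ≤ J f) →
    α * (Fintype.card V : ℝ) ^ v ≤ cnt (fun τ : Fin v → V =>
      ∃ E' Pp' : Finset (Finset V), E' ⊆ G ∧
        AbsSt q r W (N ∪ Finset.univ.image τ) E' Pp' ∅ J) := by
  induction k with
  | zero =>
    intro h
    refine ⟨0, 1, 0, one_pos, fun V _ _ _ G _ W N _ _ E Pp Pm J hE hst hPm _ => ?_⟩
    rw [pow_zero, mul_one]
    have : Pm = ∅ := Finset.card_eq_zero.mp (Nat.le_zero.mp hPm)
    subst this
    exact abs_cnt_zero _ fun τ => ⟨E, Pp, hE, hst.mono Finset.subset_union_left⟩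
  | succ k ih =>
    intro h
    obtain ⟨vd, αd, nd, hαd, hvd⟩ := dgad_rich q r hr hq
    obtain ⟨v, α, n₀, hα, hv⟩ := ih (h + vd)
    obtain ⟨n₁, hn₁⟩ := exists_nat_ge (2 * ((vd : ℝ) * ((wmax + h : ℕ) : ℝ)) / αd)
    set β := min (αd / 2) 1 with hβ
    have hβ0 : 0 < β := lt_min (by linarith) one_pos
    refine ⟨vd + v, β * α, max n₀ (max nd n₁), by positivity, ?_⟩
    intro V _ _ hn G hG W N hW hN E Pp Pm J hE hst hPm hJ
    have hn0 : n₀ ≤ Fintype.card V := (le_max_left _ _).trans hn
    have hnd : nd ≤ Fintype.card V := (le_max_left _ _).trans ((le_max_right _ _).trans hn)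
    have hn1 : n₁ ≤ Fintype.card V := (le_max_right _ _).trans ((le_max_right _ _).trans hn)
    have hpos : (0 : ℝ) ≤ (Fintype.card V : ℝ) ^ vd := by positivity
    have hNc : ∀ τ : Fin vd → V, (N ∪ univ.image τ).card ≤ h + vd := by
      intro τ
      refine (Finset.card_union_le _ _).trans (Nat.add_le_add hN ?_)
      refine Finset.card_image_le.trans ?_
      simp
    have hfin : ∀ τ : Fin (vd + v) → V,
        (∃ E' Pp' : Finset (Finset V), E' ⊆ G ∧
          AbsSt q r W (N ∪ univ.image (fun i => τ (Fin.castAdd v i)) ∪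
            univ.image (fun j => τ (Fin.natAdd vd j))) E' Pp' ∅ J) →
        ∃ E' Pp' : Finset (Finset V), E' ⊆ G ∧
          AbsSt q r W (N ∪ univ.image τ) E' Pp' ∅ J := by
      rintro τ ⟨E', Pp', h1, h2⟩
      refine ⟨E', Pp', h1, ?_⟩
      rw [abs_image_split, ← Finset.union_assoc]
      exact h2
    rcases Finset.eq_empty_or_nonempty Pm with hPe | ⟨Y₂, hY₂⟩
    · subst hPe
      have h1 : β * (Fintype.card V : ℝ) ^ vd ≤ cnt (fun _ : Fin vd → V => True) := by
        rw [abs_cnt_true]
        calc β * (Fintype.card V : ℝ) ^ vd ≤ 1 * (Fintype.card V : ℝ) ^ vd :=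
              mul_le_mul_of_nonneg_right (min_le_right _ _) hpos
          _ = _ := one_mul _
      have h2 := cnt_comp _ (fun (τ : Fin vd → V) (τ' : Fin v → V) =>
          ∃ E' Pp' : Finset (Finset V), E' ⊆ G ∧
            AbsSt q r W (N ∪ univ.image τ ∪ univ.image τ') E' Pp' ∅ J) β α hβ0.le hα.le h1
        (fun τ _ => hv V hn0 G hG W (N ∪ univ.image τ) hW (hNc τ) E Pp ∅ J hE
          (hst.mono Finset.subset_union_left) (by simp) hJ)
      refine h2.trans (cnt_mono ?_)
      rintro τ ⟨-, h3⟩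
      exact hfin τ h3
    · set f := Y₂ ∩ W with hf
      have hY₂p := hst.pend Y₂ (Finset.mem_union_right _ hY₂)
      have hfW : f ∈ W.powersetCard r :=
        Finset.mem_powersetCard.mpr ⟨Finset.inter_subset_right, hY₂p.2.1⟩
      obtain ⟨Y₁, hY₁⟩ : ∃ Y₁, Y₁ ∈ Pp.filter (fun Y => Y ∩ W = f) := by
        have h1 := hst.cnt f hfW
        have h2 := hJ f hfW
        have h3 : 0 < (Pm.filter (fun Y => Y ∩ W = f)).card :=
          Finset.card_pos.mpr ⟨Y₂, Finset.mem_filter.mpr ⟨hY₂, rfl⟩⟩
        have h4 : 0 < (Pp.filter (fun Y => Y ∩ W = f)).card := by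
          have : (0 : ℤ) < (((Pm.filter (fun Y => Y ∩ W = f)).card : ℕ) : ℤ) := by
            exact_mod_cast h3
          have : (0 : ℤ) < (((Pp.filter (fun Y => Y ∩ W = f)).card : ℕ) : ℤ) := by omega
          exact_mod_cast this
        exact Finset.card_pos.mp h4
      rw [Finset.mem_filter] at hY₁
      obtain ⟨hY₁, hY₁f⟩ := hY₁
      have hY₁p := hst.pend Y₁ (Finset.mem_union_left _ hY₁)
      have hinter : Y₁ ∩ Y₂ = f := by
        apply Finset.Subset.antisymm
        · intro x hx
          have hxW := hst.inter Y₁ hY₁ Y₂ hY₂ hx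
          exact Finset.mem_inter.mpr ⟨(Finset.mem_inter.mp hx).2, hxW⟩
        · intro x hx
          refine Finset.mem_inter.mpr ⟨?_, ?_⟩
          · rw [← hY₁f] at hx; exact (Finset.mem_inter.mp hx).1
          · exact (Finset.mem_inter.mp hx).1
      have h1 : β * (Fintype.card V : ℝ) ^ vd ≤ cnt (fun τ : Fin vd → V =>
          (∃ E : Finset (Finset V), E ⊆ G ∧
            (∀ γ ∈ E, γ.card = r ∧ γ ⊆ Y₁ ∪ Y₂ ∪ Finset.univ.image τ ∧ ¬ γ ⊆ Y₁ ∪ Y₂) ∧
            Decomp q r (E ∪ stub r Y₁ f) ∧ Decomp q r (E ∪ stub r Y₂ f)) ∧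
          ∀ i, τ i ∉ W ∪ N) := by
        have h3 := hvd V hnd G hG Y₁ Y₂ f hY₁p.1 hY₂p.1 hY₂p.2.1 hinter
        have h4 := cnt_avoid _ αd (W ∪ N) h3 (by
          have h5 : ((W ∪ N).card : ℝ) ≤ ((wmax + h : ℕ) : ℝ) := by
            norm_cast
            exact (Finset.card_union_le _ _).trans (Nat.add_le_add hW hN)
          have h6 : 2 * ((vd : ℝ) * ((wmax + h : ℕ) : ℝ)) ≤ αd * (n₁ : ℝ) := by
            rw [div_le_iff₀ hαd] at hn₁
            linarith
          have h7 : αd * (n₁ : ℝ) ≤ αd * (Fintype.card V : ℝ) :=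
            mul_le_mul_of_nonneg_left (by exact_mod_cast hn1) hαd.le
          have h8 : (vd : ℝ) * ((W ∪ N).card : ℝ) ≤
              (vd : ℝ) * ((wmax + h : ℕ) : ℝ) := mul_le_mul_of_nonneg_left h5 (by positivity)
          linarith)
        refine le_trans ?_ h4
        exact mul_le_mul_of_nonneg_right (min_le_left _ _) hpos
      have h2 := cnt_comp _ (fun (τ : Fin vd → V) (τ' : Fin v → V) =>
          ∃ E' Pp' : Finset (Finset V), E' ⊆ G ∧
            AbsSt q r W (N ∪ univ.image τ ∪ univ.image τ') E' Pp' ∅ J) β α hβ0.le hα.le h1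
        (fun τ hτ => by
          obtain ⟨⟨E', h3, h4, h5, h6⟩, h7⟩ := hτ
          have hdis := abs_disj_image _ _ h7
          have h8 := hst.dgad hY₁ hY₂ hY₁f hf.symm hdis h4 h5 h6
          refine hv V hn0 G hG W (N ∪ univ.image τ) hW (hNc τ) (E ∪ E') (Pp.erase Y₁)
            (Pm.erase Y₂) J (Finset.union_subset hE h3) h8 ?_ hJ
          rw [Finset.card_erase_of_mem hY₂]
          omega)
      refine h2.trans (cnt_mono ?_)
      rintro τ ⟨-, h3⟩
      exact hfin τ h3

theorem abs_rich (q r wmax : ℕ) (hr : 1 ≤ r) (hq : r < q) :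
    ∃ (v : ℕ) (α : ℝ) (n₀ : ℕ), 0 < α ∧
    ∀ (V : Type) [Fintype V] [DecidableEq V], n₀ ≤ Fintype.card V →
    ∀ G : Finset (Finset V), Dense q r (cg r) G → ∀ W : Finset V, q + r ≤ W.card →
    W.card ≤ wmax → ∀ H ⊆ W.powersetCard r, Divis q r H →
    α * (Fintype.card V : ℝ) ^ v ≤ cnt (fun τ : Fin v → V =>
      ∃ E : Finset (Finset V), E ⊆ G ∧ IsAbs q r W H (Finset.univ.image τ) E) := by
  obtain ⟨M, hM⟩ := abs_coef q r wmax hq
  obtain ⟨v, α, n₀, hα, hv⟩ := abs_phaseA q r wmax hr hq M
  obtain ⟨v', α', n₀', hα', hv'⟩ := abs_phaseB q r wmax hr hq (M * q.choose r) v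
  refine ⟨v + v', α * α', max n₀ n₀', by positivity, ?_⟩
  intro V _ _ hn G hG W hW hWm H hH hd
  obtain ⟨l, h1, h2, h3⟩ := hM V W hW hWm H hH hd
  have h4 := hv V ((le_max_left _ _).trans hn) G hG W hWm l h1 h2
  have h5 := cnt_comp _ (fun (τ : Fin v → V) (τ' : Fin v' → V) =>
      ∃ E' Pp' : Finset (Finset V), E' ⊆ G ∧
        AbsSt q r W (univ.image τ ∪ univ.image τ') E' Pp' ∅ (abs_J l)) α α' hα.le hα'.le h4
    (fun τ hτ => by
      obtain ⟨E, Pp, Pm, h6, h7, h8, h9⟩ := hτ
      refine hv' V ((le_max_right _ _).trans hn) G hG W (univ.image τ) hWm ?_ E Pp Pm _ h6 h7 h9 ?_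
      · refine Finset.card_image_le.trans ?_
        simp
      · intro f hf
        rw [h3 f hf]
        split_ifs <;> norm_num)
  refine h5.trans (cnt_mono ?_)
  rintro τ ⟨-, E', Pp', h6, h7⟩
  refine ⟨E', h6, ?_⟩
  rw [abs_image_split]
  exact h7.final hH h3

end Pool.Agent.Des
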