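import Pool.Agent.Lib_helper96.Des.Defs

/-!
# Block BLOWUP: counting blow-ups

For `A ⊆ V^k` with `|A| = a n^k`, the number of `F : Fin k → Fin s → V` all of whose transversals
`(F i (y i))_i` are in `A` is at least `a^(s^k) n^(k s)`.  Induction on `k` with power means.
-/

set_option autoImplicit false

namespace Pool.Agent.Des

open Finset

theorem blowup_power_mean {ι : Type*} [Fintype ι] [Nonempty ι] (f : ι → ℝ) (hf : ∀ i, 0 ≤ f i)
    (p : ℕ) :
    (Fintype.card ι : ℝ) * ((∑ i, f i) / Fintype.card ι) ^ p ≤ ∑ i, f i ^ p := by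
  have hN : (0 : ℝ) < Fintype.card ι := by exact_mod_cast Fintype.card_pos
  rcases p with _ | p
  · simp
  · have h := pow_sum_div_card_le_sum_pow (s := (Finset.univ : Finset ι)) (f := f)
      (fun a _ => hf a) p
    refine le_trans (le_of_eq ?_) h
    rw [Finset.card_univ, div_pow]
    field_simp
    ring

/-- slice of `A` at the values `z` of the first row -/
def bslice {k s : ℕ} {V : Type} [Fintype V] [DecidableEq V] (A : Finset (Fin (k + 1) → V))
    (z : Fin s → V) : Finset (Fin k → V) :=
  Finset.univ.filter (fun x => ∀ l, (Fin.cons (z l) x : Fin (k + 1) → V) ∈ A)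

theorem blowup_sum_slice {k s : ℕ} {V : Type} [Fintype V] [DecidableEq V]
    (A : Finset (Fin (k + 1) → V)) :
    (∑ z : Fin s → V, ((bslice A z).card : ℝ)) =
      ∑ x : Fin k → V, (∑ v : V, if (Fin.cons v x : Fin (k + 1) → V) ∈ A then (1 : ℝ) else 0) ^ s := by
  have h1 : ∀ z : Fin s → V, ((bslice A z).card : ℝ) =
      ∑ x : Fin k → V, ∏ l, (if (Fin.cons (z l) x : Fin (k + 1) → V) ∈ A then (1 : ℝ) else 0) := by
    intro z
    rw [bslice, Finset.card_filter]
    push_cast
    refine Finset.sum_congr rfl fun x _ => ?_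
    rw [Finset.prod_ite_zero]
    simp
  simp_rw [h1]
  rw [Finset.sum_comm]
  refine Finset.sum_congr rfl fun x _ => ?_
  rw [Fintype.sum_pow]

theorem blowup_sum_card {k : ℕ} {V : Type} [Fintype V] [DecidableEq V]
    (A : Finset (Fin (k + 1) → V)) :
    (A.card : ℝ) =
      ∑ x : Fin k → V, (∑ v : V, if (Fin.cons v x : Fin (k + 1) → V) ∈ A then (1 : ℝ) else 0) := by
  have h1 : (A.card : ℝ) = ∑ w : Fin (k + 1) → V, if w ∈ A then (1 : ℝ) else 0 := by
    simp
  rw [h1, ← Equiv.sum_comp (Fin.consEquiv (fun _ : Fin (k + 1) => V)), Fintype.sum_prod_type,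
    Finset.sum_comm]
  rfl

theorem blowup (k s : ℕ) (V : Type) [Fintype V] [DecidableEq V] [Nonempty V]
    (A : Finset (Fin k → V)) :
    ((A.card : ℝ) / (Fintype.card V : ℝ) ^ k) ^ (s ^ k) * (Fintype.card V : ℝ) ^ (k * s) ≤
      (Nat.card {F : Fin k → Fin s → V // ∀ y : Fin k → Fin s, (fun i => F i (y i)) ∈ A} : ℝ) := by
  induction k with
  | zero =>
    simp only [pow_zero, div_one, pow_one, zero_mul, mul_one]
    by_cases hA : A = ∅
    · subst hA
      simp
    · obtain ⟨a, ha⟩ := Finset.nonempty_iff_ne_empty.2 hA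
      have h1 : A.card ≤ 1 := by
        rw [Finset.card_le_one]
        intro x _ y _
        exact Subsingleton.elim _ _
      have h2 : 0 < Nat.card {F : Fin 0 → Fin s → V // ∀ y : Fin 0 → Fin s,
          (fun i => F i (y i)) ∈ A} := by
        rw [Nat.card_pos_iff]
        refine ⟨⟨⟨fun i => i.elim0, fun y => ?_⟩⟩, inferInstance⟩
        have hsub : ∀ g : Fin 0 → V, g ∈ A := fun g => by
          have hg : g = a := funext (fun i => i.elim0)
          rw [hg]; exact ha
        exact hsub _
      exact_mod_cast h1.trans h2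
  | succ k ih =>
    set n : ℝ := (Fintype.card V : ℝ) with hn
    have hn0 : 0 < n := by
      rw [hn]
      exact_mod_cast Fintype.card_pos
    -- lower bound for the count by slices
    have hcount : (∑ z : Fin s → V, (Nat.card {F : Fin k → Fin s → V //
          ∀ y : Fin k → Fin s, (fun i => F i (y i)) ∈ bslice A z} : ℝ)) ≤
        (Nat.card {F : Fin (k + 1) → Fin s → V //
          ∀ y : Fin (k + 1) → Fin s, (fun i => F i (y i)) ∈ A} : ℝ) := by
      have hle : Nat.card (Σ z : Fin s → V, {F : Fin k → Fin s → V //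
          ∀ y : Fin k → Fin s, (fun i => F i (y i)) ∈ bslice A z}) ≤
          Nat.card {F : Fin (k + 1) → Fin s → V //
            ∀ y : Fin (k + 1) → Fin s, (fun i => F i (y i)) ∈ A} := by
        refine Nat.card_le_card_of_injective
          (fun p => ⟨Fin.cons p.1 p.2.1, fun y => ?_⟩) ?_
        · have h3 : (fun i => p.2.1 i (y i.succ)) ∈ bslice A p.1 := p.2.2 (fun i => y i.succ)
          have h4 := (Finset.mem_filter.1 h3).2 (y 0)
          convert h4 using 1
          ext i
          refine Fin.cases ?_ (fun i => ?_) i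
          · simp
          · simp
        · rintro ⟨z, F, hF⟩ ⟨z', F', hF'⟩ h
          simp only [Subtype.mk.injEq] at h
          have h5 := Fin.cons_injective2 h
          obtain ⟨rfl, rfl⟩ := h5
          rfl
      rw [Nat.card_sigma] at hle
      exact_mod_cast hle
    refine le_trans ?_ hcount
    -- induction hypothesis
    have hih : ∑ z : Fin s → V, (((bslice A z).card : ℝ) / n ^ k) ^ (s ^ k) * n ^ (k * s) ≤
        ∑ z : Fin s → V, (Nat.card {F : Fin k → Fin s → V //
          ∀ y : Fin k → Fin s, (fun i => F i (y i)) ∈ bslice A z} : ℝ) :=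
      Finset.sum_le_sum fun z _ => ih (bslice A z)
    refine le_trans ?_ hih
    rw [← Finset.sum_mul]
    -- power mean over `z`
    have hpm := blowup_power_mean (fun z : Fin s → V => ((bslice A z).card : ℝ) / n ^ k)
      (fun z => by positivity) (s ^ k)
    have hcz : (Fintype.card (Fin s → V) : ℝ) = n ^ s := by
      rw [Fintype.card_fun, Fintype.card_fin]
      push_cast
      rfl
    have hcx : (Fintype.card (Fin k → V) : ℝ) = n ^ k := by
      rw [Fintype.card_fun, Fintype.card_fin]
      push_cast
      rfl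
    rw [hcz] at hpm
    -- power mean over `x`
    have hpx := blowup_power_mean
      (fun x : Fin k → V => ∑ v : V, if (Fin.cons v x : Fin (k + 1) → V) ∈ A then (1 : ℝ) else 0)
      (fun x => Finset.sum_nonneg fun v _ => by split_ifs <;> norm_num) s
    rw [hcx, ← blowup_sum_card, ← blowup_sum_slice] at hpx
    have h6 : ((A.card : ℝ) / n ^ (k + 1)) ^ s ≤
        (∑ z : Fin s → V, ((bslice A z).card : ℝ) / n ^ k) / n ^ s := by
      rw [← Finset.sum_div, div_div, le_div_iff₀ (by positivity)]
      refine le_trans (le_of_eq ?_) hpx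
      rw [div_pow, div_pow]
      field_simp
      ring
    calc ((A.card : ℝ) / n ^ (k + 1)) ^ s ^ (k + 1) * n ^ ((k + 1) * s)
        = (n ^ s * (((A.card : ℝ) / n ^ (k + 1)) ^ s) ^ (s ^ k)) * n ^ (k * s) := by
          rw [← pow_mul, ← pow_succ']
          rw [add_mul, one_mul, pow_add]
          ring
      _ ≤ (n ^ s * ((∑ z : Fin s → V, ((bslice A z).card : ℝ) / n ^ k) / n ^ s) ^ (s ^ k)) *
            n ^ (k * s) := by
          gcongr
      _ ≤ _ := by
          gcongr

end Pool.Agent.Des
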