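import Pool.Agent.Lib_helper88.HCR.D2.Rbu

/-!
# Block WIRES: `N` stubs at `f`

`rbu` with `a = r` (the vertices of `f`), `k = N (q - r)` new vertices, `s = 1`, and `Γ` = all
`r`-subsets `≠ f` of the sets `f ∪ (l-th block)`; each new vertex is in at most
`(q-1).choose (r-1) ≤ q^(r-1)` edges.
-/

set_option autoImplicit false

namespace Pool.Agent.Des

open Finset

/-- the root vertices -/
def wroot (r k : ℕ) : Finset (Fin r ⊕ Fin k) := Finset.univ.image Sum.inl

/-- the `l`-th block together with the roots -/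
def wblk (r N d : ℕ) (l : Fin N) : Finset (Fin r ⊕ Fin (N * d)) :=
  wroot r (N * d) ∪ Finset.univ.image (fun t : Fin d => Sum.inr (finProdFinEquiv (l, t)))

/-- the rooted graph -/
def wgam (r N d : ℕ) : Finset (Finset (Fin r ⊕ Fin (N * d))) :=
  Finset.univ.biUnion (fun l : Fin N => ((wblk r N d l).powersetCard r).erase (wroot r (N * d)))

theorem wroot_card (r k : ℕ) : (wroot r k).card = r := by
  rw [wroot, Finset.card_image_of_injective _ Sum.inl_injective]
  simp

theorem mem_wroot_inl {r k : ℕ} (x : Fin r) : Sum.inl x ∈ wroot r k :=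
  Finset.mem_image_of_mem _ (Finset.mem_univ x)

theorem not_mem_wroot_inr {r k : ℕ} (x : Fin k) : Sum.inr x ∉ wroot r k := by
  intro h
  obtain ⟨y, _, hy⟩ := Finset.mem_image.1 h
  exact Sum.inl_ne_inr hy

theorem wblk_card (r N d : ℕ) (l : Fin N) : (wblk r N d l).card = r + d := by
  rw [wblk, Finset.card_union_of_disjoint, wroot_card, Finset.card_image_of_injective]
  · simp
  · intro t t' h
    have h1 := finProdFinEquiv.injective (Sum.inr_injective h)
    exact (Prod.mk.inj h1).2
  · rw [Finset.disjoint_left]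
    intro x hx hx'
    obtain ⟨t, _, rfl⟩ := Finset.mem_image.1 hx'
    exact not_mem_wroot_inr _ hx

theorem inr_mem_wblk {r N d : ℕ} {l : Fin N} {j : Fin (N * d)} (h : Sum.inr j ∈ wblk r N d l) :
    (finProdFinEquiv.symm j).1 = l := by
  rw [wblk, Finset.mem_union] at h
  rcases h with h | h
  · exact absurd h (not_mem_wroot_inr _)
  · obtain ⟨t, _, ht⟩ := Finset.mem_image.1 h
    rw [← Sum.inr_injective ht]
    simp

theorem wgam_prop {r N d : ℕ} : ∀ γ ∈ wgam r N d, γ.card = r ∧ ∃ j, Sum.inr j ∈ γ := by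
  intro γ hγ
  rw [wgam, Finset.mem_biUnion] at hγ
  obtain ⟨l, _, hl⟩ := hγ
  rw [Finset.mem_erase, Finset.mem_powersetCard] at hl
  refine ⟨hl.2.2, ?_⟩
  by_contra hcon
  push Not at hcon
  apply hl.1
  apply Finset.eq_of_subset_of_card_le
  · intro x hx
    rcases x with x | x
    · exact mem_wroot_inl x
    · exact absurd hx (hcon x)
  · rw [wroot_card, hl.2.2]

theorem wgam_deg {r N d : ℕ} (hr : 1 ≤ r) (j : Fin (N * d)) :
    ((wgam r N d).filter (fun γ => Sum.inr j ∈ γ)).card ≤ (r + d - 1).choose (r - 1) := by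
  set l₀ := (finProdFinEquiv.symm j).1 with hl₀
  by_cases hj : Sum.inr j ∈ wblk r N d l₀
  · have hsub : (wgam r N d).filter (fun γ => Sum.inr j ∈ γ) ⊆
        (((wblk r N d l₀).erase (Sum.inr j)).powersetCard (r - 1)).image
          (fun T => insert (Sum.inr j) T) := by
      intro γ hγ
      rw [Finset.mem_filter, wgam, Finset.mem_biUnion] at hγ
      obtain ⟨⟨l, _, hl⟩, hjγ⟩ := hγ
      rw [Finset.mem_erase, Finset.mem_powersetCard] at hl
      have hll : l₀ = l := inr_mem_wblk (hl.2.1 hjγ)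
      rw [Finset.mem_image]
      refine ⟨γ.erase (Sum.inr j), ?_, Finset.insert_erase hjγ⟩
      rw [Finset.mem_powersetCard]
      refine ⟨?_, ?_⟩
      · rw [hll]
        exact Finset.erase_subset_erase _ hl.2.1
      · rw [Finset.card_erase_of_mem hjγ, hl.2.2]
    refine (Finset.card_le_card hsub).trans (Finset.card_image_le.trans ?_)
    rw [Finset.card_powersetCard, Finset.card_erase_of_mem hj, wblk_card]
  · have hemp : (wgam r N d).filter (fun γ => Sum.inr j ∈ γ) = ∅ := by
      rw [Finset.filter_eq_empty_iff]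
      intro γ hγ hjγ
      rw [wgam, Finset.mem_biUnion] at hγ
      obtain ⟨l, _, hl⟩ := hγ
      rw [Finset.mem_erase, Finset.mem_powersetCard] at hl
      have hll : l₀ = l := inr_mem_wblk (hl.2.1 hjγ)
      apply hj
      rw [hll]
      exact hl.2.1 hjγ
    rw [hemp]
    simp

theorem wires_num (q r : ℕ) (hr : 1 ≤ r) (hq : r < q) :
    (((r + (q - r) - 1).choose (r - 1) : ℕ) : ℝ) * (cg r / (q : ℝ) ^ (r - 1)) ≤ 1 / 4 := by
  have h1 : r + (q - r) - 1 = q - 1 := by omega
  rw [h1]
  have h2 : (q - 1).choose (r - 1) ≤ q ^ (r - 1) :=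
    (Nat.choose_le_pow (q - 1) (r - 1)).trans (Nat.pow_le_pow_left (Nat.sub_le _ _) _)
  have h3 : (((q - 1).choose (r - 1) : ℕ) : ℝ) ≤ (q : ℝ) ^ (r - 1) := by exact_mod_cast h2
  have hq0 : (0 : ℝ) < (q : ℝ) ^ (r - 1) := by
    have : 0 < q := by omega
    positivity
  have hcg : cg r ≤ 1 / 4 := by
    unfold cg
    apply one_div_le_one_div_of_le (by norm_num)
    have : (1 : ℝ) ≤ 3 ^ r := one_le_pow₀ (by norm_num)
    linarith
  have hcg0 : 0 ≤ cg r := by
    unfold cg
    positivity
  calc (((q - 1).choose (r - 1) : ℕ) : ℝ) * (cg r / (q : ℝ) ^ (r - 1))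
      ≤ (q : ℝ) ^ (r - 1) * (cg r / (q : ℝ) ^ (r - 1)) := by gcongr
    _ = cg r := by field_simp
    _ ≤ 1 / 4 := hcg

theorem wires_main {q r N : ℕ} (hq : r < q) {V : Type} [DecidableEq V]
    (G : Finset (Finset V)) (f : Finset V) (ρ : Fin r → V) (hρ : Function.Injective ρ)
    (hρf : Finset.univ.image ρ = f) (τ : Fin (N * (q - r)) → V) (hτ : Function.Injective τ)
    (hτρ : ∀ i x, τ i ≠ ρ x)
    (hG : ∀ γ ∈ wgam r N (q - r), γ.image (Sum.elim ρ τ) ∈ G) :
    ∃ Y : ℕ → Finset V, (∀ l < N, stub r (Y l) f ⊆ G) ∧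
        IsWires q r N f (Finset.univ.image τ) Y := by
  set φ : Fin r ⊕ Fin (N * (q - r)) → V := Sum.elim ρ τ with hφ
  have hφi : Function.Injective φ := by
    rw [hφ]
    exact Function.Injective.sumElim hρ hτ (fun a b h => hτρ b a h.symm)
  have hroot : (wroot r (N * (q - r))).image φ = f := by
    rw [wroot, Finset.image_image, ← hρf]
    rfl
  refine ⟨fun l => if h : l < N then (wblk r N (q - r) ⟨l, h⟩).image φ else ∅, ?_, ?_, ?_⟩
  · intro l hl
    simp only [hl, dif_pos]
    intro e he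
    rw [stub, Finset.mem_erase, Finset.mem_powersetCard] at he
    obtain ⟨hef, hesub, hec⟩ := he
    obtain ⟨γ, hγ, rfl⟩ := Finset.subset_image_iff.1 hesub
    apply hG
    rw [wgam, Finset.mem_biUnion]
    refine ⟨⟨l, hl⟩, Finset.mem_univ _, ?_⟩
    rw [Finset.mem_erase, Finset.mem_powersetCard]
    refine ⟨?_, hγ, ?_⟩
    · intro h
      apply hef
      rw [h, hroot]
    · rwa [Finset.card_image_of_injective _ hφi] at hec
  · intro l hl
    simp only [hl, dif_pos]
    refine ⟨?_, ?_, ?_⟩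
    · rw [Finset.card_image_of_injective _ hφi, wblk_card]
      omega
    · rw [← hroot]
      exact Finset.image_subset_image Finset.subset_union_left
    · intro x hx
      rw [Finset.mem_sdiff] at hx
      obtain ⟨hx1, hx2⟩ := hx
      obtain ⟨p, hp, rfl⟩ := Finset.mem_image.1 hx1
      rcases p with p | p
      · exfalso
        apply hx2
        rw [← hroot]
        exact Finset.mem_image_of_mem _ (mem_wroot_inl p)
      · exact Finset.mem_image_of_mem _ (Finset.mem_univ p)
  · intro l hl l' hl' hne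
    simp only [hl, hl', dif_pos]
    rw [← Finset.image_inter _ _ hφi, ← hroot]
    congr 1
    apply Finset.Subset.antisymm
    · intro p hp
      rw [Finset.mem_inter] at hp
      rcases p with p | p
      · exact mem_wroot_inl p
      · exfalso
        have h1 := inr_mem_wblk hp.1
        have h2 := inr_mem_wblk hp.2
        rw [h1] at h2
        exact hne (Fin.mk.inj h2)
    · exact Finset.subset_inter Finset.subset_union_left Finset.subset_union_left

/-- `wires_rich` with the explicit number `N * (q - r)` of new vertices -/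
theorem wires_rich_explicit (q r N : ℕ) (hr : 1 ≤ r) (hq : r < q) :
    ∃ (α : ℝ) (n₀ : ℕ), 0 < α ∧
    ∀ (V : Type) [Fintype V] [DecidableEq V], n₀ ≤ Fintype.card V →
    ∀ G : Finset (Finset V), Dense q r (cg r) G → ∀ f : Finset V, f.card = r →
    α * (Fintype.card V : ℝ) ^ (N * (q - r)) ≤ cnt (fun τ : Fin (N * (q - r)) → V =>
      ∃ Y : ℕ → Finset V, (∀ l < N, stub r (Y l) f ⊆ G) ∧
        IsWires q r N f (Finset.univ.image τ) Y) := by
  obtain ⟨α, n₀, hα, H⟩ := rbu r r (N * (q - r)) ((r + (q - r) - 1).choose (r - 1)) 1 hr le_rfl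
  refine ⟨α, n₀, hα, ?_⟩
  intro V _ _ hn G hG f hf
  set ρ : Fin r → V := fun i => ((f.equivFinOfCardEq hf).symm i : V) with hρ
  have hρi : Function.Injective ρ := by
    intro i j hij
    exact (f.equivFinOfCardEq hf).symm.injective (Subtype.ext hij)
  have hρf : Finset.univ.image ρ = f := by
    ext x
    rw [Finset.mem_image]
    constructor
    · rintro ⟨i, _, rfl⟩
      exact ((f.equivFinOfCardEq hf).symm i).2
    · intro hx
      exact ⟨f.equivFinOfCardEq hf ⟨x, hx⟩, Finset.mem_univ _, by simp [hρ]⟩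
  have h := H (wgam r N (q - r)) wgam_prop (wgam_deg hr) V hn G (cg r / (q : ℝ) ^ (r - 1)) hG.1
    hG.2 (wires_num q r hr hq) ρ hρi
  rw [mul_one] at h
  refine h.trans ?_
  unfold cnt
  have hle := Nat.card_le_card_of_injective
    (fun F : {F : Fin (N * (q - r)) → Fin 1 → V //
        (∀ i j i' j', F i j = F i' j' → i = i' ∧ j = j') ∧ (∀ i j x, F i j ≠ ρ x) ∧
        ∀ γ ∈ wgam r N (q - r), ∀ y : Fin (N * (q - r)) → Fin 1,
          γ.image (Sum.elim ρ (fun i => F i (y i))) ∈ G} =>
      (⟨fun i => F.1 i 0, wires_main hq G f ρ hρi hρf (fun i => F.1 i 0)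
        (fun i i' hii => (F.2.1 i 0 i' 0 hii).1) (fun i x => F.2.2.1 i 0 x)
        (fun γ hγ => F.2.2.2 γ hγ (fun _ => 0))⟩ :
        {τ : Fin (N * (q - r)) → V // ∃ Y : ℕ → Finset V, (∀ l < N, stub r (Y l) f ⊆ G) ∧
        IsWires q r N f (Finset.univ.image τ) Y}))
    (by
      intro F F' hFF
      simp only [Subtype.mk.injEq] at hFF
      apply Subtype.ext
      funext i j
      have h1 := congrFun hFF i
      rw [Subsingleton.elim j 0]
      exact h1)
  exact_mod_cast hle

theorem wires_rich (q r N : ℕ) (hr : 1 ≤ r) (hq : r < q) :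
    ∃ (v : ℕ) (α : ℝ) (n₀ : ℕ), 0 < α ∧
    ∀ (V : Type) [Fintype V] [DecidableEq V], n₀ ≤ Fintype.card V →
    ∀ G : Finset (Finset V), Dense q r (cg r) G → ∀ f : Finset V, f.card = r →
    α * (Fintype.card V : ℝ) ^ v ≤ cnt (fun τ : Fin v → V =>
      ∃ Y : ℕ → Finset V, (∀ l < N, stub r (Y l) f ⊆ G) ∧
        IsWires q r N f (Finset.univ.image τ) Y) :=
  ⟨N * (q - r), wires_rich_explicit q r N hr hq⟩

end Pool.Agent.Des
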