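import Pool.Agent.Lib_helper96.Des.Rplace
import Pool.Agent.Lib_helper88.HCR.D2.Wires

/-!
# Block CHAIN: placing the wires of all chains

Slots `(f, i)`, `|f| = r`, `i < M f`, with context sets `c0 f i ⊇ f`.  Two applications of `rplace`
(with `wires_rich`, `P (f,i) τ E` = `∃ Y, IsWires q r N f (image τ) Y ∧ E = wireE ..`, root `f`,
`b = 2`).
First the even `i`: contexts `c0 f i` and `c0 f (i-1)` (`c0 f i` again if `i = 0`), avoiding both.
Then the odd `i`: contexts `c0 f i ∪ nw f (i+1)` (if `i + 1 < M f`, else `c0 f i`) and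
`c0 f (i-1) ∪ nw f (i-1)`, avoiding `c0 f i ∪ c0 f (i-1) ∪ nw f (i-1) ∪ nw f (i+1)`; forbidden:
`F` and the even wires.  The sums for the contexts are controlled by the first application.
The cluster `c0 f i ∪ nw f i ∪ nw f (i+1)` of a slot is controlled by the odd one of `i`, `i+1`
(or by the even stage if `i` is even and `i + 1 = M f`).
-/

set_option autoImplicit false

namespace Pool.Agent.Des

open Finset



theorem chain_inj {α β : Type} [DecidableEq β] (s : Finset α) (t : Finset β) (φ : α → β)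
    (g : β → ℝ) (hg : ∀ b, 0 ≤ g b) (hφ : ∀ a ∈ s, φ a ∈ t)
    (hi : ∀ a ∈ s, ∀ a' ∈ s, φ a = φ a' → a = a') :
    ∑ a ∈ s, g (φ a) ≤ ∑ b ∈ t, g b := by
  rw [← Finset.sum_image (f := g) (g := φ) (fun a ha a' ha' h => hi a ha a' ha' h)]
  refine Finset.sum_le_sum_of_subset_of_nonneg ?_ fun _ _ _ => hg _
  intro b hb
  rw [Finset.mem_image] at hb
  obtain ⟨a, ha, rfl⟩ := hb
  exact hφ a ha

/-- even and odd indices -/
def chev (m : ℕ) : Finset ℕ := (Finset.range m).filter (fun i => i % 2 = 0)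
def chod (m : ℕ) : Finset ℕ := (Finset.range m).filter (fun i => i % 2 = 1)

theorem mem_chev {m i : ℕ} : i ∈ chev m ↔ i < m ∧ i % 2 = 0 := by simp [chev]
theorem mem_chod {m i : ℕ} : i ∈ chod m ↔ i < m ∧ i % 2 = 1 := by simp [chod]

theorem chain_s1 (m : ℕ) (g : ℕ → ℝ) (hg : ∀ i, 0 ≤ g i) :
    ∑ i ∈ chev m, g i ≤ ∑ i ∈ Finset.range m, g i :=
  chain_inj _ _ (fun i => i) g hg (fun a ha => Finset.mem_range.mpr (mem_chev.mp ha).1)
    (fun a _ a' _ h => h)

theorem chain_s2 (m : ℕ) (g : ℕ → ℝ) (hg : ∀ i, 0 ≤ g i) :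
    ∑ i ∈ chev m, g (i - 1) ≤ ∑ i ∈ Finset.range m, g i :=
  chain_inj _ _ (fun i => i - 1) g hg
    (fun a ha => Finset.mem_range.mpr (by have := (mem_chev.mp ha).1; omega))
    (fun a ha a' ha' h => by
      have h1 := (mem_chev.mp ha).2
      have h2 := (mem_chev.mp ha').2
      omega)

theorem chain_s3 (m : ℕ) (E g : ℕ → ℝ) (hE : ∀ i, 0 ≤ E i) (hg : ∀ i, 0 ≤ g i) :
    ∑ i ∈ chod m, (if i + 1 < m then E (i + 1) else g i) ≤
      ∑ i ∈ chev m, E i + ∑ i ∈ Finset.range m, g i := by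
  have h1 : ∑ i ∈ chod m, (if i + 1 < m then E (i + 1) else g i) ≤
      ∑ i ∈ (chod m).filter (fun i => i + 1 < m), E (i + 1) + ∑ i ∈ chod m, g i := by
    rw [Finset.sum_filter, ← Finset.sum_add_distrib]
    refine Finset.sum_le_sum fun i _ => ?_
    split_ifs
    · linarith [hg i]
    · linarith
  refine h1.trans (add_le_add ?_ ?_)
  · refine chain_inj _ _ (fun i => i + 1) E hE ?_ ?_
    · intro a ha
      rw [Finset.mem_filter, mem_chod] at ha
      exact mem_chev.mpr ⟨ha.2, by omega⟩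
    · intro a _ a' _ h
      simpa using h
  · exact chain_inj _ _ (fun i => i) g hg (fun a ha => Finset.mem_range.mpr (mem_chod.mp ha).1)
      (fun a _ a' _ h => h)

theorem chain_s4 (m : ℕ) (E : ℕ → ℝ) (hE : ∀ i, 0 ≤ E i) :
    ∑ i ∈ chod m, E (i - 1) ≤ ∑ i ∈ chev m, E i :=
  chain_inj _ _ (fun i => i - 1) E hE
    (fun a ha => by
      have := mem_chod.mp ha
      refine mem_chev.mpr ⟨by omega, ?_⟩
      omega)
    (fun a ha a' ha' h => by
      have h1 := (mem_chod.mp ha).2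
      have h2 := (mem_chod.mp ha').2
      omega)

theorem chain_s5 (m : ℕ) (cl O₀ O₁ E : ℕ → ℝ) (hO₀ : ∀ i, 0 ≤ O₀ i) (hO₁ : ∀ i, 0 ≤ O₁ i)
    (hE : ∀ i, 0 ≤ E i) (h1 : ∀ i < m, i % 2 = 1 → cl i ≤ O₀ i)
    (h2 : ∀ i < m, i % 2 = 0 → i + 1 < m → cl i ≤ O₁ (i + 1))
    (h3 : ∀ i < m, i % 2 = 0 → ¬ i + 1 < m → cl i ≤ E i) :
    ∑ i ∈ Finset.range m, cl i ≤ ∑ i ∈ chod m, O₀ i + ∑ i ∈ chod m, O₁ i + ∑ i ∈ chev m, E i := by
  have e1 : ∑ i ∈ Finset.range m, cl i ≤ ∑ i ∈ Finset.range m,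
      ((if i % 2 = 1 then O₀ i else 0) + (if i % 2 = 0 ∧ i + 1 < m then O₁ (i + 1) else 0) +
        (if i % 2 = 0 then E i else 0)) := by
    refine Finset.sum_le_sum fun i hi => ?_
    have hi' := Finset.mem_range.mp hi
    have a1 := h1 i hi'
    have a2 := h2 i hi'
    have a3 := h3 i hi'
    have b1 := hO₀ i
    have b2 := hO₁ (i + 1)
    have b3 := hE i
    rcases Nat.mod_two_eq_zero_or_one i with h | h
    · by_cases h4 : i + 1 < m
      · simp only [h, h4, and_self, if_true]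
        norm_num
        linarith [a2 h h4]
      · simp only [h, h4, and_false, if_false, if_true]
        norm_num
        linarith [a3 h h4]
    · simp only [h, if_true]
      norm_num
      linarith [a1 h]
  refine e1.trans ?_
  rw [Finset.sum_add_distrib, Finset.sum_add_distrib]
  refine add_le_add (add_le_add ?_ ?_) ?_
  · rw [← Finset.sum_filter]
    exact le_of_eq rfl
  · rw [← Finset.sum_filter]
    refine chain_inj _ _ (fun i => i + 1) O₁ hO₁ ?_ ?_
    · intro a ha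
      rw [Finset.mem_filter] at ha
      exact mem_chod.mpr ⟨ha.2.2, by omega⟩
    · intro a _ a' _ h
      simpa using h
  · rw [← Finset.sum_filter]
    exact le_of_eq rfl

/-- wires of a task -/
def chw {V : Type} [DecidableEq V] (r N : ℕ) (f : Finset V) (Y : ℕ → Finset V) :
    Finset (Finset V) := (Finset.range N).biUnion fun l => stub r (Y l) f

/-- one stage -/
theorem chain_stage (q r N : ℕ) (hr : 1 ≤ r) (hq : r < q) : ∃ v : ℕ, ∀ h : ℕ,
    ∃ (C ε : ℝ) (n₀ : ℕ), 1 ≤ C ∧ 0 < ε ∧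
    ∀ (V : Type) [Fintype V] [DecidableEq V], n₀ ≤ Fintype.card V →
    ∀ (G F : Finset (Finset V)) (I : Finset ((_ : Finset V) × ℕ))
      (av : (_ : Finset V) × ℕ → Finset V) (c₀ c₁ : (_ : Finset V) × ℕ → Finset V) (θ u : ℝ),
    Dense q r (cg r) G → 0 < θ → θ ≤ ε → 0 ≤ u → u ≤ ε →
    r * Real.log ((Fintype.card V : ℝ) + 1) ≤ θ * (Fintype.card V : ℝ) →
    (∀ t ∈ I, t.1.card = r) → (∀ t ∈ I, (av t).card ≤ h) → (∀ t ∈ I, t.1 ⊆ c₀ t) →
    (∀ A : Finset V, A.card < r → (∑ t ∈ I, if A ⊆ c₀ t then (1 : ℝ) else 0) +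
      (∑ t ∈ I, if A ⊆ c₁ t then (1 : ℝ) else 0) ≤ θ * (Fintype.card V : ℝ) ^ (r - A.card)) →
    Unif r F → (∀ S : Finset V, S.card = r - 1 → (dg F S : ℝ) ≤ u * (Fintype.card V : ℝ)) →
    ∃ (Y : (_ : Finset V) × ℕ → ℕ → Finset V) (nw : (_ : Finset V) × ℕ → Finset V),
      (∀ t ∈ I, IsWires q r N t.1 (nw t) (Y t) ∧ (nw t).card ≤ v ∧ chw r N t.1 (Y t) ⊆ G ∧
        Disjoint (chw r N t.1 (Y t)) F ∧ Disjoint (nw t) (av t)) ∧
      (∀ t ∈ I, ∀ t' ∈ I, t ≠ t' → Disjoint (chw r N t.1 (Y t)) (chw r N t'.1 (Y t'))) ∧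
      (∀ A : Finset V, A.card < r → (∑ t ∈ I, if A ⊆ c₀ t ∪ nw t then (1 : ℝ) else 0) +
        (∑ t ∈ I, if A ⊆ c₁ t ∪ nw t then (1 : ℝ) else 0) ≤
          C * θ * (Fintype.card V : ℝ) ^ (r - A.card)) ∧
      (∀ S : Finset V, S.card = r - 1 →
        (dg (I.biUnion fun t => chw r N t.1 (Y t)) S : ℝ) ≤ C * θ * (Fintype.card V : ℝ)) := by
  obtain ⟨v, α, n₁, hα, hrich⟩ := wires_rich q r N hr hq
  refine ⟨v, fun h => ?_⟩
  obtain ⟨C, ε, n₂, hC, hε, hpl⟩ := rplace r (r + h) v 2 hr α hα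
  refine ⟨C, ε, n₁ + n₂, hC, hε, ?_⟩
  intro V _ _ hn G F I av c₀ c₁ θ u hG hθ hθε hu huε hlog hI hav hc₀ hsum hF hFd
  obtain ⟨τ, E, h1, h2, h3, h4⟩ := hpl V ((_ : Finset V) × ℕ) (by omega) G F I
    (fun t => t.1) av (fun t τ E => ∃ Y : ℕ → Finset V, IsWires q r N t.1 (Finset.univ.image τ) Y ∧
      E = chw r N t.1 Y) (fun t l => if l = 0 then c₀ t else c₁ t) θ u hθ hθε hu huε hlog
    (fun t ht => by have := hI t ht; omega) (fun t ht => by have := hav t ht; omega)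
    (fun t ht τ E hE γ hγ => by
      obtain ⟨Y, hY, rfl⟩ := hE
      unfold chw at hγ
      rw [Finset.mem_biUnion] at hγ
      obtain ⟨l, hl, hγ⟩ := hγ
      unfold stub at hγ
      rw [Finset.mem_erase, Finset.mem_powersetCard] at hγ
      have hYl := hY.card l (Finset.mem_range.mp hl)
      refine ⟨hγ.2.2, ?_, ?_⟩
      · refine hγ.2.1.trans ?_
        intro x hx
        by_cases hxf : x ∈ t.1
        · exact Finset.mem_union_left _ hxf
        · exact Finset.mem_union_right _ (hYl.2.2 (Finset.mem_sdiff.mpr ⟨hx, hxf⟩))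
      · intro hsub
        exact hγ.1 (Finset.eq_of_subset_of_card_le hsub (by rw [hI t ht, hγ.2.2])))
    (fun t ht => by
      refine (hrich V (by omega) G hG t.1 (hI t ht)).trans ?_
      refine cnt_mono ?_
      rintro τ ⟨Y, hY, hYw⟩
      refine ⟨chw r N t.1 Y, ?_, Y, hYw, rfl⟩
      exact Finset.biUnion_subset.mpr fun l hl => hY l (Finset.mem_range.mp hl))
    (fun t ht => ⟨0, by simpa using hc₀ t ht⟩)
    (fun A hA => by
      refine le_trans (le_of_eq ?_) (hsum A hA)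
      rw [← Finset.sum_add_distrib]
      refine Finset.sum_congr rfl fun t _ => ?_
      rw [Fin.sum_univ_two]
      simp)
    hF hFd
  choose! Y hY using fun t ht => (h1 t ht).1
  refine ⟨Y, fun t => Finset.univ.image (τ t), ?_, ?_, ?_, ?_⟩
  · intro t ht
    have hE := (hY t ht).2
    have h5 := h1 t ht
    rw [hE] at h5
    refine ⟨(hY t ht).1, ?_, h5.2.1, h5.2.2.1, h5.2.2.2⟩
    refine Finset.card_image_le.trans ?_
    simp
  · intro t ht t' ht' hne
    have := h2 t ht t' ht' hne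
    rwa [(hY t ht).2, (hY t' ht').2] at this
  · intro A hA
    refine le_trans (le_of_eq ?_) (h3 A hA)
    rw [← Finset.sum_add_distrib]
    refine Finset.sum_congr rfl fun t _ => ?_
    rw [Fin.sum_univ_two]
    simp
  · intro S hS
    have h5 : I.biUnion E = I.biUnion fun t => chw r N t.1 (Y t) :=
      Finset.biUnion_congr rfl fun t ht => (hY t ht).2
    rw [← h5]
    exact h4 S hS

theorem chain (q r N h : ℕ) (hr : 1 ≤ r) (hq : r < q) :
    ∃ (C ε : ℝ) (n₀ v : ℕ), 1 ≤ C ∧ 0 < ε ∧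
    ∀ (V : Type) [Fintype V] [DecidableEq V], n₀ ≤ Fintype.card V →
    ∀ (G F : Finset (Finset V)) (M : Finset V → ℕ) (c0 : Finset V → ℕ → Finset V) (θ u : ℝ),
    Dense q r (cg r) G → 0 < θ → θ ≤ ε → 0 ≤ u → u ≤ ε →
    r * Real.log ((Fintype.card V : ℝ) + 1) ≤ θ * (Fintype.card V : ℝ) →
    (∀ f : Finset V, f.card = r → ∀ i < M f, f ⊆ c0 f i ∧ (c0 f i).card ≤ h) →
    (∀ A : Finset V, A.card < r → (∑ f ∈ Finset.univ.powersetCard r, ∑ i ∈ Finset.range (M f),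
      if A ⊆ c0 f i then (1 : ℝ) else 0) ≤ θ * (Fintype.card V : ℝ) ^ (r - A.card)) →
    Unif r F → (∀ S : Finset V, S.card = r - 1 → (dg F S : ℝ) ≤ u * (Fintype.card V : ℝ)) →
    ∃ (Y : Finset V → ℕ → ℕ → Finset V) (nw : Finset V → ℕ → Finset V),
      (∀ f : Finset V, f.card = r → ∀ i < M f, IsWires q r N f (nw f i) (Y f i) ∧
        (nw f i).card ≤ v ∧ wireE r N Y f i ⊆ G ∧ Disjoint (wireE r N Y f i) F ∧
        Disjoint (nw f i) (c0 f i) ∧ (0 < i → Disjoint (nw f i) (c0 f (i - 1))) ∧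
        (i + 1 < M f → Disjoint (nw f i) (nw f (i + 1)))) ∧
      (∀ f : Finset V, f.card = r → ∀ i < M f, ∀ f' : Finset V, f'.card = r → ∀ i' < M f',
        (f, i) ≠ (f', i') → Disjoint (wireE r N Y f i) (wireE r N Y f' i')) ∧
      (∀ A : Finset V, A.card < r →
        (∑ f ∈ Finset.univ.powersetCard r, ∑ i ∈ Finset.range (M f),
          if A ⊆ c0 f i ∪ nw f i ∪ (if i + 1 < M f then nw f (i + 1) else ∅) then (1 : ℝ)
            else 0) ≤ C * θ * (Fintype.card V : ℝ) ^ (r - A.card)) ∧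
      (∀ S : Finset V, S.card = r - 1 →
        (dg ((Finset.univ.powersetCard r).biUnion fun f => (Finset.range (M f)).biUnion fun i =>
          wireE r N Y f i) S : ℝ) ≤ C * θ * (Fintype.card V : ℝ)) := by
  classical
  obtain ⟨v, hst⟩ := chain_stage q r N hr hq
  obtain ⟨C, ε, n₀, hC, hε, hst⟩ := hst (2 * h + 2 * v)
  have hC0 : 0 < C := by linarith
  refine ⟨C * (2 * C + 1) + 2 * C, ε / (2 * C + 2), n₀, v, by nlinarith, by positivity, ?_⟩
  intro V _ _ hn G F M c0 θ u hG hθ hθε hu huε hlog hc0 hsum hF hFd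
  rw [le_div_iff₀ (by positivity)] at hθε huε
  have hCθ : 0 ≤ C * θ := by positivity
  have hCu : 0 ≤ C * u := by positivity
  have hn00 : (0 : ℝ) ≤ (Fintype.card V : ℝ) := Nat.cast_nonneg _
  set P : Finset (Finset V) := (Finset.univ : Finset V).powersetCard r with hP
  set I₁ : Finset ((_ : Finset V) × ℕ) := P.sigma (fun f => chev (M f)) with hI₁
  set I₂ : Finset ((_ : Finset V) × ℕ) := P.sigma (fun f => chod (M f)) with hI₂
  have hm₁ : ∀ t, t ∈ I₁ ↔ t.1.card = r ∧ t.2 < M t.1 ∧ t.2 % 2 = 0 := by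
    intro t
    rw [hI₁, Finset.mem_sigma, hP, Finset.mem_powersetCard, mem_chev]
    simp
  have hm₂ : ∀ t, t ∈ I₂ ↔ t.1.card = r ∧ t.2 < M t.1 ∧ t.2 % 2 = 1 := by
    intro t
    rw [hI₂, Finset.mem_sigma, hP, Finset.mem_powersetCard, mem_chod]
    simp
  have h01 : ∀ p : Prop, ∀ [Decidable p], (0 : ℝ) ≤ if p then (1 : ℝ) else 0 := by
    intro p _
    split_ifs <;> norm_num
  have hmono : ∀ A B B' : Finset V, B ⊆ B' →
      (if A ⊆ B then (1 : ℝ) else 0) ≤ if A ⊆ B' then (1 : ℝ) else 0 := by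
    intro A B B' hB
    by_cases h1 : A ⊆ B
    · rw [if_pos h1, if_pos (h1.trans hB)]
    · rw [if_neg h1]; exact h01 _
  -- even stage
  obtain ⟨Y₁, nw₁, a1, a2, a3, a4⟩ := hst V hn G F I₁
    (fun t => c0 t.1 t.2 ∪ c0 t.1 (t.2 - 1)) (fun t => c0 t.1 t.2) (fun t => c0 t.1 (t.2 - 1))
    (2 * θ) u hG (by positivity) (by nlinarith) hu (by nlinarith)
    (hlog.trans (by nlinarith)) (fun t ht => ((hm₁ t).mp ht).1)
    (fun t ht => by
      obtain ⟨b1, b2, b3⟩ := (hm₁ t).mp ht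
      refine (Finset.card_union_le _ _).trans ?_
      have := (hc0 t.1 b1 t.2 b2).2
      have := (hc0 t.1 b1 (t.2 - 1) (by omega)).2
      omega)
    (fun t ht => (hc0 t.1 ((hm₁ t).mp ht).1 t.2 ((hm₁ t).mp ht).2.1).1)
    (fun A hA => by
      rw [hI₁, Finset.sum_sigma, Finset.sum_sigma]
      have e1 := Finset.sum_le_sum (s := P) fun f _ => chain_s1 (M f)
        (fun i => if A ⊆ c0 f i then (1 : ℝ) else 0) (fun i => h01 _)
      have e2 := Finset.sum_le_sum (s := P) fun f _ => chain_s2 (M f)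
        (fun i => if A ⊆ c0 f i then (1 : ℝ) else 0) (fun i => h01 _)
      have e3 := hsum A hA
      have e4 := add_le_add e1 e2
      refine e4.trans ?_
      linarith)
    hF hFd
  -- odd stage
  set Z : Finset (Finset V) := F ∪ I₁.biUnion fun t => chw r N t.1 (Y₁ t) with hZ
  have hZr : Unif r Z := by
    intro γ hγ
    rcases Finset.mem_union.mp hγ with hγ | hγ
    · exact hF γ hγ
    · rw [Finset.mem_biUnion] at hγ
      obtain ⟨t, ht, hγ⟩ := hγ
      exact hG.1 γ ((a1 t ht).2.2.1 hγ)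
  have hZd : ∀ S : Finset V, S.card = r - 1 →
      (dg Z S : ℝ) ≤ (u + C * (2 * θ)) * (Fintype.card V : ℝ) := by
    intro S hS
    have e1 : dg Z S ≤ dg F S + dg (I₁.biUnion fun t => chw r N t.1 (Y₁ t)) S := by
      unfold dg
      rw [hZ, Finset.filter_union]
      exact Finset.card_union_le _ _
    have e2 : (dg Z S : ℝ) ≤ dg F S + dg (I₁.biUnion fun t => chw r N t.1 (Y₁ t)) S := by
      exact_mod_cast e1
    have e3 := hFd S hS
    have e4 := a4 S hS
    linarith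
  obtain ⟨Y₂, nw₂, b1, b2, b3, b4⟩ := hst V hn G Z I₂
    (fun t => c0 t.1 t.2 ∪ c0 t.1 (t.2 - 1) ∪ nw₁ ⟨t.1, t.2 - 1⟩ ∪
      (if t.2 + 1 < M t.1 then nw₁ ⟨t.1, t.2 + 1⟩ else ∅))
    (fun t => c0 t.1 t.2 ∪ (if t.2 + 1 < M t.1 then nw₁ ⟨t.1, t.2 + 1⟩ else ∅))
    (fun t => c0 t.1 (t.2 - 1) ∪ nw₁ ⟨t.1, t.2 - 1⟩)
    ((2 * C + 1) * θ) (u + C * (2 * θ)) hG (by positivity) (by nlinarith) (by positivity)
    (by nlinarith)
    (hlog.trans (by nlinarith)) (fun t ht => ((hm₂ t).mp ht).1)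
    (fun t ht => by
      obtain ⟨c1, c2, c3⟩ := (hm₂ t).mp ht
      have d1 := (hc0 t.1 c1 t.2 c2).2
      have d2 := (hc0 t.1 c1 (t.2 - 1) (by omega)).2
      have d3 := (a1 ⟨t.1, t.2 - 1⟩ ((hm₁ _).mpr ⟨c1, by simp only; omega, by
        simp only; omega⟩)).2.1
      have d4 : ((if t.2 + 1 < M t.1 then nw₁ ⟨t.1, t.2 + 1⟩ else ∅) : Finset V).card ≤ v := by
        split_ifs with h4
        · exact (a1 ⟨t.1, t.2 + 1⟩ ((hm₁ _).mpr ⟨c1, h4, by simp only; omega⟩)).2.1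
        · simp
      have d5 := Finset.card_union_le (c0 t.1 t.2 ∪ c0 t.1 (t.2 - 1) ∪ nw₁ ⟨t.1, t.2 - 1⟩)
        (if t.2 + 1 < M t.1 then nw₁ ⟨t.1, t.2 + 1⟩ else ∅)
      have d6 := Finset.card_union_le (c0 t.1 t.2 ∪ c0 t.1 (t.2 - 1)) (nw₁ ⟨t.1, t.2 - 1⟩)
      have d7 := Finset.card_union_le (c0 t.1 t.2) (c0 t.1 (t.2 - 1))
      omega)
    (fun t ht => (hc0 t.1 ((hm₂ t).mp ht).1 t.2 ((hm₂ t).mp ht).2.1).1.trans
      Finset.subset_union_left)
    (fun A hA => by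
      have e0 := a3 A hA
      rw [hI₁, Finset.sum_sigma, Finset.sum_sigma] at e0
      rw [hI₂, Finset.sum_sigma, Finset.sum_sigma]
      have e1 := Finset.sum_le_sum (s := P) fun f _ => chain_s3 (M f)
        (fun i => if A ⊆ c0 f (i - 1) ∪ nw₁ ⟨f, i⟩ then (1 : ℝ) else 0)
        (fun i => if A ⊆ c0 f i then (1 : ℝ) else 0) (fun i => h01 _) (fun i => h01 _)
      have e2 := Finset.sum_le_sum (s := P) fun f _ => chain_s4 (M f)
        (fun i => if A ⊆ c0 f i ∪ nw₁ ⟨f, i⟩ then (1 : ℝ) else 0) (fun i => h01 _)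
      have e3 := hsum A hA
      rw [Finset.sum_add_distrib] at e1
      have e4 : (∑ f ∈ P, ∑ i ∈ chod (M f), if A ⊆ c0 f i ∪
          (if i + 1 < M f then nw₁ ⟨f, i + 1⟩ else ∅) then (1 : ℝ) else 0) =
          ∑ f ∈ P, ∑ i ∈ chod (M f), (if i + 1 < M f then
            (if A ⊆ c0 f (i + 1 - 1) ∪ nw₁ ⟨f, i + 1⟩ then (1 : ℝ) else 0) else
              (if A ⊆ c0 f i then (1 : ℝ) else 0)) := by
        refine Finset.sum_congr rfl fun f _ => Finset.sum_congr rfl fun i _ => ?_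
        by_cases h4 : i + 1 < M f
        · simp only [h4, if_true, Nat.add_sub_cancel]
        · simp only [h4, if_false, Finset.union_empty]
      have e5 : ∀ f ∈ P, ∀ i ∈ chod (M f), (if A ⊆ c0 f (i - 1) ∪ nw₁ ⟨f, i - 1⟩ then (1 : ℝ)
          else 0) = (if A ⊆ c0 f (i - 1) ∪ nw₁ ⟨f, i - 1⟩ then (1 : ℝ) else 0) :=
        fun _ _ _ _ => rfl
      rw [← e4] at e1
      refine (add_le_add e1 e2).trans ?_
      have hp : 0 ≤ θ * (Fintype.card V : ℝ) ^ (r - A.card) := by positivity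
      calc _ ≤ C * (2 * θ) * (Fintype.card V : ℝ) ^ (r - A.card) +
            θ * (Fintype.card V : ℝ) ^ (r - A.card) := by linarith
        _ = _ := by ring)
    hZr hZd
  -- combination
  have hwev : ∀ f : Finset V, ∀ i, i % 2 = 0 → wireE r N (fun f i => if i % 2 = 0 then Y₁ ⟨f, i⟩
      else Y₂ ⟨f, i⟩) f i = chw r N f (Y₁ ⟨f, i⟩) := by
    intro f i hi
    unfold wireE chw
    simp only [hi, if_true]
  have hwod : ∀ f : Finset V, ∀ i, i % 2 = 1 → wireE r N (fun f i => if i % 2 = 0 then Y₁ ⟨f, i⟩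
      else Y₂ ⟨f, i⟩) f i = chw r N f (Y₂ ⟨f, i⟩) := by
    intro f i hi
    unfold wireE chw
    have : ¬ (i % 2 = 0) := by omega
    simp only [this, if_false]
  refine ⟨fun f i => if i % 2 = 0 then Y₁ ⟨f, i⟩ else Y₂ ⟨f, i⟩,
    fun f i => if i % 2 = 0 then nw₁ ⟨f, i⟩ else nw₂ ⟨f, i⟩, ?_, ?_, ?_, ?_⟩
  · intro f hf i hi
    rcases Nat.mod_two_eq_zero_or_one i with hp | hp
    · have ht := (hm₁ ⟨f, i⟩).mpr ⟨hf, hi, hp⟩
      obtain ⟨c1, c2, c3, c4, c5⟩ := a1 _ ht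
      rw [hwev f i hp]
      simp only [hp, if_true]
      rw [Finset.disjoint_union_right] at c5
      refine ⟨c1, c2, c3, c4, c5.1, fun _ => c5.2, fun hi' => ?_⟩
      have hp' : (i + 1) % 2 = 1 := by omega
      have hp'' : ¬ ((i + 1) % 2 = 0) := by omega
      have ht' := (hm₂ ⟨f, i + 1⟩).mpr ⟨hf, hi', hp'⟩
      have d5 := (b1 _ ht').2.2.2.2
      rw [Finset.disjoint_union_right, Finset.disjoint_union_right] at d5
      simp only [hp'', if_false]
      exact d5.1.2.symm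
    · have ht := (hm₂ ⟨f, i⟩).mpr ⟨hf, hi, hp⟩
      have hp0 : ¬ (i % 2 = 0) := by omega
      obtain ⟨c1, c2, c3, c4, c5⟩ := b1 _ ht
      rw [hwod f i hp]
      simp only [hp0, if_false]
      rw [Finset.disjoint_union_right, Finset.disjoint_union_right,
        Finset.disjoint_union_right] at c5
      refine ⟨c1, c2, c3, c4.mono_right Finset.subset_union_left, c5.1.1.1, fun _ => c5.1.1.2,
        fun hi' => ?_⟩
      have hp' : (i + 1) % 2 = 0 := by omega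
      simp only [hp', if_true]
      have := c5.2
      simp only [hi', if_true] at this
      exact this
  · intro f hf i hi f' hf' i' hi' hne
    have hne1 : (⟨f, i⟩ : (_ : Finset V) × ℕ) ≠ ⟨f', i'⟩ := by
      intro e
      simp only [Sigma.mk.injEq, heq_eq_eq] at e
      exact hne (by rw [e.1, e.2])
    have hcross : ∀ g : Finset V, g.card = r → ∀ j < M g, j % 2 = 0 → ∀ g' : Finset V,
        g'.card = r → ∀ j' < M g', j' % 2 = 1 →
        Disjoint (chw r N g (Y₁ ⟨g, j⟩)) (chw r N g' (Y₂ ⟨g', j'⟩)) := by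
      intro g hg j hj hjp g' hg' j' hj' hjp'
      have ht := (hm₁ ⟨g, j⟩).mpr ⟨hg, hj, hjp⟩
      have ht' := (hm₂ ⟨g', j'⟩).mpr ⟨hg', hj', hjp'⟩
      refine ((b1 _ ht').2.2.2.1.mono_right ?_).symm
      refine Finset.Subset.trans ?_ Finset.subset_union_right
      intro γ hγ
      exact Finset.mem_biUnion.mpr ⟨_, ht, hγ⟩
    rcases Nat.mod_two_eq_zero_or_one i with hp | hp <;>
      rcases Nat.mod_two_eq_zero_or_one i' with hp' | hp'
    · rw [hwev f i hp, hwev f' i' hp']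
      exact a2 _ ((hm₁ ⟨f, i⟩).mpr ⟨hf, hi, hp⟩) _ ((hm₁ ⟨f', i'⟩).mpr ⟨hf', hi', hp'⟩) hne1
    · rw [hwev f i hp, hwod f' i' hp']
      exact hcross f hf i hi hp f' hf' i' hi' hp'
    · rw [hwod f i hp, hwev f' i' hp']
      exact (hcross f' hf' i' hi' hp' f hf i hi hp).symm
    · rw [hwod f i hp, hwod f' i' hp']
      exact b2 _ ((hm₂ ⟨f, i⟩).mpr ⟨hf, hi, hp⟩) _ ((hm₂ ⟨f', i'⟩).mpr ⟨hf', hi', hp'⟩) hne1
  · intro A hA
    have e0 := a3 A hA
    rw [hI₁, Finset.sum_sigma, Finset.sum_sigma] at e0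
    have e1 := b3 A hA
    rw [hI₂, Finset.sum_sigma, Finset.sum_sigma] at e1
    have e2 := Finset.sum_le_sum (s := P) fun f _ => chain_s5 (M f)
      (fun i => if A ⊆ c0 f i ∪ (if i % 2 = 0 then nw₁ ⟨f, i⟩ else nw₂ ⟨f, i⟩) ∪
        (if i + 1 < M f then (if (i + 1) % 2 = 0 then nw₁ ⟨f, i + 1⟩ else nw₂ ⟨f, i + 1⟩)
          else ∅) then (1 : ℝ) else 0)
      (fun i => if A ⊆ (c0 f i ∪ (if i + 1 < M f then nw₁ ⟨f, i + 1⟩ else ∅)) ∪ nw₂ ⟨f, i⟩
        then (1 : ℝ) else 0)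
      (fun i => if A ⊆ (c0 f (i - 1) ∪ nw₁ ⟨f, i - 1⟩) ∪ nw₂ ⟨f, i⟩ then (1 : ℝ) else 0)
      (fun i => if A ⊆ c0 f i ∪ nw₁ ⟨f, i⟩ then (1 : ℝ) else 0)
      (fun i => h01 _) (fun i => h01 _) (fun i => h01 _)
      (fun i hi hp => by
        have hp0 : ¬ (i % 2 = 0) := by omega
        have hp1 : (i + 1) % 2 = 0 := by omega
        refine hmono A _ _ ?_
        simp only [hp0, if_false, hp1, if_true]
        rw [Finset.union_right_comm])
      (fun i hi hp hi' => by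
        have hp1 : ¬ ((i + 1) % 2 = 0) := by omega
        refine hmono A _ _ ?_
        simp only [hp, if_true, hi', hp1, if_false, Nat.add_sub_cancel]
        exact Finset.Subset.refl _)
      (fun i hi hp hi' => by
        refine hmono A _ _ ?_
        simp only [hp, if_true, hi', if_false, Finset.union_empty]
        exact Finset.Subset.refl _)
    refine e2.trans ?_
    rw [Finset.sum_add_distrib, Finset.sum_add_distrib]
    have e3 : (0 : ℝ) ≤ ∑ f ∈ P, ∑ i ∈ chev (M f),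
        (if A ⊆ c0 f (i - 1) ∪ nw₁ ⟨f, i⟩ then (1 : ℝ) else 0) :=
      Finset.sum_nonneg fun f _ => Finset.sum_nonneg fun i _ => h01 _
    refine (add_le_add e1 (le_trans (by linarith) e0)).trans ?_
    apply le_of_eq
    ring
  · intro S hS
    have e1 := a4 S hS
    have e2 := b4 S hS
    have e3 : (P.biUnion fun f => (Finset.range (M f)).biUnion fun i =>
          wireE r N (fun f i => if i % 2 = 0 then Y₁ ⟨f, i⟩ else Y₂ ⟨f, i⟩) f i) ⊆
        (I₁.biUnion fun t => chw r N t.1 (Y₁ t)) ∪ (I₂.biUnion fun t => chw r N t.1 (Y₂ t)) := by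
      intro γ hγ
      rw [Finset.mem_biUnion] at hγ
      obtain ⟨f, hf, hγ⟩ := hγ
      rw [Finset.mem_biUnion] at hγ
      obtain ⟨i, hi, hγ⟩ := hγ
      have hf' := (Finset.mem_powersetCard.mp hf).2
      have hi' := Finset.mem_range.mp hi
      rcases Nat.mod_two_eq_zero_or_one i with hp | hp
      · rw [hwev f i hp] at hγ
        exact Finset.mem_union_left _ (Finset.mem_biUnion.mpr
          ⟨⟨f, i⟩, (hm₁ ⟨f, i⟩).mpr ⟨hf', hi', hp⟩, hγ⟩)
      · rw [hwod f i hp] at hγ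
        exact Finset.mem_union_right _ (Finset.mem_biUnion.mpr
          ⟨⟨f, i⟩, (hm₂ ⟨f, i⟩).mpr ⟨hf', hi', hp⟩, hγ⟩)
    have e4 := dg_mono e3 S
    have e5 : dg ((I₁.biUnion fun t => chw r N t.1 (Y₁ t)) ∪
        (I₂.biUnion fun t => chw r N t.1 (Y₂ t))) S ≤
        dg (I₁.biUnion fun t => chw r N t.1 (Y₁ t)) S +
        dg (I₂.biUnion fun t => chw r N t.1 (Y₂ t)) S := by
      unfold dg
      rw [Finset.filter_union]
      exact Finset.card_union_le _ _
    have e6 : (dg (P.biUnion fun f => (Finset.range (M f)).biUnion fun i =>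
          wireE r N (fun f i => if i % 2 = 0 then Y₁ ⟨f, i⟩ else Y₂ ⟨f, i⟩) f i) S : ℝ) ≤
        dg (I₁.biUnion fun t => chw r N t.1 (Y₁ t)) S +
        dg (I₂.biUnion fun t => chw r N t.1 (Y₂ t)) S := by
      exact_mod_cast e4.trans e5
    refine e6.trans ((add_le_add e1 e2).trans ?_)
    apply le_of_eq
    ring

end Pool.Agent.Des
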