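import Pool.Agent.Lib_helper88.HCR.D2.Wires

/-!
# Block EXTRICH: every `r`-set of a dense graph extends to many cliques

From `wires_rich_explicit` with `N = 1`: the image of `τ` is the extension; at most `d^d` maps `τ`
have the same image, `d = q - r`.
-/

set_option autoImplicit false

namespace Pool.Agent.Des

open Finset

/-- every edge of a dense graph is in many cliques -/
theorem ext_rich (q r : ℕ) (hr : 1 ≤ r) (hq : r < q) : ∃ (α : ℝ) (n₀ : ℕ), 0 < α ∧
    ∀ (V : Type) [Fintype V] [DecidableEq V], n₀ ≤ Fintype.card V →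
    ∀ G : Finset (Finset V), Dense q r (cg r) G → ∀ f : Finset V, f.card = r →
    α * (Fintype.card V : ℝ) ^ (q - r) ≤ ((ext q r G f).card : ℝ) := by
  classical
  obtain ⟨α, n₀, hα, H⟩ := wires_rich_explicit q r 1 hr hq
  have hd : 0 < q - r := by omega
  have hd' : (0 : ℝ) < ((q - r : ℕ) : ℝ) := by exact_mod_cast hd
  refine ⟨α / ((q - r : ℕ) : ℝ) ^ (1 * (q - r)), n₀, by positivity, ?_⟩
  intro V _ _ hn G hG f hf
  have h := H V hn G hG f hf
  unfold cnt at h
  rw [Nat.card_eq_fintype_card, Fintype.card_subtype] at h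
  set T := (Finset.univ.filter (fun τ : Fin (1 * (q - r)) → V =>
      ∃ Y : ℕ → Finset V, (∀ l < 1, stub r (Y l) f ⊆ G) ∧
        IsWires q r 1 f (Finset.univ.image τ) Y)) with hT
  have hZ : ∀ τ ∈ T, Finset.univ.image τ ∈ ext q r G f := by
    intro τ hτ
    rw [hT, Finset.mem_filter] at hτ
    obtain ⟨_, Y, hY1, hY2⟩ := hτ
    obtain ⟨hc, hfY, hsub⟩ := hY2.card 0 (by norm_num)
    have hcs : (Y 0 \ f).card = q - r := by
      rw [Finset.card_sdiff_of_subset hfY, hc, hf]
    have hle : (Finset.univ.image τ).card ≤ q - r := by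
      refine Finset.card_image_le.trans ?_
      simp
    have heq : Y 0 \ f = Finset.univ.image τ :=
      Finset.eq_of_subset_of_card_le hsub (by rw [hcs]; exact hle)
    rw [ext, Finset.mem_filter, Finset.mem_powersetCard]
    refine ⟨⟨?_, ?_⟩, ?_⟩
    · rw [← heq]
      exact Finset.sdiff_subset_sdiff (Finset.subset_univ _) (Finset.Subset.refl _)
    · rw [← heq, hcs]
    · intro γ hγ hne
      rw [← heq, Finset.union_sdiff_of_subset hfY] at hγ
      apply hY1 0 (by norm_num)
      rw [stub, Finset.mem_erase]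
      exact ⟨hne, hγ⟩
  have himg : T.image (fun τ => Finset.univ.image τ) ⊆ ext q r G f := by
    intro Z hZ'
    obtain ⟨τ, hτ, rfl⟩ := Finset.mem_image.1 hZ'
    exact hZ τ hτ
  have hfib : T.card ≤ (q - r) ^ (1 * (q - r)) * (T.image (fun τ => Finset.univ.image τ)).card := by
    refine Finset.card_le_mul_card_image T _ ?_
    intro Z hZ'
    have hZc : Z.card = q - r := by
      have h1 := himg hZ'
      rw [ext, Finset.mem_filter, Finset.mem_powersetCard] at h1
      exact h1.1.2
    have hsub : T.filter (fun τ => Finset.univ.image τ = Z) ⊆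
        Fintype.piFinset (fun _ : Fin (1 * (q - r)) => Z) := by
      intro τ hτ
      rw [Finset.mem_filter] at hτ
      rw [Fintype.mem_piFinset]
      intro i
      rw [← hτ.2]
      exact Finset.mem_image_of_mem _ (Finset.mem_univ i)
    refine (Finset.card_le_card hsub).trans ?_
    rw [Fintype.card_piFinset]
    simp [hZc]
  have h2 : (T.card : ℝ) ≤ ((q - r : ℕ) : ℝ) ^ (1 * (q - r)) * ((ext q r G f).card : ℝ) := by
    have h3 := hfib.trans (Nat.mul_le_mul_left _ (Finset.card_le_card himg))
    exact_mod_cast h3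
  have h4 : α * (Fintype.card V : ℝ) ^ (1 * (q - r)) ≤
      ((q - r : ℕ) : ℝ) ^ (1 * (q - r)) * ((ext q r G f).card : ℝ) := by
    refine le_trans ?_ h2
    exact h
  have h5 : (Fintype.card V : ℝ) ^ (q - r) = (Fintype.card V : ℝ) ^ (1 * (q - r)) := by
    rw [one_mul]
  rw [h5, div_mul_eq_mul_div, div_le_iff₀ (by positivity), mul_comm ((ext q r G f).card : ℝ)]
  exact h4

end Pool.Agent.Des
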