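import Pool.Agent.Lib_helper88.HCR.D2.Omni
import Pool.Agent.Lib_helper96.Des.Refiner
import Pool.Agent.Lib_helper96.Des.Nib5
import Pool.Agent.Lib_helper96.Des.Cover
import Pool.Agent.Lib_helper96.Des.Frac
import Pool.Agent.Lib_helper88.HCR.D2.ExtRich

/-!
# Block FIN: the main theorem

`c = min (c_frac) (cg r) / 2`.  Given `q`: `κ` from `nibble`, `β = κ / 4`, `α` from `ext_rich`,
`N = ∏_{i ≤ r} (q-i).choose (r-i)` (`q ≤ q.choose r ≤ N`), `δ` from `refiner`, `δ'` from `omni`.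
`G` dense: take `X, F` (`refiner`), `A` (`omni`), `G' = G \ (A ∪ X)`: codegree
`≥ (1 - c/q^(r-1)) n - n^(1-δ) - n^(1-δ') ≥ (1 - 2c/q^(r-1)) n`, `frac` gives `w`, `nibble` gives
`D₁`, leftover `Λ`, `cover` gives `D₂`; `L = X \ ∪D₂`.  `G` is the disjoint union of `A ∪ L`,
`∪D₁`, `∪D₂`; `A` decomposes (`L = ∅`), so `A`, hence `L`, is divisible
(`Decomp.divis`, `Divis.of_union`), so `A ∪ L` decomposes.
-/

set_option autoImplicit false

namespace Pool.Agent.Des

open Finset

/-- powers are eventually small -/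
theorem fin_small (δ ε : ℝ) (hδ : 0 < δ) (hε : 0 < ε) :
    ∃ n₀ : ℕ, ∀ n : ℕ, n₀ ≤ n → (n : ℝ) ^ (1 - δ) ≤ ε * n := by
  have h1 : Filter.Tendsto (fun n : ℕ => ((n : ℝ)) ^ (-δ)) Filter.atTop (nhds 0) :=
    (tendsto_rpow_neg_atTop hδ).comp tendsto_natCast_atTop_atTop
  have h2 := (h1.eventually (gt_mem_nhds hε)).and (Filter.eventually_gt_atTop 0)
  obtain ⟨n₀, h⟩ := Filter.eventually_atTop.mp h2
  refine ⟨n₀, fun n hn => ?_⟩
  obtain ⟨h3, h4⟩ := h n hn
  have hn0 : (0 : ℝ) < n := by exact_mod_cast h4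
  have : (n : ℝ) ^ (1 - δ) = (n : ℝ) ^ (-δ) * n := by
    rw [show (1 - δ) = (-δ) + 1 by ring, Real.rpow_add hn0, Real.rpow_one]
  rw [this]
  exact mul_le_mul_of_nonneg_right h3.le hn0.le

theorem fin_dg_sdiff {V : Type*} [DecidableEq V] (G A X : Finset (Finset V)) (S : Finset V) :
    dg G S ≤ dg (G \ (A ∪ X)) S + dg A S + dg X S := by
  unfold dg
  have : G.filter (fun e => S ⊆ e) ⊆ (G \ (A ∪ X)).filter (fun e => S ⊆ e) ∪
      A.filter (fun e => S ⊆ e) ∪ X.filter (fun e => S ⊆ e) := by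
    intro e he
    simp only [Finset.mem_union, Finset.mem_filter, Finset.mem_sdiff] at he ⊢
    tauto
  refine (Finset.card_le_card this).trans ?_
  refine (Finset.card_union_le _ _).trans ?_
  exact Nat.add_le_add_right (Finset.card_union_le _ _) _

theorem fin_choose (q r : ℕ) (hr : 1 ≤ r) (hq : r ≤ q - 1) : q ≤ q.choose r := by
  induction q generalizing r with
  | zero => omega
  | succ q ih =>
    obtain ⟨s, rfl⟩ : ∃ s, r = s + 1 := ⟨r - 1, by omega⟩
    rw [Nat.choose_succ_succ']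
    have h1 : 0 < q.choose s := Nat.choose_pos (by omega)
    rcases Nat.lt_or_ge (s + 1) q with h | h
    · have := ih (s + 1) (by omega) (by omega)
      omega
    · have h2 : s + 1 = q := by omega
      subst h2
      rw [Nat.choose_self, Nat.choose_succ_self_right]

theorem main (r : ℕ) (hr : 2 ≤ r) : ∃ c : ℝ, 0 < c ∧ ∀ q : ℕ, r < q → ∃ n₀ : ℕ,
    ∀ (V : Type) [Fintype V] [DecidableEq V], n₀ ≤ Fintype.card V →
    ∀ G : Finset (Finset V), Dense q r c G → Divis q r G → Decomp q r G := by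
  obtain ⟨c₁, hc₁, hfrac⟩ := frac r hr
  have hcg : 0 < cg r := by unfold cg; positivity
  set c : ℝ := min c₁ (cg r) / 2 with hc
  have hcpos : 0 < c := by
    rw [hc]; exact half_pos (lt_min hc₁ hcg)
  have hcc₁ : 2 * c ≤ c₁ := by rw [hc]; linarith [min_le_left c₁ (cg r)]
  have hccg : c ≤ cg r := by
    have := min_le_right c₁ (cg r)
    rw [hc]; linarith
  refine ⟨c, hcpos, fun q hq => ?_⟩
  have hr1 : 1 ≤ r := by omega
  have hq0 : (0 : ℝ) < (q : ℝ) ^ (r - 1) := by
    have : (0 : ℝ) < q := by exact_mod_cast (by omega : 0 < q)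
    positivity
  obtain ⟨C₀, hC₀, hfrac⟩ := hfrac q hq
  obtain ⟨κ, hκ0, hκ1, hnib⟩ := nibble q r hr1 hq
  obtain ⟨n₁, hnib⟩ := hnib C₀ hC₀
  obtain ⟨α, n₂, hα, hext⟩ := ext_rich q r hr1 hq
  set N : ℕ := ∏ i ∈ Finset.range (r + 1), (q - i).choose (r - i) with hN
  have hNpos : ∀ i ∈ Finset.range (r + 1), 0 < (q - i).choose (r - i) := by
    intro i hi
    rw [Finset.mem_range] at hi
    exact Nat.choose_pos (by omega)
  have hN0 : 0 < N := Finset.prod_pos hNpos
  have hNdvd : ∀ i ≤ r, (q - i).choose (r - i) ∣ N := by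
    intro i hi
    exact Finset.dvd_prod_of_mem (fun i => (q - i).choose (r - i))
      (Finset.mem_range.mpr (by omega))
  have hqN : q ≤ N := by
    have h1 : (q - 0).choose (r - 0) ∣ N := hNdvd 0 (by omega)
    have h2 := Nat.le_of_dvd hN0 h1
    simp only [Nat.sub_zero] at h2
    refine le_trans ?_ h2
    have h4 : r ≤ q - 1 := by omega
    exact fin_choose q r hr1 h4
  obtain ⟨δ, n₃, hδ0, hδ1, href⟩ := refiner q r N hr1 hq hN0 hNdvd α (κ / 4) hα (by positivity)
  obtain ⟨δ', n₄, hδ', homni⟩ := omni q r N hr1 hq hqN hNdvd δ hδ0 hδ1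
  obtain ⟨n₅, hcov⟩ := cover q r hr1 hq κ (κ / 4) (by positivity) (by linarith) hκ1
  have hε : 0 < c / (q : ℝ) ^ (r - 1) / 2 := by positivity
  obtain ⟨n₆, h₆⟩ := fin_small δ _ hδ0 hε
  obtain ⟨n₇, h₇⟩ := fin_small δ' _ hδ' hε
  refine ⟨n₁ + n₂ + n₃ + n₄ + n₅ + n₆ + n₇, ?_⟩
  intro V _ _ hn G hG hGd
  have hGg : Dense q r (cg r) G := by
    refine ⟨hG.1, fun S hS => le_trans ?_ (hG.2 S hS)⟩
    refine mul_le_mul_of_nonneg_right ?_ (Nat.cast_nonneg _)
    have := div_le_div_of_nonneg_right hccg hq0.le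
    linarith
  obtain ⟨X, hXG, F, hF, hXdeg, hXext, hFdeg, hXspan⟩ := href V (by omega) G hG.1
    (fun e he => hext V (by omega) G hGg e (hG.1 e he))
  obtain ⟨A, hAG, hAX, hAdeg, hAL⟩ := homni V (by omega) G X F hGg hXG hXdeg hF hFdeg
  set G' : Finset (Finset V) := G \ (A ∪ X) with hG'
  have hG'dense : Dense q r c₁ G' := by
    refine ⟨fun e he => hG.1 e (Finset.mem_sdiff.mp he).1, fun S hS => ?_⟩
    have h1 := hG.2 S hS
    have h2 : (dg G S : ℝ) ≤ dg G' S + dg A S + dg X S := by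
      exact_mod_cast fin_dg_sdiff G A X S
    have h3 := hXdeg S hS
    have h4 := hAdeg S hS
    have h5 := h₆ (Fintype.card V) (by omega)
    have h6 := h₇ (Fintype.card V) (by omega)
    have h7 : 2 * c / (q : ℝ) ^ (r - 1) ≤ c₁ / (q : ℝ) ^ (r - 1) :=
      div_le_div_of_nonneg_right hcc₁ hq0.le
    have h8 : (1 - c₁ / (q : ℝ) ^ (r - 1)) * (Fintype.card V : ℝ) ≤
        (1 - 2 * c / (q : ℝ) ^ (r - 1)) * (Fintype.card V : ℝ) :=
      mul_le_mul_of_nonneg_right (by linarith) (Nat.cast_nonneg _)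
    refine h8.trans ?_
    have h9 : (1 - 2 * c / (q : ℝ) ^ (r - 1)) * (Fintype.card V : ℝ) =
        (1 - c / (q : ℝ) ^ (r - 1)) * (Fintype.card V : ℝ) -
          c / (q : ℝ) ^ (r - 1) / 2 * (Fintype.card V : ℝ) -
          c / (q : ℝ) ^ (r - 1) / 2 * (Fintype.card V : ℝ) := by ring
    rw [h9]
    linarith
  obtain ⟨w, hw⟩ := hfrac V G' hG'dense
  obtain ⟨D₁, hD₁c, hD₁d, hD₁deg⟩ := hnib V (by omega) G' w hw
  set Λ : Finset (Finset V) := G' \ D₁.biUnion (fun K => K.powersetCard r) with hΛ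
  have hΛG' : Λ ⊆ G' := Finset.sdiff_subset
  have hG'G : G' ⊆ G := Finset.sdiff_subset
  have hXΛ : Disjoint X Λ := by
    rw [Finset.disjoint_left]
    intro e he he'
    have := Finset.mem_sdiff.mp (hΛG' he')
    exact this.2 (Finset.mem_union_right _ he)
  obtain ⟨D₂, hD₂c, hD₂d, hD₂Λ, hD₂X⟩ := hcov V (by omega) X Λ (fun e he => hG.1 e (hXG he))
    (fun e he => hG.1 e (hG'G (hΛG' he))) hXΛ hD₁deg
    (fun e he => hXext e (hG'G (hΛG' he)))
  set U₁ : Finset (Finset V) := D₁.biUnion (fun K => K.powersetCard r) with hU₁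
  set U₂ : Finset (Finset V) := D₂.biUnion (fun K => K.powersetCard r) with hU₂
  have hU₁dec : Decomp q r U₁ := ⟨D₁, fun Q hQ => (hD₁c Q hQ).1, hD₁d, rfl⟩
  have hU₂dec : Decomp q r U₂ := ⟨D₂, hD₂c, hD₂d, rfl⟩
  have hU₁G' : U₁ ⊆ G' := by
    intro e he
    obtain ⟨K, hK, heK⟩ := Finset.mem_biUnion.mp he
    exact (hD₁c K hK).2 heK
  set L : Finset (Finset V) := X \ U₂ with hL
  have hLX : L ⊆ X := Finset.sdiff_subset
  -- the partition
  have hd12 : Disjoint U₁ U₂ := by
    rw [Finset.disjoint_left]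
    intro e he he'
    rcases Finset.mem_union.mp (hD₂X he') with h | h
    · exact (Finset.mem_sdiff.mp h).2 he
    · exact (Finset.mem_sdiff.mp (hU₁G' he)).2 (Finset.mem_union_right _ h)
  have hdA1 : Disjoint A U₁ := by
    rw [Finset.disjoint_left]
    intro e he he'
    exact (Finset.mem_sdiff.mp (hU₁G' he')).2 (Finset.mem_union_left _ he)
  have hdA2 : Disjoint A U₂ := by
    rw [Finset.disjoint_left]
    intro e he he'
    rcases Finset.mem_union.mp (hD₂X he') with h | h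
    · exact (Finset.mem_sdiff.mp (hΛG' h)).2 (Finset.mem_union_left _ he)
    · exact (Finset.disjoint_left.mp hAX he) h
  have hdL1 : Disjoint L U₁ := by
    rw [Finset.disjoint_left]
    intro e he he'
    exact (Finset.mem_sdiff.mp (hU₁G' he')).2 (Finset.mem_union_right _ (hLX he))
  have hdL2 : Disjoint L U₂ := by
    rw [Finset.disjoint_left]
    intro e he he'
    exact (Finset.mem_sdiff.mp he).2 he'
  have hAL' : Disjoint A L := by
    rw [Finset.disjoint_left]
    intro e he he'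
    exact (Finset.disjoint_left.mp hAX he) (hLX he')
  have hGeq : G = (U₁ ∪ U₂) ∪ (A ∪ L) := by
    ext e
    constructor
    · intro he
      by_cases h1 : e ∈ A
      · simp [h1]
      by_cases h2 : e ∈ X
      · by_cases h3 : e ∈ U₂
        · simp [h3]
        · have : e ∈ L := Finset.mem_sdiff.mpr ⟨h2, h3⟩
          simp [this]
      · by_cases h3 : e ∈ U₁
        · simp [h3]
        · have h4 : e ∈ Λ := by
            refine Finset.mem_sdiff.mpr ⟨Finset.mem_sdiff.mpr ⟨he, ?_⟩, h3⟩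
            simp [h1, h2]
          have h5 := hD₂Λ h4
          exact Finset.mem_union_left _ (Finset.mem_union_right _ h5)
    · intro he
      rcases Finset.mem_union.mp he with h | h
      · rcases Finset.mem_union.mp h with h | h
        · exact hG'G (hU₁G' h)
        · rcases Finset.mem_union.mp (hD₂X h) with h | h
          · exact hG'G (hΛG' h)
          · exact hXG h
      · rcases Finset.mem_union.mp h with h | h
        · exact hAG h
        · exact hXG (hLX h)
  have hd12AL : Disjoint (U₁ ∪ U₂) (A ∪ L) := by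
    rw [Finset.disjoint_union_left, Finset.disjoint_union_right, Finset.disjoint_union_right]
    exact ⟨⟨hdA1.symm, hdL1.symm⟩, ⟨hdA2.symm, hdL2.symm⟩⟩
  have hU12 : Decomp q r (U₁ ∪ U₂) := hU₁dec.union hU₂dec hd12
  have hALdiv : Divis q r (A ∪ L) := by
    refine Divis.of_union hd12AL ?_ hU12.divis
    rw [← hGeq]; exact hGd
  have hAdec : Decomp q r A := by
    have h := hAL ∅ (Finset.empty_subset _) (by
      have : (fun e : Finset V => if e ∈ (∅ : Finset (Finset V)) then (1 : ZMod N) else 0) = 0 := by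
        ext e; simp
      rw [this]; exact Submodule.zero_mem _)
    rwa [Finset.union_empty] at h
  have hLdiv : Divis q r L := Divis.of_union hAL' hALdiv hAdec.divis
  have hALdec : Decomp q r (A ∪ L) := hAL L hLX (hXspan L hLX hLdiv)
  rw [hGeq]
  exact hU12.union hALdec hd12AL

end Pool.Agent.Des
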