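import Pool.Agent.Lib_helper88.HCR.D2.Chain
import Pool.Agent.Lib_helper88.HCR.D2.Abs
import Pool.Agent.Lib_helper96.Des.PieceDiv

/-!
# Block OMNIPLACE: placing the whole omni-absorber

Stage 1: `rplace` with `boost_rich`: tasks `(Q, k) ∈ F ×ˢ range (N-1)`, root = context = `Q`
(`b = 1`), forbidden `X`; `θ = N n^(-δ)`.
Slots: for `|f| = r` enumerate `Pf r N X F f` by `part f` on `Iio (M f)`, `M f = |Pf ..|`; context
`c0 f i = Q ∪ nb (Q,k)` if `part f i = some (Q,k)`, `c0 f i = f` if `part f i = none`;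
`∑_slots [A ⊆ c0] ≤ (q.choose r) ∑_x [A ⊆ Q_x ∪ nb x] + dg X A` (`dg_le_of_codeg`).
Stage 2: `chain`, forbidden `X ∪ boosters`.
Stage 3: `rplace` with `abs_rich`: tasks `(f, i, act, a)` valid (`i + 1 < M f ∨ nxt = 0`),
`W = f ∪ (stub of the participant) ∪ all Y f i l ∪ all Y f (i+1) l (if i + 1 < M f)`,
`q + r ≤ |W|` since `N ≥ q`, context = cluster `⊇ W` (`b = 1`), `H = piece ..` (divisible by
`piece_divis`), forbidden `X`, boosters, wires.
All sums multiply `θ` by constants; `δ' = δ / 2` absorbs the constants for large `n`.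
-/

set_option autoImplicit false

namespace Pool.Agent.Des

open Finset



/-- enumeration of a finset with transfer of sums -/
theorem op_enum {β : Type} [Inhabited β] (P : Finset β) :
    ∃ part : ℕ → β, Set.BijOn part (Set.Iio P.card) (P : Set β) ∧
      ∀ g : β → ℝ, ∑ i ∈ Finset.range P.card, g (part i) = ∑ p ∈ P, g p := by
  classical
  let e := P.equivFin
  let part : ℕ → β := fun i => if h : i < P.card then (e.symm ⟨i, h⟩ : β) else default
  have hb : Set.BijOn part (Set.Iio P.card) (P : Set β) := by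
    refine ⟨?_, ?_, ?_⟩
    · intro i hi
      have hi' : i < P.card := hi
      simp only [part, hi', dif_pos]
      exact (e.symm ⟨i, hi'⟩).2
    · intro i hi j hj hij
      have hi' : i < P.card := hi
      have hj' : j < P.card := hj
      simp only [part, hi', hj', dif_pos] at hij
      have := e.symm.injective (Subtype.ext hij)
      simpa using this
    · intro p hp
      refine ⟨(e ⟨p, hp⟩ : ℕ), (e ⟨p, hp⟩).2, ?_⟩
      simp [part]
  refine ⟨part, hb, fun g => ?_⟩
  refine Finset.sum_bij (fun i _ => part i) ?_ ?_ ?_ ?_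
  · intro i hi
    exact hb.mapsTo (Finset.mem_range.mp hi)
  · intro i hi j hj hij
    exact hb.injOn (Finset.mem_range.mp hi) (Finset.mem_range.mp hj) hij
  · intro p hp
    obtain ⟨i, hi, hip⟩ := hb.surjOn hp
    exact ⟨i, Finset.mem_range.mpr hi, hip⟩
  · intro i hi
    rfl

/-- stage 1: placing the boosters -/
theorem op_boost (q r N : ℕ) (hr : 1 ≤ r) (hq : r < q) :
    ∃ (C ε : ℝ) (n₀ v : ℕ), 1 ≤ C ∧ 0 < ε ∧
    ∀ (V : Type) [Fintype V] [DecidableEq V], n₀ ≤ Fintype.card V →
    ∀ (G X F : Finset (Finset V)) (θ u : ℝ), Dense q r (cg r) G → 0 < θ → θ ≤ ε → 0 ≤ u → u ≤ ε →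
    r * Real.log ((Fintype.card V : ℝ) + 1) ≤ θ * (Fintype.card V : ℝ) →
    (∀ Q ∈ F, Q.card = q) →
    (∀ A : Finset V, A.card < r → (N : ℝ) * (dg F A : ℝ) ≤
      θ * (Fintype.card V : ℝ) ^ (r - A.card)) →
    Unif r X → (∀ S : Finset V, S.card = r - 1 → (dg X S : ℝ) ≤ u * (Fintype.card V : ℝ)) →
    ∃ (B : Finset V × ℕ → Finset (Finset V)) (nb : Finset V × ℕ → Finset V)
      (st : Finset V × ℕ → Finset V → Finset V),
      (∀ Q ∈ F, ∀ k < N - 1, IsBoost q r Q (nb (Q, k)) (B (Q, k)) (st (Q, k)) ∧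
        (nb (Q, k)).card ≤ v ∧ B (Q, k) ⊆ G ∧ Disjoint (B (Q, k)) X) ∧
      (∀ Q ∈ F, ∀ k < N - 1, ∀ Q' ∈ F, ∀ k' < N - 1, (Q, k) ≠ (Q', k') →
        Disjoint (B (Q, k)) (B (Q', k'))) ∧
      (∀ A : Finset V, A.card < r → (∑ x ∈ F ×ˢ Finset.range (N - 1),
        if A ⊆ x.1 ∪ nb x then (1 : ℝ) else 0) ≤ C * θ * (Fintype.card V : ℝ) ^ (r - A.card)) ∧
      (∀ S : Finset V, S.card = r - 1 →
        (dg ((F ×ˢ Finset.range (N - 1)).biUnion B) S : ℝ) ≤ C * θ * (Fintype.card V : ℝ)) := by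
  obtain ⟨v, α, n₁, hα, hrich⟩ := boost_rich q r hr hq
  obtain ⟨C, ε, n₂, hC, hε, hpl⟩ := rplace r q v 1 hr α hα
  refine ⟨C, ε, n₁ + n₂, v, hC, hε, ?_⟩
  intro V _ _ hn G X F θ u hG hθ hθε hu huε hlog hF hFd hX hXd
  obtain ⟨τ, E, h1, h2, h3, h4⟩ := hpl V (Finset V × ℕ) (by omega) G X (F ×ˢ Finset.range (N - 1))
    (fun x => x.1) (fun _ => ∅) (fun x τ E => ∃ st, IsBoost q r x.1 (Finset.univ.image τ) E st)
    (fun x _ => x.1) θ u hθ hθε hu huε hlog
    (fun x hx => (hF x.1 (Finset.mem_product.mp hx).1).le) (fun x _ => by simp)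
    (fun x _ τ E hE γ hγ => by
      obtain ⟨st, hst⟩ := hE
      exact hst.edges γ hγ)
    (fun x hx => by
      refine (hrich V (by omega) G hG x.1 (hF x.1 (Finset.mem_product.mp hx).1)).trans ?_
      refine cnt_mono ?_
      rintro τ ⟨E, st, hE, hst⟩
      exact ⟨E, hE, st, hst⟩)
    (fun x _ => ⟨0, Finset.Subset.refl _⟩)
    (fun A hA => by
      refine le_trans ?_ (hFd A hA)
      simp only [Finset.univ_unique, Finset.sum_singleton]
      rw [Finset.sum_product]
      have e1 : (∑ x ∈ F, ∑ x_1 ∈ Finset.range (N - 1), if A ⊆ x then (1 : ℝ) else 0) =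
          ((N - 1 : ℕ) : ℝ) * (dg F A : ℝ) := by
        unfold dg
        rw [← Finset.sum_boole, Finset.mul_sum]
        refine Finset.sum_congr rfl fun x _ => ?_
        rw [Finset.sum_const, Finset.card_range, nsmul_eq_mul]
      rw [e1]
      refine mul_le_mul_of_nonneg_right ?_ (Nat.cast_nonneg _)
      exact_mod_cast Nat.sub_le N 1)
    hX hXd
  choose! st hst using fun x hx => (h1 x hx).1
  refine ⟨E, fun x => Finset.univ.image (τ x), st, ?_, ?_, ?_, ?_⟩
  · intro Q hQ k hk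
    have hx : (Q, k) ∈ F ×ˢ Finset.range (N - 1) :=
      Finset.mem_product.mpr ⟨hQ, Finset.mem_range.mpr hk⟩
    refine ⟨hst _ hx, ?_, (h1 _ hx).2.1, (h1 _ hx).2.2.1⟩
    refine Finset.card_image_le.trans ?_
    simp
  · intro Q hQ k hk Q' hQ' k' hk' hne
    exact h2 _ (Finset.mem_product.mpr ⟨hQ, Finset.mem_range.mpr hk⟩) _
      (Finset.mem_product.mpr ⟨hQ', Finset.mem_range.mpr hk'⟩) hne
  · intro A hA
    have := h3 A hA
    simpa only [Finset.univ_unique, Finset.sum_singleton] using this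
  · exact h4



/-- context of a participant -/
def opc {V : Type} [DecidableEq V] (nb : Finset V × ℕ → Finset V) (f : Finset V) :
    Option (Finset V × ℕ) → Finset V
  | none => f
  | some x => x.1 ∪ nb x

/-- vertices of the stub of a participant -/
def opst {V : Type} (st : Finset V × ℕ → Finset V → Finset V) (f : Finset V) :
    Option (Finset V × ℕ) → Finset V
  | none => f
  | some x => st x f

/-- vertex set of the pieces of a slot -/
def opW {V : Type} [DecidableEq V] (N : ℕ) (st : Finset V × ℕ → Finset V → Finset V)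
    (M : Finset V → ℕ) (part : Finset V → ℕ → Option (Finset V × ℕ))
    (Y : Finset V → ℕ → ℕ → Finset V) (f : Finset V) (i : ℕ) : Finset V :=
  f ∪ opst st f (part f i) ∪ (Finset.range N).biUnion (Y f i) ∪
    (if i + 1 < M f then (Finset.range N).biUnion (Y f (i + 1)) else ∅)

/-- cluster of a slot -/
def opcl {V : Type} [DecidableEq V] (nb : Finset V × ℕ → Finset V)
    (M : Finset V → ℕ) (part : Finset V → ℕ → Option (Finset V × ℕ))
    (nw : Finset V → ℕ → Finset V) (f : Finset V) (i : ℕ) : Finset V :=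
  opc nb f (part f i) ∪ nw f i ∪ (if i + 1 < M f then nw f (i + 1) else ∅)

structure OpH {V : Type} [DecidableEq V] (q r N : ℕ) (nb : Finset V × ℕ → Finset V)
    (st : Finset V × ℕ → Finset V → Finset V) (M : Finset V → ℕ)
    (part : Finset V → ℕ → Option (Finset V × ℕ)) (Y : Finset V → ℕ → ℕ → Finset V)
    (nw : Finset V → ℕ → Finset V) : Prop where
  fs : ∀ f : Finset V, f.card = r → ∀ i < M f, f ⊆ opc nb f (part f i)
  st : ∀ f : Finset V, f.card = r → ∀ i < M f, ∀ x, part f i = some x →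
    (st x f).card = q ∧ f ⊆ st x f ∧ st x f ⊆ x.1 ∪ nb x
  wires : ∀ f : Finset V, f.card = r → ∀ i < M f, IsWires q r N f (nw f i) (Y f i)
  d0 : ∀ f : Finset V, f.card = r → ∀ i < M f, Disjoint (nw f i) (opc nb f (part f i))
  d1 : ∀ f : Finset V, f.card = r → ∀ i < M f, 0 < i →
    Disjoint (nw f i) (opc nb f (part f (i - 1)))
  d2 : ∀ f : Finset V, f.card = r → ∀ i < M f, i + 1 < M f → Disjoint (nw f i) (nw f (i + 1))

section

variable {V : Type} [DecidableEq V] {q r N : ℕ} {nb : Finset V × ℕ → Finset V}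
    {st : Finset V × ℕ → Finset V → Finset V} {M : Finset V → ℕ}
    {part : Finset V → ℕ → Option (Finset V × ℕ)} {Y : Finset V → ℕ → ℕ → Finset V}
    {nw : Finset V → ℕ → Finset V}

theorem OpH.Ysub (h : OpH q r N nb st M part Y nw) {f : Finset V} (hf : f.card = r) {i : ℕ}
    (hi : i < M f) {l : ℕ} (hl : l < N) : Y f i l ⊆ f ∪ nw f i := by
  intro x hx
  by_cases hxf : x ∈ f
  · exact Finset.mem_union_left _ hxf
  · exact Finset.mem_union_right _ (((h.wires f hf i hi).card l hl).2.2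
      (Finset.mem_sdiff.mpr ⟨hx, hxf⟩))

theorem OpH.W_sub_cl (h : OpH q r N nb st M part Y nw) {f : Finset V} (hf : f.card = r) {i : ℕ}
    (hi : i < M f) : opW N st M part Y f i ⊆ opcl nb M part nw f i := by
  have hfs := h.fs f hf i hi
  unfold opW opcl
  refine Finset.union_subset (Finset.union_subset (Finset.union_subset ?_ ?_) ?_) ?_
  · exact hfs.trans (Finset.subset_union_left.trans Finset.subset_union_left)
  · refine Finset.Subset.trans ?_ (Finset.subset_union_left.trans Finset.subset_union_left)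
    cases hp : part f i with
    | none => simp [opst, opc]
    | some x =>
      simp only [opst, opc]
      exact (h.st f hf i hi x hp).2.2
  · refine Finset.biUnion_subset.mpr fun l hl => ?_
    refine (h.Ysub hf hi (Finset.mem_range.mp hl)).trans ?_
    refine Finset.Subset.trans ?_ Finset.subset_union_left
    exact Finset.union_subset_union hfs (Finset.Subset.refl _)
  · split_ifs with h1
    · refine Finset.biUnion_subset.mpr fun l hl => ?_
      refine (h.Ysub hf h1 (Finset.mem_range.mp hl)).trans ?_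
      refine Finset.union_subset ?_ Finset.subset_union_right
      exact hfs.trans (Finset.subset_union_left.trans Finset.subset_union_left)
    · exact Finset.empty_subset _

theorem OpH.card_W (h : OpH q r N nb st M part Y nw) (hq : r < q) (hN : q ≤ N)
    {f : Finset V} (hf : f.card = r) {i : ℕ} (hi : i < M f) :
    q + r ≤ (opW N st M part Y f i).card := by
  have hw := h.wires f hf i hi
  have h1 : f ∪ (Finset.range N).biUnion (fun l => Y f i l \ f) ⊆ opW N st M part Y f i := by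
    unfold opW
    refine Finset.union_subset ?_ ?_
    · exact Finset.subset_union_left.trans (Finset.subset_union_left.trans
        Finset.subset_union_left)
    · refine Finset.Subset.trans ?_ (Finset.subset_union_right.trans Finset.subset_union_left)
      exact Finset.biUnion_mono fun l _ => Finset.sdiff_subset
  have h2 : ((Finset.range N).biUnion (fun l => Y f i l \ f)).card = N * (q - r) := by
    rw [Finset.card_biUnion]
    · rw [Finset.sum_congr rfl (g := fun _ => q - r)]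
      · simp
      · intro l hl
        have := hw.card l (Finset.mem_range.mp hl)
        rw [Finset.card_sdiff_of_subset this.2.1, this.1, hf]
    · intro l hl l' hl' hne
      refine Finset.disjoint_left.mpr fun x hx hx' => ?_
      rw [Finset.mem_sdiff] at hx hx'
      have : x ∈ Y f i l ∩ Y f i l' := Finset.mem_inter.mpr ⟨hx.1, hx'.1⟩
      rw [hw.disj l (Finset.mem_range.mp hl) l' (Finset.mem_range.mp hl') hne] at this
      exact hx.2 this
  have h3 : (f ∪ (Finset.range N).biUnion (fun l => Y f i l \ f)).card = r + N * (q - r) := by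
    rw [Finset.card_union_of_disjoint, h2, hf]
    rw [Finset.disjoint_biUnion_right]
    intro l _
    exact Finset.disjoint_sdiff
  have h4 := Finset.card_le_card h1
  rw [h3] at h4
  have h5 : N * 1 ≤ N * (q - r) := Nat.mul_le_mul_left _ (by omega)
  omega

theorem OpH.card_W_le (h : OpH q r N nb st M part Y nw) (hq : r < q)
    {f : Finset V} (hf : f.card = r) {i : ℕ} (hi : i < M f) :
    (opW N st M part Y f i).card ≤ 2 * q + 2 * (N * q) := by
  unfold opW
  refine (Finset.card_union_le _ _).trans ?_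
  have h1 : (f ∪ opst st f (part f i)).card ≤ 2 * q := by
    refine (Finset.card_union_le _ _).trans ?_
    have : (opst st f (part f i)).card ≤ q := by
      cases hp : part f i with
      | none => simp only [opst]; omega
      | some x =>
        simp only [opst]
        exact (h.st f hf i hi x hp).1.le
    omega
  have h2 : ((Finset.range N).biUnion (Y f i)).card ≤ N * q := by
    refine Finset.card_biUnion_le.trans ?_
    refine (Finset.sum_le_sum (g := fun _ => q) fun l hl =>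
      ((h.wires f hf i hi).card l (Finset.mem_range.mp hl)).1.le).trans ?_
    simp
  have h3 : ((if i + 1 < M f then (Finset.range N).biUnion (Y f (i + 1)) else ∅) :
      Finset V).card ≤ N * q := by
    split_ifs with h4
    · refine Finset.card_biUnion_le.trans ?_
      refine (Finset.sum_le_sum (g := fun _ => q) fun l hl =>
        ((h.wires f hf (i + 1) h4).card l (Finset.mem_range.mp hl)).1.le).trans ?_
      simp
    · simp
  have h4 := Finset.card_union_le (f ∪ opst st f (part f i)) ((Finset.range N).biUnion (Y f i))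
  omega

theorem op_piece_sub {f : Finset V} (hf : f.card = r) {i : ℕ} (act : Bool) {a : ℕ}
    (hv : i + 1 < M f ∨ nxt N (part f i) act a = 0) (hN0 : 0 < N) :
    piece r N st part Y f i act a ⊆ (opW N st M part Y f i).powersetCard r := by
  have hstub : ∀ Z : Finset V, Z ⊆ opW N st M part Y f i →
      stub r Z f ⊆ (opW N st M part Y f i).powersetCard r := by
    intro Z hZ
    unfold stub
    exact (Finset.erase_subset _ _).trans (Finset.powersetCard_mono hZ)
  have hfW : f ⊆ opW N st M part Y f i := by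
    unfold opW
    exact Finset.subset_union_left.trans (Finset.subset_union_left.trans
        Finset.subset_union_left)
  unfold piece
  refine Finset.union_subset (Finset.union_subset ?_ ?_) ?_
  · split_ifs with h1
    · cases hp : part f i with
      | none =>
        simp only [elt]
        rw [Finset.singleton_subset_iff, Finset.mem_powersetCard]
        exact ⟨hfW, hf⟩
      | some x =>
        simp only [elt]
        refine hstub _ ?_
        unfold opW
        rw [hp]
        exact Finset.subset_union_right.trans (Finset.subset_union_left.trans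
          Finset.subset_union_left)
    · exact Finset.empty_subset _
  · refine Finset.biUnion_subset.mpr fun l hl => hstub _ ?_
    unfold opW
    refine Finset.Subset.trans ?_ (Finset.subset_union_right.trans Finset.subset_union_left)
    exact Finset.subset_biUnion_of_mem (Y f i)
      (Finset.mem_range.mpr (Finset.mem_Ico.mp hl).2)
  · refine Finset.biUnion_subset.mpr fun l hl => hstub _ ?_
    rcases hv with hv | hv
    · unfold opW
      rw [if_pos hv]
      refine Finset.Subset.trans ?_ Finset.subset_union_right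
      refine Finset.subset_biUnion_of_mem (Y f (i + 1)) (Finset.mem_range.mpr ?_)
      refine (Finset.mem_range.mp hl).trans ?_
      unfold nxt
      split <;> exact Nat.mod_lt _ hN0
    · rw [hv] at hl
      simp at hl

theorem OpH.piece_div (h : OpH q r N nb st M part Y nw) (hr : 1 ≤ r) (hq : r < q)
    (hN2 : 2 ≤ N) (hN : ∀ i ≤ r, (q - i).choose (r - i) ∣ N)
    {f : Finset V} (hf : f.card = r) {i : ℕ} (hi : i < M f) (act : Bool) {a : ℕ} (ha : a < N)
    (hv : i + 1 < M f ∨ nxt N (part f i) act a = 0) :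
    Divis q r (piece r N st part Y f i act a) := by
  have hj : ∀ j, j = i ∨ (j = i + 1 ∧ nxt N (part f i) act a ≠ 0) → j < M f := by
    rintro j (rfl | ⟨rfl, h1⟩)
    · exact hi
    · exact hv.resolve_right h1
  refine piece_divis q r N hr hq hN2 hN st part Y f hf i act a ha ?_ ?_ ?_ ?_
  · intro x hx
    have := h.st f hf i hi x hx
    exact ⟨this.1, this.2.1⟩
  · intro j hj' l hl
    have := (h.wires f hf j (hj j hj')).card l hl
    exact ⟨this.1, this.2.1⟩
  · intro j j' hj1 hj2 l hl l' hl' hne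
    have hjj := hj j hj1
    have hjj' := hj j' hj2
    have c1 := (h.wires f hf j hjj).card l hl
    have c2 := (h.wires f hf j' hjj').card l' hl'
    by_cases e : j = j'
    · subst e
      exact (h.wires f hf j hjj).disj l hl l' hl' (fun e => hne (by rw [e]))
    · have hd : Disjoint (nw f j) (nw f j') := by
        rcases hj1 with rfl | ⟨rfl, _⟩ <;> rcases hj2 with rfl | ⟨rfl, _⟩
        · exact absurd rfl e
        · exact h.d2 f hf _ hjj hjj'
        · exact (h.d2 f hf _ hjj' hjj).symm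
        · exact absurd rfl e
      refine Finset.Subset.antisymm ?_ (Finset.subset_inter c1.2.1 c2.2.1)
      intro x hx
      rw [Finset.mem_inter] at hx
      by_contra hxf
      exact Finset.disjoint_left.mp hd (c1.2.2 (Finset.mem_sdiff.mpr ⟨hx.1, hxf⟩))
        (c2.2.2 (Finset.mem_sdiff.mpr ⟨hx.2, hxf⟩))
  · intro x hx j hj1 l hl
    have hjj := hj j hj1
    have c1 := (h.wires f hf j hjj).card l hl
    have c2 := h.st f hf i hi x hx
    have hd : Disjoint (nw f j) (opc nb f (part f i)) := by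
      rcases hj1 with rfl | ⟨rfl, _⟩
      · exact h.d0 f hf _ hjj
      · exact h.d1 f hf _ hjj (Nat.succ_pos _)
    refine Finset.Subset.antisymm ?_ (Finset.subset_inter c2.2.1 c1.2.1)
    intro y hy
    rw [Finset.mem_inter] at hy
    by_contra hyf
    refine Finset.disjoint_left.mp hd (c1.2.2 (Finset.mem_sdiff.mpr ⟨hy.2, hyf⟩)) ?_
    rw [hx]
    exact c2.2.2 hy.1

end

/-- stage 3: placing the absorbers -/
theorem op_abs (q r N : ℕ) (hr : 1 ≤ r) (hq : r < q) (hN2 : q ≤ N)
    (hN : ∀ i ≤ r, (q - i).choose (r - i) ∣ N) :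
    ∃ (C ε : ℝ) (n₀ : ℕ), 1 ≤ C ∧ 0 < ε ∧
    ∀ (V : Type) [Fintype V] [DecidableEq V], n₀ ≤ Fintype.card V →
    ∀ (G Z : Finset (Finset V)) (nb : Finset V × ℕ → Finset V)
      (st : Finset V × ℕ → Finset V → Finset V) (M : Finset V → ℕ)
      (part : Finset V → ℕ → Option (Finset V × ℕ)) (Y : Finset V → ℕ → ℕ → Finset V)
      (nw : Finset V → ℕ → Finset V) (θ u : ℝ),
    OpH q r N nb st M part Y nw → Dense q r (cg r) G → 0 < θ → 2 * N * θ ≤ ε → 0 ≤ u → u ≤ ε →
    r * Real.log ((Fintype.card V : ℝ) + 1) ≤ 2 * N * θ * (Fintype.card V : ℝ) →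
    (∀ A : Finset V, A.card < r → (∑ f ∈ Finset.univ.powersetCard r, ∑ i ∈ Finset.range (M f),
      if A ⊆ opcl nb M part nw f i then (1 : ℝ) else 0) ≤
        θ * (Fintype.card V : ℝ) ^ (r - A.card)) →
    Unif r Z → (∀ S : Finset V, S.card = r - 1 → (dg Z S : ℝ) ≤ u * (Fintype.card V : ℝ)) →
    ∃ Ab : Finset V → ℕ → Bool → ℕ → Finset (Finset V),
      (∀ f : Finset V, f.card = r → ∀ i < M f, ∀ act : Bool, ∀ a < N,
        (i + 1 < M f ∨ nxt N (part f i) act a = 0) →
        Decomp q r (Ab f i act a) ∧ Decomp q r (Ab f i act a ∪ piece r N st part Y f i act a) ∧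
        Disjoint (Ab f i act a) (piece r N st part Y f i act a)) ∧
      (∀ f : Finset V, f.card = r → ∀ i < M f, ∀ act : Bool, ∀ a < N,
        ¬ (i + 1 < M f ∨ nxt N (part f i) act a = 0) → Ab f i act a = ∅) ∧
      (∀ f : Finset V, f.card = r → ∀ i < M f, ∀ act : Bool, ∀ a < N,
        Ab f i act a ⊆ G ∧ Disjoint (Ab f i act a) Z) ∧
      (∀ f : Finset V, f.card = r → ∀ i < M f, ∀ act : Bool, ∀ a < N,
        ∀ f' : Finset V, f'.card = r → ∀ i' < M f', ∀ act' : Bool, ∀ a' < N,
        (f, i, act, a) ≠ (f', i', act', a') → Disjoint (Ab f i act a) (Ab f' i' act' a')) ∧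
      (∀ S : Finset V, S.card = r - 1 →
        (dg ((Finset.univ.powersetCard r).biUnion fun f => (Finset.range (M f)).biUnion fun i =>
          (Finset.univ : Finset Bool).biUnion fun act =>
            (Finset.range N).biUnion fun a => Ab f i act a) S : ℝ) ≤
          C * (2 * N * θ) * (Fintype.card V : ℝ)) := by
  classical
  have hN0 : 0 < N := by omega
  obtain ⟨v, α, n₁, hα, hrich⟩ := abs_rich q r (2 * q + 2 * (N * q)) hr hq
  obtain ⟨C, ε, n₂, hC, hε, hpl⟩ := rplace r (2 * q + 2 * (N * q)) v 1 hr α hα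
  refine ⟨C, ε, n₁ + n₂, hC, hε, ?_⟩
  intro V _ _ hn G Z nb st M part Y nw θ u h hG hθ hθε hu huε hlog hcl hZ hZd
  have hN0' : (0 : ℝ) < N := by exact_mod_cast hN0
  set I : Finset ((_ : Finset V) × (ℕ × Bool × ℕ)) :=
    (((Finset.univ : Finset V).powersetCard r).sigma
      (fun f => Finset.range (M f) ×ˢ ((Finset.univ : Finset Bool) ×ˢ Finset.range N))).filter
      (fun t => t.2.1 + 1 < M t.1 ∨ nxt N (part t.1 t.2.1) t.2.2.1 t.2.2.2 = 0) with hI
  have hmem : ∀ t, t ∈ I ↔ t.1.card = r ∧ t.2.1 < M t.1 ∧ t.2.2.2 < N ∧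
      (t.2.1 + 1 < M t.1 ∨ nxt N (part t.1 t.2.1) t.2.2.1 t.2.2.2 = 0) := by
    intro t
    rw [hI, Finset.mem_filter, Finset.mem_sigma, Finset.mem_powersetCard, Finset.mem_product,
      Finset.mem_product, Finset.mem_range, Finset.mem_range]
    simp only [Finset.subset_univ, Finset.mem_univ, true_and]
    tauto
  obtain ⟨τ, E, h1, h2, h3, h4⟩ := hpl V ((_ : Finset V) × (ℕ × Bool × ℕ)) (by omega) G Z I
    (fun t => opW N st M part Y t.1 t.2.1) (fun _ => ∅)
    (fun t τ E => IsAbs q r (opW N st M part Y t.1 t.2.1)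
      (piece r N st part Y t.1 t.2.1 t.2.2.1 t.2.2.2) (Finset.univ.image τ) E)
    (fun t _ => opcl nb M part nw t.1 t.2.1) (2 * N * θ) u (by positivity) hθε hu huε hlog
    (fun t ht => h.card_W_le hq ((hmem t).mp ht).1 ((hmem t).mp ht).2.1)
    (fun t _ => by simp)
    (fun t _ τ E hE γ hγ => hE.edges γ hγ)
    (fun t ht => by
      obtain ⟨ht1, ht2, ht3, ht4⟩ := (hmem t).mp ht
      exact hrich V (by omega) G hG _ (h.card_W hq hN2 ht1 ht2) (h.card_W_le hq ht1 ht2) _
        (op_piece_sub ht1 _ ht4 hN0) (h.piece_div hr hq (by omega) hN ht1 ht2 _ ht3 ht4))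
    (fun t ht => ⟨0, h.W_sub_cl ((hmem t).mp ht).1 ((hmem t).mp ht).2.1⟩)
    (fun A hA => by
      simp only [Finset.univ_unique, Finset.sum_singleton]
      have e1 : (∑ t ∈ I, if A ⊆ opcl nb M part nw t.1 t.2.1 then (1 : ℝ) else 0) ≤
          ∑ t ∈ ((Finset.univ : Finset V).powersetCard r).sigma
            (fun f => Finset.range (M f) ×ˢ ((Finset.univ : Finset Bool) ×ˢ Finset.range N)),
            if A ⊆ opcl nb M part nw t.1 t.2.1 then (1 : ℝ) else 0 := by
        refine Finset.sum_le_sum_of_subset_of_nonneg (Finset.filter_subset _ _) ?_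
        intro t _ _
        split_ifs <;> norm_num
      refine e1.trans ?_
      rw [Finset.sum_sigma]
      have e2 : ∀ f ∈ (Finset.univ : Finset V).powersetCard r,
          (∑ s ∈ Finset.range (M f) ×ˢ ((Finset.univ : Finset Bool) ×ˢ Finset.range N),
            if A ⊆ opcl nb M part nw f s.1 then (1 : ℝ) else 0) =
          2 * N * ∑ i ∈ Finset.range (M f), if A ⊆ opcl nb M part nw f i then (1 : ℝ) else 0 := by
        intro f _
        rw [Finset.sum_product, Finset.mul_sum]
        refine Finset.sum_congr rfl fun i _ => ?_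
        change (∑ y ∈ (Finset.univ : Finset Bool) ×ˢ Finset.range N,
          if A ⊆ opcl nb M part nw f i then (1 : ℝ) else 0) = _
        rw [Finset.sum_const, Finset.card_product]
        simp
      rw [Finset.sum_congr rfl e2, ← Finset.mul_sum]
      have := hcl A hA
      calc _ ≤ 2 * (N : ℝ) * (θ * (Fintype.card V : ℝ) ^ (r - A.card)) :=
            mul_le_mul_of_nonneg_left this (by positivity)
        _ = _ := by ring)
    hZ hZd
  refine ⟨fun f i act a => if (⟨f, (i, act, a)⟩ : (_ : Finset V) × (ℕ × Bool × ℕ)) ∈ I then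
    E ⟨f, (i, act, a)⟩ else ∅, ?_, ?_, ?_, ?_, ?_⟩
  · intro f hf i hi act a ha hv
    have ht : (⟨f, (i, act, a)⟩ : (_ : Finset V) × (ℕ × Bool × ℕ)) ∈ I :=
      (hmem _).mpr ⟨hf, hi, ha, hv⟩
    simp only [ht, if_true]
    obtain ⟨hE, _, _, _⟩ := h1 _ ht
    refine ⟨hE.dec, hE.dec', ?_⟩
    rw [Finset.disjoint_left]
    intro γ hγ hγ'
    have h5 := op_piece_sub hf act hv hN0 hγ'
    exact (hE.edges γ hγ).2.2 (Finset.mem_powersetCard.mp h5).1
  · intro f hf i hi act a ha hv
    have ht : (⟨f, (i, act, a)⟩ : (_ : Finset V) × (ℕ × Bool × ℕ)) ∉ I := by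
      intro ht
      exact hv ((hmem _).mp ht).2.2.2
    simp only [ht, if_false]
  · intro f hf i hi act a ha
    by_cases ht : (⟨f, (i, act, a)⟩ : (_ : Finset V) × (ℕ × Bool × ℕ)) ∈ I
    · simp only [ht, if_true]
      exact ⟨(h1 _ ht).2.1, (h1 _ ht).2.2.1⟩
    · simp only [ht, if_false]
      exact ⟨Finset.empty_subset _, Finset.disjoint_empty_left _⟩
  · intro f hf i hi act a ha f' hf' i' hi' act' a' ha' hne
    by_cases ht : (⟨f, (i, act, a)⟩ : (_ : Finset V) × (ℕ × Bool × ℕ)) ∈ I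
    · by_cases ht' : (⟨f', (i', act', a')⟩ : (_ : Finset V) × (ℕ × Bool × ℕ)) ∈ I
      · simp only [ht, ht', if_true]
        refine h2 _ ht _ ht' ?_
        intro e
        apply hne
        simp only [Sigma.mk.injEq, heq_eq_eq, Prod.mk.injEq] at e
        obtain ⟨e1, e2, e3, e4⟩ := e
        rw [e1, e2, e3, e4]
      · simp only [ht', if_false]
        exact Finset.disjoint_empty_right _
    · simp only [ht, if_false]
      exact Finset.disjoint_empty_left _
  · intro S hS
    refine le_trans ?_ (h4 S hS)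
    have : dg ((Finset.univ.powersetCard r).biUnion fun f => (Finset.range (M f)).biUnion fun i =>
          (Finset.univ : Finset Bool).biUnion fun act =>
            (Finset.range N).biUnion fun a =>
              if (⟨f, (i, act, a)⟩ : (_ : Finset V) × (ℕ × Bool × ℕ)) ∈ I then
                E ⟨f, (i, act, a)⟩ else ∅) S ≤ dg (I.biUnion E) S := by
      refine dg_mono ?_ S
      intro γ hγ
      simp only [Finset.mem_biUnion] at hγ ⊢
      obtain ⟨f, hf, i, hi, act, _, a, ha, hγ⟩ := hγ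
      split_ifs at hγ with ht
      · exact ⟨_, ht, hγ⟩
      · simp at hγ
    exact_mod_cast this



theorem op_slots {V : Type} [Fintype V] [DecidableEq V] (q r N : ℕ) (X F : Finset (Finset V))
    (nb : Finset V × ℕ → Finset V) (hF : ∀ Q ∈ F, Q.card = q) (hX : Unif r X) (A : Finset V) :
    (∑ f ∈ (Finset.univ : Finset V).powersetCard r, ∑ p ∈ Pf r N X F f,
      if A ⊆ opc nb f p then (1 : ℝ) else 0) ≤
    (dg X A : ℝ) + (q.choose r : ℝ) * ∑ x ∈ F ×ˢ Finset.range (N - 1),
      if A ⊆ x.1 ∪ nb x then (1 : ℝ) else 0 := by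
  have h1 : ∀ f : Finset V, (∑ p ∈ Pf r N X F f, if A ⊆ opc nb f p then (1 : ℝ) else 0) =
      (if f ∈ X then (if A ⊆ f then (1 : ℝ) else 0) else 0) +
      ∑ x ∈ F ×ˢ Finset.range (N - 1), if f ∈ x.1.powersetCard r then
        (if A ⊆ x.1 ∪ nb x then (1 : ℝ) else 0) else 0 := by
    intro f
    unfold Pf
    rw [Finset.sum_union]
    · congr 1
      · split_ifs with h1 <;> simp [opc, *]
      · rw [Finset.sum_image (fun a _ b _ h => Option.some.inj h)]
        rw [← Finset.sum_filter (s := F ×ˢ Finset.range (N - 1))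
          (fun x => f ∈ x.1.powersetCard r) (fun x => if A ⊆ x.1 ∪ nb x then (1 : ℝ) else 0)]
        refine Finset.sum_congr ?_ fun x _ => rfl
        ext x
        simp only [Finset.mem_product, Finset.mem_filter]
        tauto
    · rw [Finset.disjoint_left]
      intro p hp hp'
      rw [Finset.mem_image] at hp'
      obtain ⟨x, _, rfl⟩ := hp'
      split_ifs at hp <;> simp at hp
  simp only [h1]
  rw [Finset.sum_add_distrib]
  refine add_le_add (le_of_eq ?_) (le_of_eq ?_)
  · unfold dg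
    rw [← Finset.sum_filter, ← Finset.sum_boole]
    refine Finset.sum_congr ?_ fun _ _ => rfl
    ext f
    simp only [Finset.mem_filter, Finset.mem_powersetCard, Finset.subset_univ, true_and]
    exact ⟨fun h => h.2, fun h => ⟨hX f h, h⟩⟩
  · rw [Finset.sum_comm, Finset.mul_sum]
    refine Finset.sum_congr rfl fun x hx => ?_
    rw [← Finset.sum_filter, Finset.sum_const, nsmul_eq_mul]
    congr 1
    rw [← hF x.1 (Finset.mem_product.mp hx).1, ← Finset.card_powersetCard]
    congr 2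
    ext f
    simp only [Finset.mem_filter, Finset.mem_powersetCard, Finset.subset_univ, true_and]
    exact ⟨fun h => h.2, fun h => ⟨h.2, h⟩⟩



theorem op_asym (δ K ε : ℝ) (r : ℕ) (hδ : 0 < δ) (hδ1 : δ ≤ 1 / 2) (hK : 0 < K) (hε : 0 < ε) :
    ∃ n₀ : ℕ, ∀ n : ℕ, n₀ ≤ n → 0 < n → K * (n : ℝ) ^ (-δ) ≤ ε ∧
      r * Real.log ((n : ℝ) + 1) ≤ (n : ℝ) ^ (-δ) * n ∧
      K * (n : ℝ) ^ (-δ) * n ≤ (n : ℝ) ^ (1 - δ / 2) := by
  have h1 : Filter.Tendsto (fun n : ℕ => ((n : ℝ)) ^ (-δ)) Filter.atTop (nhds 0) :=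
    (tendsto_rpow_neg_atTop hδ).comp tendsto_natCast_atTop_atTop
  have h2 : Filter.Tendsto (fun n : ℕ => ((n : ℝ)) ^ (-(δ / 2))) Filter.atTop (nhds 0) :=
    (tendsto_rpow_neg_atTop (by positivity)).comp tendsto_natCast_atTop_atTop
  have h3 : ∀ᶠ x : ℝ in Filter.atTop, ‖Real.log x‖ ≤ (1 / (2 * r + 1)) * ‖x ^ (1 / 2 : ℝ)‖ :=
    (isLittleO_log_rpow_atTop (by norm_num : (0 : ℝ) < 1 / 2)).def (by positivity)
  have h3' := tendsto_natCast_atTop_atTop.eventually h3
  have h4 := ((h1.eventually (gt_mem_nhds (show (0 : ℝ) < ε / K by positivity))).and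
    (h2.eventually (gt_mem_nhds (show (0 : ℝ) < 1 / K by positivity)))).and
    (h3'.and (Filter.eventually_ge_atTop 2))
  obtain ⟨n₀, h⟩ := Filter.eventually_atTop.mp h4
  refine ⟨n₀, fun n hn hn0 => ?_⟩
  obtain ⟨⟨a1, a2⟩, a3, a4⟩ := h n hn
  have hn0' : (0 : ℝ) < n := by exact_mod_cast hn0
  have hn1 : (1 : ℝ) ≤ n := by exact_mod_cast hn0
  refine ⟨?_, ?_, ?_⟩
  · have := mul_le_mul_of_nonneg_left a1.le hK.le
    rwa [mul_div_cancel₀ _ hK.ne'] at this
  · have e1 : (n : ℝ) ^ (-δ) * n = (n : ℝ) ^ (1 - δ) := by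
      rw [show (1 - δ) = (-δ) + 1 by ring, Real.rpow_add hn0', Real.rpow_one]
    have e2 : (n : ℝ) ^ (1 / 2 : ℝ) ≤ (n : ℝ) ^ (1 - δ) :=
      Real.rpow_le_rpow_of_exponent_le hn1 (by linarith)
    have e3 : Real.log ((n : ℝ) + 1) ≤ 2 * Real.log n := by
      have : ((n : ℝ) + 1) ≤ (n : ℝ) ^ 2 := by
        have : (2 : ℝ) ≤ n := by exact_mod_cast a4
        nlinarith
      calc Real.log ((n : ℝ) + 1) ≤ Real.log ((n : ℝ) ^ 2) :=
            Real.log_le_log (by positivity) this
        _ = 2 * Real.log n := by rw [Real.log_pow]; norm_num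
    rw [Real.norm_of_nonneg (Real.log_nonneg hn1),
      Real.norm_of_nonneg (Real.rpow_nonneg hn0'.le _)] at a3
    rw [e1]
    have hr0 : (0 : ℝ) ≤ r := Nat.cast_nonneg r
    have hp : (0 : ℝ) ≤ (n : ℝ) ^ (1 / 2 : ℝ) := Real.rpow_nonneg hn0'.le _
    calc r * Real.log ((n : ℝ) + 1) ≤ r * (2 * ((1 / (2 * r + 1)) * (n : ℝ) ^ (1 / 2 : ℝ))) := by
          refine mul_le_mul_of_nonneg_left ?_ hr0
          linarith
      _ = (2 * r / (2 * r + 1)) * (n : ℝ) ^ (1 / 2 : ℝ) := by ring
      _ ≤ 1 * (n : ℝ) ^ (1 / 2 : ℝ) := by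
          refine mul_le_mul_of_nonneg_right ?_ hp
          rw [div_le_one (by positivity)]
          linarith
      _ ≤ (n : ℝ) ^ (1 - δ) := by rw [one_mul]; exact e2
  · have e1 : (n : ℝ) ^ (1 - δ / 2) = (n : ℝ) ^ (-δ) * n * (n : ℝ) ^ (δ / 2) := by
      rw [show (1 - δ / 2) = (-δ) + 1 + δ / 2 by ring, Real.rpow_add hn0', Real.rpow_add hn0',
        Real.rpow_one]
    have e2 : K ≤ (n : ℝ) ^ (δ / 2) := by
      rw [Real.rpow_neg hn0'.le] at a2
      have hp : (0 : ℝ) < (n : ℝ) ^ (δ / 2) := Real.rpow_pos_of_pos hn0' _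
      rw [inv_eq_one_div, div_lt_div_iff₀ hp hK] at a2
      linarith
    rw [e1]
    have hp : (0 : ℝ) ≤ (n : ℝ) ^ (-δ) * n := by positivity
    calc K * (n : ℝ) ^ (-δ) * n = (n : ℝ) ^ (-δ) * n * K := by ring
      _ ≤ _ := mul_le_mul_of_nonneg_left e2 hp

theorem op_dg_union {V : Type} [DecidableEq V] (A B : Finset (Finset V)) (S : Finset V) :
    dg (A ∪ B) S ≤ dg A S + dg B S := by
  unfold dg
  rw [Finset.filter_union]
  exact Finset.card_union_le _ _

theorem omniplace (q r N : ℕ) (hr : 1 ≤ r) (hq : r < q) (hN2 : q ≤ N)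
    (hN : ∀ i ≤ r, (q - i).choose (r - i) ∣ N) (δ : ℝ) (hδ : 0 < δ) (hδ1 : δ ≤ 1 / 2) :
    ∃ (δ' : ℝ) (n₀ : ℕ), 0 < δ' ∧
    ∀ (V : Type) [Fintype V] [DecidableEq V], n₀ ≤ Fintype.card V →
    ∀ (G X F : Finset (Finset V)), Dense q r (cg r) G → X ⊆ G →
    (∀ S : Finset V, S.card = r - 1 → (dg X S : ℝ) ≤ (Fintype.card V : ℝ) ^ (1 - δ)) →
    (∀ Q ∈ F, Q.card = q) →
    (∀ A : Finset V, A.card < r →
      (dg F A : ℝ) ≤ (Fintype.card V : ℝ) ^ ((r : ℝ) - A.card - δ)) →
    ∃ (B : Finset V × ℕ → Finset (Finset V)) (nb : Finset V × ℕ → Finset V)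
      (st : Finset V × ℕ → Finset V → Finset V) (M : Finset V → ℕ)
      (part : Finset V → ℕ → Option (Finset V × ℕ)) (Y : Finset V → ℕ → ℕ → Finset V)
      (nw : Finset V → ℕ → Finset V) (Ab : Finset V → ℕ → Bool → ℕ → Finset (Finset V)),
      IsOmni q r N X F B nb st M part Y nw Ab ∧ omniA r N F B M Y Ab ⊆ G ∧
      Disjoint (omniA r N F B M Y Ab) X ∧
      ∀ S : Finset V, S.card = r - 1 →
        (dg (omniA r N F B M Y Ab) S : ℝ) ≤ (Fintype.card V : ℝ) ^ (1 - δ') := by
  classical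
  have hN0 : 0 < N := by omega
  have hN0' : (0 : ℝ) < N := by exact_mod_cast hN0
  obtain ⟨C₁, ε₁, n₁, v₁, hC₁, hε₁, hb⟩ := op_boost q r N hr hq
  obtain ⟨C₂, ε₂, n₂, v₂, hC₂, hε₂, hc⟩ := chain q r N (q + v₁) hr hq
  obtain ⟨C₃, ε₃, n₃, hC₃, hε₃, ha⟩ := op_abs q r N hr hq hN2 hN
  have hC₁0 : (0 : ℝ) < C₁ := by linarith
  have hC₂0 : (0 : ℝ) < C₂ := by linarith
  have hC₃0 : (0 : ℝ) < C₃ := by linarith
  set K₂ : ℝ := 1 + (q.choose r : ℝ) * (C₁ * N) with hK₂
  have hK₂0 : 0 < K₂ := by rw [hK₂]; positivity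
  set K : ℝ := 1 + N + C₁ * N + K₂ + C₂ * K₂ + 2 * N * (C₂ * K₂) +
    C₃ * (2 * N * (C₂ * K₂)) with hK
  have hK0 : 0 < K := by rw [hK]; positivity
  obtain ⟨n₄, hn₄⟩ := op_asym δ K (min ε₁ (min ε₂ ε₃)) r hδ hδ1 hK0
    (lt_min hε₁ (lt_min hε₂ hε₃))
  refine ⟨δ / 2, n₁ + n₂ + n₃ + n₄ + 1, by positivity, ?_⟩
  intro V _ _ hn G X F hG hXG hXd hF hFd
  set n : ℕ := Fintype.card V with hndef
  obtain ⟨ha1, ha2, ha3⟩ := hn₄ n (by omega) (by omega)
  have hn0 : (0 : ℝ) < n := by exact_mod_cast (by omega : 0 < n)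
  set x : ℝ := (n : ℝ) ^ (-δ) with hx
  have hx0 : 0 < x := by rw [hx]; positivity
  have hxn0 : 0 < x * n := by positivity
  have hKe : ∀ k : ℝ, k ≤ K → k * x ≤ ε₁ ∧ k * x ≤ ε₂ ∧ k * x ≤ ε₃ := by
    intro k hk
    have h1 : k * x ≤ K * x := mul_le_mul_of_nonneg_right hk hx0.le
    have h2 := min_le_left ε₁ (min ε₂ ε₃)
    have h3 := min_le_right ε₁ (min ε₂ ε₃)
    have h4 := min_le_left ε₂ ε₃
    have h5 := min_le_right ε₂ ε₃
    exact ⟨by linarith, by linarith, by linarith⟩
  have hlog : ∀ k : ℝ, 1 ≤ k → r * Real.log ((n : ℝ) + 1) ≤ k * x * n := by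
    intro k hk
    refine ha2.trans ?_
    have := mul_le_mul_of_nonneg_right hk hxn0.le
    linarith
  have hXr : Unif r X := fun e he => hG.1 e (hXG he)
  have hXd' : ∀ S : Finset V, S.card = r - 1 → (dg X S : ℝ) ≤ x * n := by
    intro S hS
    refine (hXd S hS).trans (le_of_eq ?_)
    rw [show (1 - δ) = (-δ) + 1 by ring, Real.rpow_add hn0, Real.rpow_one]
  have hFd' : ∀ A : Finset V, A.card < r → (N : ℝ) * (dg F A : ℝ) ≤
      (N * x) * (n : ℝ) ^ (r - A.card) := by
    intro A hA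
    have h1 : (n : ℝ) ^ ((r : ℝ) - A.card - δ) = x * (n : ℝ) ^ (r - A.card) := by
      rw [show (r : ℝ) - A.card - δ = (-δ) + ((r - A.card : ℕ) : ℝ) by
        rw [Nat.cast_sub hA.le]; ring, Real.rpow_add hn0, Real.rpow_natCast]
    have h2 := hFd A hA
    rw [h1] at h2
    calc (N : ℝ) * (dg F A : ℝ) ≤ N * (x * (n : ℝ) ^ (r - A.card)) :=
          mul_le_mul_of_nonneg_left h2 hN0'.le
      _ = _ := by ring
  have hp1 : (1 : ℝ) ≤ K := by
    rw [hK]
    have : 0 ≤ (N : ℝ) + C₁ * N + K₂ + C₂ * K₂ + 2 * N * (C₂ * K₂) +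
      C₃ * (2 * N * (C₂ * K₂)) := by positivity
    linarith
  have hpN : (N : ℝ) ≤ K := by
    rw [hK]
    have : 0 ≤ 1 + C₁ * N + K₂ + C₂ * K₂ + 2 * N * (C₂ * K₂) +
      C₃ * (2 * N * (C₂ * K₂)) := by positivity
    linarith
  have hN1 : (1 : ℝ) ≤ N := by exact_mod_cast hN0
  -- stage 1
  obtain ⟨B, nb, st, hB1, hB2, hB3, hB4⟩ := hb V (by omega) G X F (N * x) x hG (by positivity)
    (hKe N hpN).1 hx0.le (by have := (hKe 1 hp1).1; rwa [one_mul] at this) (hlog N hN1) hF hFd'
    hXr hXd'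
  -- slots
  choose part hpart hpsum using fun f : Finset V => op_enum (Pf r N X F f)
  set M : Finset V → ℕ := fun f => (Pf r N X F f).card with hM
  have hpm : ∀ f : Finset V, ∀ i < M f, part f i ∈ Pf r N X F f := by
    intro f i hi
    exact (hpart f).mapsTo hi
  have hsome : ∀ f : Finset V, ∀ i < M f, ∀ y, part f i = some y →
      y.1 ∈ F ∧ f ∈ y.1.powersetCard r ∧ y.2 < N - 1 := by
    intro f i hi y hy
    have h1 := hpm f i hi
    rw [hy] at h1
    unfold Pf at h1
    rw [Finset.mem_union] at h1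
    rcases h1 with h1 | h1
    · split_ifs at h1 <;> simp at h1
    · rw [Finset.mem_image] at h1
      obtain ⟨z, hz, hzy⟩ := h1
      have : z = y := Option.some.inj hzy
      subst this
      rw [Finset.mem_product, Finset.mem_filter, Finset.mem_range] at hz
      exact ⟨hz.1.1, hz.1.2, hz.2⟩
  have hc0 : ∀ f : Finset V, f.card = r → ∀ i < M f,
      f ⊆ opc nb f (part f i) ∧ (opc nb f (part f i)).card ≤ q + v₁ := by
    intro f hf i hi
    cases hp : part f i with
    | none =>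
      simp only [opc]
      exact ⟨Finset.Subset.refl _, by omega⟩
    | some y =>
      obtain ⟨h1, h2, h3⟩ := hsome f i hi y hp
      simp only [opc]
      refine ⟨(Finset.mem_powersetCard.mp h2).1.trans Finset.subset_union_left, ?_⟩
      refine (Finset.card_union_le _ _).trans ?_
      have h4 := (hB1 y.1 h1 y.2 h3).2.1
      have h5 := hF y.1 h1
      change y.1.card + (nb (y.1, y.2)).card ≤ _
      omega
  have hcs : ∀ A : Finset V, A.card < r → (∑ f ∈ Finset.univ.powersetCard r,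
      ∑ i ∈ Finset.range (M f), if A ⊆ opc nb f (part f i) then (1 : ℝ) else 0) ≤
        (K₂ * x) * (n : ℝ) ^ (r - A.card) := by
    intro A hA
    have h1 : (∑ f ∈ Finset.univ.powersetCard r,
      ∑ i ∈ Finset.range (M f), if A ⊆ opc nb f (part f i) then (1 : ℝ) else 0) =
      ∑ f ∈ Finset.univ.powersetCard r, ∑ p ∈ Pf r N X F f,
        if A ⊆ opc nb f p then (1 : ℝ) else 0 :=
      Finset.sum_congr rfl fun f _ => hpsum f (fun p => if A ⊆ opc nb f p then (1 : ℝ) else 0)
    rw [h1]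
    refine (op_slots q r N X F nb hF hXr A).trans ?_
    have h2 := dg_le_of_codeg r hr X hXr (x * n) hxn0.le hXd' A hA
    have h3 : (n : ℝ) ^ (r - 1 - A.card) * (x * n) = x * (n : ℝ) ^ (r - A.card) := by
      rw [show r - A.card = r - 1 - A.card + 1 by omega, pow_succ]; ring
    rw [← hndef] at h2
    rw [h3] at h2
    have h4 := mul_le_mul_of_nonneg_left (hB3 A hA) (Nat.cast_nonneg (α := ℝ) (q.choose r))
    have h5 : (K₂ * x) * (n : ℝ) ^ (r - A.card) = x * (n : ℝ) ^ (r - A.card) +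
        (q.choose r : ℝ) * (C₁ * (N * x) * (n : ℝ) ^ (r - A.card)) := by
      rw [hK₂]; ring
    rw [h5]
    exact add_le_add h2 h4
  -- stage 2
  set Z₂ : Finset (Finset V) := X ∪ (F ×ˢ Finset.range (N - 1)).biUnion B with hZ₂
  have hBr : ∀ Q ∈ F, ∀ k < N - 1, Unif r (B (Q, k)) := fun Q hQ k hk γ hγ =>
    ((hB1 Q hQ k hk).1.edges γ hγ).1
  have hZ₂r : Unif r Z₂ := by
    intro γ hγ
    rcases Finset.mem_union.mp hγ with h | h
    · exact hXr γ h
    · obtain ⟨y, hy, hγy⟩ := Finset.mem_biUnion.mp h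
      rw [Finset.mem_product, Finset.mem_range] at hy
      exact hBr y.1 hy.1 y.2 hy.2 γ hγy
  have hZ₂d : ∀ S : Finset V, S.card = r - 1 → (dg Z₂ S : ℝ) ≤ ((1 + C₁ * N) * x) * n := by
    intro S hS
    have h1 : (dg Z₂ S : ℝ) ≤ dg X S + dg ((F ×ˢ Finset.range (N - 1)).biUnion B) S := by
      exact_mod_cast op_dg_union X _ S
    have h2 := hXd' S hS
    have h3 := hB4 S hS
    calc (dg Z₂ S : ℝ) ≤ _ := h1
      _ ≤ x * n + C₁ * (N * x) * n := add_le_add h2 h3
      _ = _ := by ring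
  have hk2 : K₂ ≤ K := by
    rw [hK]
    have : 0 ≤ 1 + (N : ℝ) + C₁ * N + C₂ * K₂ + 2 * N * (C₂ * K₂) +
      C₃ * (2 * N * (C₂ * K₂)) := by positivity
    linarith
  have hk3 : 1 + C₁ * N ≤ K := by
    rw [hK]
    have : 0 ≤ (N : ℝ) + K₂ + C₂ * K₂ + 2 * N * (C₂ * K₂) +
      C₃ * (2 * N * (C₂ * K₂)) := by positivity
    linarith
  have hK₂1 : 1 ≤ K₂ := by
    rw [hK₂]
    have : 0 ≤ (q.choose r : ℝ) * (C₁ * N) := by positivity
    linarith
  obtain ⟨Y, nw, hY1, hY2, hY3, hY4⟩ := hc V (by omega) G Z₂ M (fun f i => opc nb f (part f i))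
    (K₂ * x) ((1 + C₁ * N) * x) hG (by positivity) (hKe K₂ hk2).2.1 (by positivity)
    (hKe _ hk3).2.1 (hlog K₂ hK₂1) hc0 hcs hZ₂r hZ₂d
  -- stage 3
  set W : Finset (Finset V) := (Finset.univ.powersetCard r).biUnion fun f =>
    (Finset.range (M f)).biUnion fun i => wireE r N Y f i with hW
  have hWm : ∀ f : Finset V, f.card = r → ∀ i < M f, wireE r N Y f i ⊆ W := by
    intro f hf i hi γ hγ
    rw [hW, Finset.mem_biUnion]
    refine ⟨f, Finset.mem_powersetCard.mpr ⟨Finset.subset_univ _, hf⟩, ?_⟩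
    rw [Finset.mem_biUnion]
    exact ⟨i, Finset.mem_range.mpr hi, hγ⟩
  set Z₃ : Finset (Finset V) := Z₂ ∪ W with hZ₃
  have hWr : Unif r W := by
    intro γ hγ
    rw [hW, Finset.mem_biUnion] at hγ
    obtain ⟨f, hf, hγ⟩ := hγ
    rw [Finset.mem_biUnion] at hγ
    obtain ⟨i, hi, hγ⟩ := hγ
    exact hG.1 γ ((hY1 f (Finset.mem_powersetCard.mp hf).2 i (Finset.mem_range.mp hi)).2.2.1 hγ)
  have hZ₃r : Unif r Z₃ := by
    intro γ hγ
    rcases Finset.mem_union.mp hγ with h | h
    · exact hZ₂r γ h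
    · exact hWr γ h
  have hZ₃d : ∀ S : Finset V, S.card = r - 1 →
      (dg Z₃ S : ℝ) ≤ ((1 + C₁ * N + C₂ * K₂) * x) * n := by
    intro S hS
    have h1 : (dg Z₃ S : ℝ) ≤ dg Z₂ S + dg W S := by
      exact_mod_cast op_dg_union Z₂ _ S
    have h2 := hZ₂d S hS
    have h3 := hY4 S hS
    calc (dg Z₃ S : ℝ) ≤ _ := h1
      _ ≤ ((1 + C₁ * N) * x) * n + C₂ * (K₂ * x) * n := add_le_add h2 h3
      _ = _ := by ring
  have hH : OpH q r N nb st M part Y nw := by
    refine ⟨fun f hf i hi => (hc0 f hf i hi).1, ?_, fun f hf i hi => (hY1 f hf i hi).1,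
      fun f hf i hi => (hY1 f hf i hi).2.2.2.2.1, fun f hf i hi => (hY1 f hf i hi).2.2.2.2.2.1,
      fun f hf i hi => (hY1 f hf i hi).2.2.2.2.2.2⟩
    intro f hf i hi y hy
    obtain ⟨h1, h2, h3⟩ := hsome f i hi y hy
    have h4 := (hB1 y.1 h1 y.2 h3).1.st_card f h2
    refine ⟨h4.1, h4.2.1, ?_⟩
    intro z hz
    by_cases hzf : z ∈ f
    · exact Finset.mem_union_left _ ((Finset.mem_powersetCard.mp h2).1 hzf)
    · exact Finset.mem_union_right _ (h4.2.2 (Finset.mem_sdiff.mpr ⟨hz, hzf⟩))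
  have hk4 : 2 * N * (C₂ * K₂) ≤ K := by
    rw [hK]
    have : 0 ≤ 1 + (N : ℝ) + C₁ * N + K₂ + C₂ * K₂ +
      C₃ * (2 * N * (C₂ * K₂)) := by positivity
    linarith
  have hk5 : 1 + C₁ * N + C₂ * K₂ ≤ K := by
    rw [hK]
    have : 0 ≤ (N : ℝ) + K₂ + 2 * N * (C₂ * K₂) +
      C₃ * (2 * N * (C₂ * K₂)) := by positivity
    linarith
  have hk6 : 1 ≤ 2 * N * (C₂ * K₂) := by
    have h1 : (1 : ℝ) ≤ C₂ * K₂ := one_le_mul_of_one_le_of_one_le hC₂ hK₂1
    have h2 : (1 : ℝ) ≤ 2 * N := by linarith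
    exact one_le_mul_of_one_le_of_one_le h2 h1
  obtain ⟨Ab, hA1, hA2, hA3, hA4, hA5⟩ := ha V (by omega) G Z₃ nb st M part Y nw
    (C₂ * (K₂ * x)) ((1 + C₁ * N + C₂ * K₂) * x) hH hG (by positivity)
    (by
      have := (hKe _ hk4).2.2
      calc _ = 2 * N * (C₂ * K₂) * x := by ring
        _ ≤ _ := this)
    (by positivity) (hKe _ hk5).2.2
    (by
      have := hlog _ hk6
      calc _ ≤ _ := this
        _ = _ := by ring)
    (by
      intro A hA
      exact hY3 A hA)
    hZ₃r hZ₃d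
  -- conclusion
  have hBm : ∀ Q ∈ F, ∀ k < N - 1, B (Q, k) ⊆ Z₂ := by
    intro Q hQ k hk γ hγ
    refine Finset.mem_union_right _ (Finset.mem_biUnion.mpr ⟨(Q, k), ?_, hγ⟩)
    exact Finset.mem_product.mpr ⟨hQ, Finset.mem_range.mpr hk⟩
  have hXZ₂ : X ⊆ Z₂ := Finset.subset_union_left
  have hZ₂₃ : Z₂ ⊆ Z₃ := Finset.subset_union_left
  have hWZ₃ : W ⊆ Z₃ := Finset.subset_union_right
  refine ⟨B, nb, st, M, part, Y, nw, Ab, ?_, ?_, ?_, ?_⟩
  · refine ⟨fun Q hQ k hk => (hB1 Q hQ k hk).1, ?_, fun f hf i hi => (hY1 f hf i hi).1, hA1,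
      hA2, hB2, ?_, ?_, hY2, ?_, hA4, ?_, ?_, ?_⟩
    · intro f _
      exact hpart f
    · intro Q hQ k hk f hf i hi
      exact ((hY1 f hf i hi).2.2.2.1.mono_right (hBm Q hQ k hk)).symm
    · intro Q hQ k hk f hf i hi act a ha'
      exact ((hA3 f hf i hi act a ha').2.mono_right ((hBm Q hQ k hk).trans hZ₂₃)).symm
    · intro f hf i hi f' hf' i' hi' act a ha'
      exact ((hA3 f' hf' i' hi' act a ha').2.mono_right ((hWm f hf i hi).trans hWZ₃)).symm
    · intro Q hQ k hk
      exact (hB1 Q hQ k hk).2.2.2.symm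
    · intro f hf i hi
      exact ((hY1 f hf i hi).2.2.2.1.mono_right hXZ₂).symm
    · intro f hf i hi act a ha'
      exact ((hA3 f hf i hi act a ha').2.mono_right (hXZ₂.trans hZ₂₃)).symm
  · intro γ hγ
    unfold omniA at hγ
    rw [Finset.mem_union] at hγ
    rcases hγ with h | h
    · obtain ⟨y, hy, hγy⟩ := Finset.mem_biUnion.mp h
      rw [Finset.mem_product, Finset.mem_range] at hy
      exact (hB1 y.1 hy.1 y.2 hy.2).2.2.1 hγy
    · rw [Finset.mem_biUnion] at h
      obtain ⟨f, hf, h⟩ := h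
      rw [Finset.mem_biUnion] at h
      obtain ⟨i, hi, h⟩ := h
      have hf' := (Finset.mem_powersetCard.mp hf).2
      have hi' := Finset.mem_range.mp hi
      rcases Finset.mem_union.mp h with h | h
      · exact (hY1 f hf' i hi').2.2.1 h
      · rw [Finset.mem_biUnion] at h
        obtain ⟨act, _, h⟩ := h
        rw [Finset.mem_biUnion] at h
        obtain ⟨a, ha', h⟩ := h
        exact (hA3 f hf' i hi' act a (Finset.mem_range.mp ha')).1 h
  · rw [Finset.disjoint_left]
    intro γ hγ hγX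
    unfold omniA at hγ
    rw [Finset.mem_union] at hγ
    rcases hγ with h | h
    · obtain ⟨y, hy, hγy⟩ := Finset.mem_biUnion.mp h
      rw [Finset.mem_product, Finset.mem_range] at hy
      exact Finset.disjoint_left.mp (hB1 y.1 hy.1 y.2 hy.2).2.2.2 hγy hγX
    · rw [Finset.mem_biUnion] at h
      obtain ⟨f, hf, h⟩ := h
      rw [Finset.mem_biUnion] at h
      obtain ⟨i, hi, h⟩ := h
      have hf' := (Finset.mem_powersetCard.mp hf).2
      have hi' := Finset.mem_range.mp hi
      rcases Finset.mem_union.mp h with h | h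
      · exact Finset.disjoint_left.mp (hY1 f hf' i hi').2.2.2.1 h (hXZ₂ hγX)
      · rw [Finset.mem_biUnion] at h
        obtain ⟨act, _, h⟩ := h
        rw [Finset.mem_biUnion] at h
        obtain ⟨a, ha', h⟩ := h
        exact Finset.disjoint_left.mp (hA3 f hf' i hi' act a (Finset.mem_range.mp ha')).2 h
          (hZ₂₃ (hXZ₂ hγX))
  · intro S hS
    set A3 : Finset (Finset V) := (Finset.univ.powersetCard r).biUnion fun f =>
      (Finset.range (M f)).biUnion fun i => (Finset.univ : Finset Bool).biUnion fun act =>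
            (Finset.range N).biUnion fun a => Ab f i act a with hA3'
    have h1 : omniA r N F B M Y Ab ⊆ ((F ×ˢ Finset.range (N - 1)).biUnion B ∪ W) ∪ A3 := by
      intro γ hγ
      unfold omniA at hγ
      rw [Finset.mem_union] at hγ
      rcases hγ with h | h
      · exact Finset.mem_union_left _ (Finset.mem_union_left _ h)
      · rw [Finset.mem_biUnion] at h
        obtain ⟨f, hf, h⟩ := h
        rw [Finset.mem_biUnion] at h
        obtain ⟨i, hi, h⟩ := h
        rcases Finset.mem_union.mp h with h | h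
        · refine Finset.mem_union_left _ (Finset.mem_union_right _ ?_)
          exact hWm f (Finset.mem_powersetCard.mp hf).2 i (Finset.mem_range.mp hi) h
        · refine Finset.mem_union_right _ ?_
          rw [hA3', Finset.mem_biUnion]
          refine ⟨f, hf, ?_⟩
          rw [Finset.mem_biUnion]
          exact ⟨i, hi, h⟩
    have h2 : (dg (omniA r N F B M Y Ab) S : ℝ) ≤
        dg ((F ×ˢ Finset.range (N - 1)).biUnion B) S + dg W S + dg A3 S := by
      have h3 := dg_mono h1 S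
      have h4 := op_dg_union ((F ×ˢ Finset.range (N - 1)).biUnion B ∪ W) A3 S
      have h5 := op_dg_union ((F ×ˢ Finset.range (N - 1)).biUnion B) W S
      exact_mod_cast (by omega : dg (omniA r N F B M Y Ab) S ≤
        dg ((F ×ˢ Finset.range (N - 1)).biUnion B) S + dg W S + dg A3 S)
    have h3 := hB4 S hS
    have h4 := hY4 S hS
    have h5 := hA5 S hS
    refine h2.trans ?_
    refine le_trans (add_le_add (add_le_add h3 h4) h5) ?_
    refine le_trans ?_ ha3
    have h6 : C₁ * (↑N * x) * ↑n + C₂ * (K₂ * x) * ↑n + C₃ * (2 * ↑N * (C₂ * (K₂ * x))) * ↑n =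
        (C₁ * N + C₂ * K₂ + C₃ * (2 * N * (C₂ * K₂))) * (x * n) := by ring
    rw [h6]
    have h7 : K * x * n = K * (x * n) := by ring
    rw [h7]
    refine mul_le_mul_of_nonneg_right ?_ hxn0.le
    rw [hK]
    have : 0 ≤ 1 + (N : ℝ) + K₂ + 2 * N * (C₂ * K₂) := by positivity
    linarith

end Pool.Agent.Des
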