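import Pool.Agent.Lib_helper96.Des.Logic
import Pool.Agent.Lib_helper88.HCR.D2.OmniPlace

/-!
# Block OMNI: the omni-absorber theorem
-/

set_option autoImplicit false

namespace Pool.Agent.Des

open Finset

theorem omni (q r N : ℕ) (hr : 1 ≤ r) (hq : r < q) (hN2 : q ≤ N)
    (hN : ∀ i ≤ r, (q - i).choose (r - i) ∣ N) (δ : ℝ) (hδ : 0 < δ) (hδ1 : δ ≤ 1 / 2) :
    ∃ (δ' : ℝ) (n₀ : ℕ), 0 < δ' ∧
    ∀ (V : Type) [Fintype V] [DecidableEq V], n₀ ≤ Fintype.card V →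
    ∀ (G X F : Finset (Finset V)), Dense q r (cg r) G → X ⊆ G →
    (∀ S : Finset V, S.card = r - 1 → (dg X S : ℝ) ≤ (Fintype.card V : ℝ) ^ (1 - δ)) →
    (∀ Q ∈ F, Q.card = q) →
    (∀ A : Finset V, A.card < r →
      (dg F A : ℝ) ≤ (Fintype.card V : ℝ) ^ ((r : ℝ) - A.card - δ)) →
    ∃ A ⊆ G, Disjoint A X ∧
      (∀ S : Finset V, S.card = r - 1 →
        (dg A S : ℝ) ≤ (Fintype.card V : ℝ) ^ (1 - δ')) ∧
      ∀ L ⊆ X, (fun e => if e ∈ L then (1 : ZMod N) else 0) ∈ spn (ZMod N) r F →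
        Decomp q r (A ∪ L) := by
  obtain ⟨δ', n₀, hδ', h⟩ := omniplace q r N hr hq hN2 hN δ hδ hδ1
  refine ⟨δ', n₀, hδ', fun V _ _ hn G X F hG hX hXc hF hFd => ?_⟩
  obtain ⟨B, nb, st, M, part, Y, nw, Ab, h1, h2, h3, h4⟩ := h V hn G X F hG hX hXc hF hFd
  exact ⟨omniA r N F B M Y Ab, h2, h3, h4, fun L hL hsp =>
    logic q r N hr hq (by omega) V X F (fun e he => hG.1 e (hX he)) hF B nb st M part Y nw Ab
      h1 L hL hsp⟩

end Pool.Agent.Des
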